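import Mathlib
import Pool.Agent.helper38.LSys3

/-!
Domination lemma for `MP_141f81_co`: definitions.

A finite matroid is given by its rank function (`RankSys`).  `Third` is the property (T): in every
contraction every line has at least three classes.
-/

set_option autoImplicit false

namespace Pool.Agent.helper36.MFD

open Finset

/-- A loopless finite matroid on `E`, given by its rank function. -/
structure RankSys (E : Type) [Fintype E] [DecidableEq E] where
  rk : Finset E → ℕ
  rk_empty : rk ∅ = 0
  rk_insert_le : ∀ (v : E) (A : Finset E), rk (insert v A) ≤ rk A + 1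
  rk_mono : ∀ {A B : Finset E}, A ⊆ B → rk A ≤ rk B
  rk_submod : ∀ A B : Finset E, rk (A ∪ B) + rk (A ∩ B) ≤ rk A + rk B
  rk_single : ∀ v : E, rk {v} = 1

namespace RankSys

variable {E : Type} [Fintype E] [DecidableEq E] (M : RankSys E)

/-- The closure. -/
def cl (A : Finset E) : Finset E := Finset.univ.filter (fun v => M.rk (insert v A) = M.rk A)

/-- Flats. -/
def IsFlat (A : Finset E) : Prop := M.cl A = A

instance (A : Finset E) : Decidable (M.IsFlat A) := by unfold IsFlat; infer_instance

/-- Property (T): if `x ∉ cl A`, `y ∉ cl (A + x)` then `cl (A + x + y)` contains an element outside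
`cl (A + x)` and `cl (A + y)`. -/
def Third : Prop := ∀ (A : Finset E) (x y : E), x ∉ M.cl A → y ∉ M.cl (insert x A) →
  ∃ g ∈ M.cl (insert x (insert y A)), g ∉ M.cl (insert x A) ∧ g ∉ M.cl (insert y A)

/-- No parallel elements. -/
def Simple : Prop := ∀ x : E, M.cl {x} = {x}

end RankSys

/-- The functional dependency `a, b → c` for a family of functions on `E`. -/
def FD2 {E : Type} {V : Type*} (F : Finset (E → V)) (a b c : E) : Prop :=
  ∀ x ∈ F, ∀ y ∈ F, x a = y a → x b = y b → x c = y c

/-- The closure of a set of columns for the closure system `I` (together with the whole set). -/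
def jcl {k : ℕ} (I : Finset (Finset (Fin k))) (A : Finset (Fin k)) : Finset (Fin k) :=
  Finset.univ.filter (fun i => ∀ B ∈ I, A ⊆ B → i ∈ B)

/-- `A` is closed for the closure system `I` (together with the whole set). -/
def JC {k : ℕ} (I : Finset (Finset (Fin k))) (A : Finset (Fin k)) : Prop := A ∈ I ∨ A = Finset.univ

/-- Weights of the elements of `Fin t`: superincreasing, and `w i ≡ δ_ij` modulo `p j`. -/
structure IsWeight {t : ℕ} (P : ℕ) (w p : Fin t → ℕ) : Prop where
  big : ∀ j, P < p j
  mod : ∀ i j, w i % p j = if i = j then 1 else 0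
  sup : ∀ j, 2 * ∑ i ∈ Finset.univ.filter (· < j), w i < w j

/-- The weight of a set. -/
def wt {t : ℕ} (w : Fin t → ℕ) (A : Finset (Fin t)) : ℕ := ∑ i ∈ A, w i

end Pool.Agent.helper36.MFD
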