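import Mathlib
import Pool.Agent.helper36.MFD.Defs

set_option autoImplicit false

namespace Pool.Agent.helper36.MFD

open Finset

namespace RankSys

variable {E : Type} [Fintype E] [DecidableEq E] (M : RankSys E)

lemma mem_cl {v : E} {A : Finset E} : v ∈ M.cl A ↔ M.rk (insert v A) = M.rk A := by
  simp [cl]

lemma rk_insert_of_notMem {v : E} {A : Finset E} (h : v ∉ M.cl A) :
    M.rk (insert v A) = M.rk A + 1 := by
  have h1 := M.rk_insert_le v A
  have h2 := M.rk_mono (Finset.subset_insert v A)
  rw [mem_cl] at h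
  omega

lemma subset_cl (A : Finset E) : A ⊆ M.cl A := by
  intro v hv
  rw [mem_cl, Finset.insert_eq_of_mem hv]

lemma cl_mono {A B : Finset E} (h : A ⊆ B) : M.cl A ⊆ M.cl B := by
  intro v hv
  rw [mem_cl] at hv ⊢
  have h1 := M.rk_submod (insert v A) B
  have h2 : insert v A ∪ B = insert v B := by
    rw [Finset.insert_union, Finset.union_eq_right.2 h]
  have h3 : M.rk A ≤ M.rk (insert v A ∩ B) :=
    M.rk_mono (Finset.subset_inter (Finset.subset_insert v A) h)
  have h4 := M.rk_mono (Finset.subset_insert v B)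
  rw [h2] at h1
  omega

lemma rk_union_of_subset_cl {A B : Finset E} (h : B ⊆ M.cl A) : M.rk (A ∪ B) = M.rk A := by
  induction B using Finset.induction_on with
  | empty => simp
  | insert b B hb ih =>
    have hB : B ⊆ M.cl A := fun x hx => h (Finset.mem_insert_of_mem hx)
    have h1 := ih hB
    have h2 : b ∈ M.cl (A ∪ B) := M.cl_mono Finset.subset_union_left (h (Finset.mem_insert_self _ _))
    rw [mem_cl] at h2
    rw [Finset.union_insert, h2, h1]

lemma rk_cl (A : Finset E) : M.rk (M.cl A) = M.rk A := by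
  have h := M.rk_union_of_subset_cl (A := A) (B := M.cl A) subset_rfl
  rwa [Finset.union_eq_right.2 (M.subset_cl A)] at h

lemma cl_cl (A : Finset E) : M.cl (M.cl A) = M.cl A := by
  apply Finset.Subset.antisymm _ (M.subset_cl _)
  intro v hv
  rw [mem_cl] at hv ⊢
  have h1 : M.rk (insert v A) ≤ M.rk (insert v (M.cl A)) :=
    M.rk_mono (Finset.insert_subset_insert v (M.subset_cl A))
  have h2 := M.rk_mono (Finset.subset_insert v A)
  rw [hv, M.rk_cl] at h1
  omega

lemma isFlat_cl (A : Finset E) : M.IsFlat (M.cl A) := M.cl_cl A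

lemma cl_min {A F : Finset E} (hF : M.IsFlat F) (h : A ⊆ F) : M.cl A ⊆ F := by
  have := M.cl_mono h
  rwa [hF] at this

lemma isFlat_univ : M.IsFlat Finset.univ :=
  Finset.Subset.antisymm (Finset.subset_univ _) (M.subset_cl _)

lemma IsFlat.inter {A B : Finset E} (hA : M.IsFlat A) (hB : M.IsFlat B) : M.IsFlat (A ∩ B) := by
  apply Finset.Subset.antisymm _ (M.subset_cl _)
  exact Finset.subset_inter (M.cl_min hA Finset.inter_subset_left)
    (M.cl_min hB Finset.inter_subset_right)

lemma exchange {x y : E} {A : Finset E} (h1 : y ∈ M.cl (insert x A)) (h2 : y ∉ M.cl A) :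
    x ∈ M.cl (insert y A) := by
  have h3 := M.rk_insert_of_notMem h2
  rw [mem_cl] at h1 ⊢
  rw [Finset.insert_comm, h1]
  have h4 := M.rk_insert_le x A
  have h5 := M.rk_mono (Finset.subset_insert y (insert x A))
  have h6 := M.rk_mono (Finset.subset_insert x (insert y A))
  rw [Finset.insert_comm] at h6
  rw [h1] at h6
  omega

lemma cl_empty : M.cl ∅ = ∅ := by
  ext v
  simp only [mem_cl, insert_empty_eq, M.rk_single, M.rk_empty]
  simp

lemma cl_insert_cl (x : E) (A : Finset E) : M.cl (insert x (M.cl A)) = M.cl (insert x A) := by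
  apply Finset.Subset.antisymm
  · apply M.cl_min (M.isFlat_cl _)
    intro v hv
    rw [Finset.mem_insert] at hv
    rcases hv with rfl | hv
    · exact M.subset_cl _ (Finset.mem_insert_self _ _)
    · exact M.cl_mono (Finset.subset_insert _ _) hv
  · exact M.cl_mono (Finset.insert_subset_insert _ (M.subset_cl A))

/-- If `s ∈ cl (A + x)` and `s ∉ cl A` then `cl (A + s) = cl (A + x)`. -/
lemma cl_insert_eq {x s : E} {A : Finset E} (h1 : s ∈ M.cl (insert x A)) (h2 : s ∉ M.cl A) :
    M.cl (insert s A) = M.cl (insert x A) := by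
  have h3 := M.exchange h1 h2
  apply Finset.Subset.antisymm
  · apply M.cl_min (M.isFlat_cl _)
    intro v hv
    rw [Finset.mem_insert] at hv
    rcases hv with rfl | hv
    · exact h1
    · exact M.subset_cl _ (Finset.mem_insert_of_mem hv)
  · apply M.cl_min (M.isFlat_cl _)
    intro v hv
    rw [Finset.mem_insert] at hv
    rcases hv with rfl | hv
    · exact h3
    · exact M.subset_cl _ (Finset.mem_insert_of_mem hv)

lemma mem_cl_of_mem {v : E} {A : Finset E} (h : v ∈ A) : v ∈ M.cl A := M.subset_cl A h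

/-- Extend a set `S` to a spanning set inside the spanning set `H`. -/
lemma exists_extend (S H : Finset E) (hSH : S ⊆ H) (hS : M.rk S = S.card)
    (hH : M.cl H = Finset.univ) :
    ∃ B, S ⊆ B ∧ B ⊆ H ∧ B.card = M.rk Finset.univ ∧ M.cl B = Finset.univ := by
  classical
  -- a maximal independent set between
  let 𝒞 : Finset (Finset E) := H.powerset.filter (fun B => S ⊆ B ∧ M.rk B = B.card)
  have hne : 𝒞.Nonempty := ⟨S, by simp [𝒞, hSH, hS]⟩
  obtain ⟨B, hB, hmax⟩ := Finset.exists_max_image 𝒞 Finset.card hne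
  simp only [𝒞, Finset.mem_filter, Finset.mem_powerset] at hB
  have hHB : H ⊆ M.cl B := by
    intro v hv
    by_contra hcon
    have h1 := M.rk_insert_of_notMem hcon
    have hvB : v ∉ B := fun h => hcon (M.subset_cl _ h)
    have h2 := hmax (insert v B) (by
      simp only [𝒞, Finset.mem_filter, Finset.mem_powerset]
      refine ⟨Finset.insert_subset hv hB.1, hB.2.1.trans (Finset.subset_insert _ _), ?_⟩
      rw [h1, hB.2.2, Finset.card_insert_of_notMem hvB])
    rw [Finset.card_insert_of_notMem hvB] at h2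
    omega
  have hspan : M.cl B = Finset.univ := by
    apply Finset.eq_univ_iff_forall.2
    intro v
    have : v ∈ M.cl H := by rw [hH]; exact Finset.mem_univ _
    exact M.cl_min (M.isFlat_cl B) hHB this
  refine ⟨B, hB.2.1, hB.1, ?_, hspan⟩
  rw [← hB.2.2, ← M.rk_cl B, hspan]

end RankSys

end Pool.Agent.helper36.MFD
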