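import Mathlib
import Pool.Agent.helper36.MFD.Defs

set_option autoImplicit false

namespace Pool.Agent.helper36.MFD

open Finset

section J

variable {k : ℕ} {I : Finset (Finset (Fin k))}

lemma mem_jcl {A : Finset (Fin k)} {i : Fin k} : i ∈ jcl I A ↔ ∀ B ∈ I, A ⊆ B → i ∈ B := by
  simp [jcl]

lemma subset_jcl (A : Finset (Fin k)) : A ⊆ jcl I A := by
  intro i hi
  rw [mem_jcl]
  exact fun B _ h => h hi

lemma jcl_min {A B : Finset (Fin k)} (hB : JC I B) (h : A ⊆ B) : jcl I A ⊆ B := by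
  intro i hi
  rw [mem_jcl] at hi
  rcases hB with hB | rfl
  · exact hi B hB h
  · exact Finset.mem_univ _

lemma jcl_mono {A B : Finset (Fin k)} (h : A ⊆ B) : jcl I A ⊆ jcl I B := by
  intro i hi
  rw [mem_jcl] at hi ⊢
  exact fun C hC hBC => hi C hC (h.trans hBC)

lemma JC.univ : JC I (Finset.univ : Finset (Fin k)) := Or.inr rfl

lemma JC.inter (hI : ∀ A ∈ I, ∀ B ∈ I, A ∩ B ∈ I) {A B : Finset (Fin k)} (hA : JC I A)
    (hB : JC I B) : JC I (A ∩ B) := by
  rcases hA with hA | rfl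
  · rcases hB with hB | rfl
    · exact Or.inl (hI A hA B hB)
    · rw [Finset.inter_univ]; exact Or.inl hA
  · rw [Finset.univ_inter]; exact hB

/-- A nonempty family of closed sets which is closed under intersections has a least member. -/
lemma exists_least (hI : ∀ A ∈ I, ∀ B ∈ I, A ∩ B ∈ I) (P : Finset (Fin k) → Prop)
    (hne : ∃ A, JC I A ∧ P A)
    (hP : ∀ A B, JC I A → P A → JC I B → P B → P (A ∩ B)) :
    ∃ Y, JC I Y ∧ P Y ∧ ∀ A, JC I A → P A → Y ⊆ A := by
  classical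
  let 𝒞 : Finset (Finset (Fin k)) := Finset.univ.filter (fun A => JC I A ∧ P A)
  have h𝒞 : 𝒞.Nonempty := by
    obtain ⟨A, hA⟩ := hne
    exact ⟨A, by simp [𝒞, hA]⟩
  obtain ⟨Y, hY, hmin⟩ := Finset.exists_min_image 𝒞 Finset.card h𝒞
  simp only [𝒞, Finset.mem_filter, Finset.mem_univ, true_and] at hY hmin
  refine ⟨Y, hY.1, hY.2, fun A hA hPA => ?_⟩
  have h1 := hmin (Y ∩ A) ⟨JC.inter hI hY.1 hA, hP Y A hY.1 hY.2 hA hPA⟩
  have h2 := Finset.eq_of_subset_of_card_le Finset.inter_subset_left h1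
  rw [← h2]
  exact Finset.inter_subset_right

lemma JC_jcl (hI : ∀ A ∈ I, ∀ B ∈ I, A ∩ B ∈ I) (A : Finset (Fin k)) : JC I (jcl I A) := by
  obtain ⟨Y, hY, hAY, hmin⟩ := exists_least hI (fun B => A ⊆ B) ⟨Finset.univ, JC.univ, Finset.subset_univ _⟩
    (fun B C _ hB _ hC => Finset.subset_inter hB hC)
  have : jcl I A = Y := by
    apply Finset.Subset.antisymm (jcl_min hY hAY)
    intro i hi
    rw [mem_jcl]
    exact fun B hB hAB => hmin B (Or.inl hB) hAB hi
  rw [this]; exact hY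

lemma jcl_of_JC {A : Finset (Fin k)} (hA : JC I A) : jcl I A = A :=
  Finset.Subset.antisymm (jcl_min hA subset_rfl) (subset_jcl A)

lemma jcl_insert_jcl (hI : ∀ A ∈ I, ∀ B ∈ I, A ∩ B ∈ I) (v : Fin k) (A : Finset (Fin k)) :
    jcl I (insert v (jcl I A)) = jcl I (insert v A) := by
  apply Finset.Subset.antisymm
  · apply jcl_min (JC_jcl hI _)
    intro i hi
    rw [Finset.mem_insert] at hi
    rcases hi with rfl | hi
    · exact subset_jcl _ (Finset.mem_insert_self _ _)
    · exact jcl_mono (Finset.subset_insert _ _) hi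
  · exact jcl_mono (Finset.insert_subset_insert _ (subset_jcl A))

/-- On a family with agreement sets in `I`, agreement on `A` gives agreement on `jcl I A`. -/
lemma agree_jcl {n : ℕ} {F : Finset (Fin k → Fin n)}
    (hF : Pool.Agent.helper38.LSys.Fam I F) {A : Finset (Fin k)} {x y : Fin k → Fin n}
    (hx : x ∈ F) (hy : y ∈ F) (h : ∀ i ∈ A, x i = y i) : ∀ i ∈ jcl I A, x i = y i := by
  intro i hi
  by_cases hxy : x = y
  · rw [hxy]
  · rw [mem_jcl] at hi
    have h1 := hi _ (hF x hx y hy hxy) (fun j hj => (Pool.Agent.helper38.LSys.mem_agr x y j).2 (h j hj))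
    exact (Pool.Agent.helper38.LSys.mem_agr x y i).1 h1

end J

end Pool.Agent.helper36.MFD
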