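import Mathlib
import Pool.Agent.helper36.MFD.Defs

set_option autoImplicit false

namespace Pool.Agent.helper36.MFD

open Finset

section W

variable {t P : ℕ} {w p : Fin t → ℕ}

lemma IsWeight.pos (hw : IsWeight P w p) (j : Fin t) : 0 < w j := by
  have := hw.sup j
  omega

/-- The set of the digits `≥ μ`. -/
def Dge (t μ : ℕ) : Finset (Fin t) := Finset.univ.filter (fun i => μ ≤ (i : ℕ))

lemma mem_Dge {μ : ℕ} {i : Fin t} : i ∈ Dge t μ ↔ μ ≤ (i : ℕ) := by simp [Dge]

/-- Lexicographic comparison. -/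
lemma wt_lt (hw : IsWeight P w p) {A B : Finset (Fin t)} {j : Fin t} (hjA : j ∈ A) (hjB : j ∉ B)
    (h : ∀ i, j < i → i ∈ B → i ∈ A) : wt w B < wt w A := by
  have h1 : wt w B ≤ wt w (A.filter (j < ·)) + ∑ i ∈ Finset.univ.filter (· < j), w i := by
    unfold wt
    rw [← Finset.sum_filter_add_sum_filter_not B (fun i => j < i)]
    apply Nat.add_le_add
    · apply Finset.sum_le_sum_of_subset
      intro i hi
      rw [Finset.mem_filter] at hi ⊢
      exact ⟨h i hi.2 hi.1, hi.2⟩
    · apply Finset.sum_le_sum_of_subset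
      intro i hi
      rw [Finset.mem_filter] at hi ⊢
      refine ⟨Finset.mem_univ _, ?_⟩
      have h3 : i ≠ j := fun hij => hjB (hij ▸ hi.1)
      exact lt_of_le_of_ne (not_lt.1 hi.2) h3
  have h2 : wt w (A.filter (j < ·)) + w j ≤ wt w A := by
    unfold wt
    have : insert j (A.filter (j < ·)) ⊆ A := by
      intro i hi
      rw [Finset.mem_insert, Finset.mem_filter] at hi
      rcases hi with rfl | hi
      · exact hjA
      · exact hi.1
    have h3 := Finset.sum_le_sum_of_subset (f := w) this
    rw [Finset.sum_insert (by simp)] at h3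
    omega
  have h3 := hw.sup j
  omega

lemma wt_inj (hw : IsWeight P w p) {A B : Finset (Fin t)} (h : wt w A = wt w B) : A = B := by
  by_contra hne
  have hne' : (symmDiff A B).Nonempty := by
    rw [Finset.nonempty_iff_ne_empty]
    intro h0
    exact hne (symmDiff_eq_bot.1 h0)
  obtain ⟨j, hj, hmax⟩ := Finset.exists_max_image (symmDiff A B) id hne'
  rw [Finset.mem_symmDiff] at hj
  have hagree : ∀ i, j < i → (i ∈ A ↔ i ∈ B) := by
    intro i hi
    by_contra hcon
    have : i ∈ symmDiff A B := by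
      rw [Finset.mem_symmDiff]
      tauto
    have := hmax i this
    exact absurd hi (not_lt.2 this)
  rcases hj with hj | hj
  · have := wt_lt hw hj.1 hj.2 (fun i hi hiB => (hagree i hi).2 hiB)
    omega
  · have := wt_lt hw hj.1 hj.2 (fun i hi hiA => (hagree i hi).1 hiA)
    omega

lemma Dge_subset_of_wt_le (hw : IsWeight P w p) {μ : ℕ} {A B : Finset (Fin t)}
    (hB : Dge t μ ⊆ B) (h : wt w B ≤ wt w A) : Dge t μ ⊆ A := by
  by_contra hcon
  rw [Finset.not_subset] at hcon
  have hne : (Dge t μ \ A).Nonempty := by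
    obtain ⟨j, hj, hjA⟩ := hcon
    exact ⟨j, Finset.mem_sdiff.2 ⟨hj, hjA⟩⟩
  obtain ⟨j, hj, -⟩ := Finset.exists_max_image _ id hne
  rw [Finset.mem_sdiff] at hj
  have := wt_lt hw (hB hj.1) hj.2 (fun i hi _ => hB (by
    rw [mem_Dge] at hj ⊢
    have : (j : ℕ) < i := hi
    omega))
  omega

lemma wt_union_le (A B : Finset (Fin t)) : wt w A ≤ wt w (A ∪ B) :=
  Finset.sum_le_sum_of_subset Finset.subset_union_left

lemma Dge_subset_inter (hw : IsWeight P w p) {μ : ℕ} {A B C : Finset (Fin t)}
    (hA : Dge t μ ⊆ A) (hB : Dge t μ ⊆ B)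
    (h : wt w A + wt w B ≤ wt w Finset.univ + wt w C) : Dge t μ ⊆ C := by
  intro j hj
  by_contra hjC
  have h1 : wt w (Dge t μ) ≤ wt w A := Finset.sum_le_sum_of_subset hA
  have h2 : wt w (Dge t μ) ≤ wt w B := Finset.sum_le_sum_of_subset hB
  have h3 : wt w C + w j ≤ wt w Finset.univ := by
    unfold wt
    have := Finset.sum_le_sum_of_subset (f := w) (Finset.subset_univ (insert j C))
    rw [Finset.sum_insert hjC] at this
    omega
  have h4 : wt w Finset.univ ≤ wt w (Dge t μ) + ∑ i ∈ Finset.univ.filter (· < j), w i := by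
    unfold wt
    rw [← Finset.sum_filter_add_sum_filter_not Finset.univ (fun i : Fin t => μ ≤ (i : ℕ))]
    apply Nat.add_le_add le_rfl
    apply Finset.sum_le_sum_of_subset
    intro i hi
    rw [Finset.mem_filter] at hi ⊢
    rw [mem_Dge] at hj
    refine ⟨Finset.mem_univ _, ?_⟩
    rw [Fin.lt_def]
    omega
  have h5 := hw.sup j
  omega

lemma wt_mod (hw : IsWeight P w p) (F : Finset (Fin t)) (j : Fin t) :
    wt w F ≡ (if j ∈ F then 1 else 0) [MOD p j] := by
  have h1 : ∀ i, w i ≡ (if i = j then 1 else 0) [MOD p j] := by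
    intro i
    have := hw.mod i j
    unfold Nat.ModEq
    rw [this]
    have hp := hw.big j
    by_cases h : i = j
    · simp only [h, if_true]
      have h0 := hw.mod j j
      simp only [if_true] at h0
      have : 1 < p j ∨ p j = 1 ∨ p j = 0 := by omega
      rcases this with h2 | h2 | h2
      · exact (Nat.mod_eq_of_lt h2).symm
      · rw [h2] at h0; simp [Nat.mod_one] at h0
      · omega
    · simp [h]
  have h2 : wt w F ≡ ∑ i ∈ F, (if i = j then 1 else 0) [MOD p j] := by
    unfold wt
    induction F using Finset.induction_on with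
    | empty => rfl
    | insert a s ha ih =>
      rw [Finset.sum_insert ha, Finset.sum_insert ha]
      exact (h1 a).add ih
  rwa [Finset.sum_ite_eq'] at h2

end W

end Pool.Agent.helper36.MFD
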