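import Mathlib
import Pool.Agent.helper36.MFD.Defs
import Pool.Agent.helper36.MFD.Geo
import Pool.Agent.helper36.MFD.Jc
import Pool.Agent.helper36.MFD.Wt

set_option autoImplicit false

namespace Pool.Agent.helper36.MFD

open Finset Filter
open Pool.Agent.helper38.LSys

/-- `I` carries dense families, frequently along the filter `l`. -/
def DenseI {k : ℕ} (l : Filter ℕ) (r : ℕ) (I : Finset (Finset (Fin k))) : Prop :=
  ∃ c : ℝ, 0 < c ∧ ∃ᶠ n : ℕ in l, c * (n : ℝ) ^ r ≤ (fmax k I n : ℝ)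

/-- `I` is a minimal dense closure system. -/
structure MinDense {k : ℕ} (l : Filter ℕ) (r : ℕ) (I : Finset (Finset (Fin k))) : Prop where
  inter : ∀ A ∈ I, ∀ B ∈ I, A ∩ B ∈ I
  dense : DenseI l r I
  min : ∀ I', I' ⊂ I → (∀ A ∈ I', ∀ B ∈ I', A ∩ B ∈ I') → ¬ DenseI l r I'

/-- The data of the problem: `M` simple with (T) on `Fin t`, the hyperplane `H1 = Dge t h` with
spanning complement, weights, and a closure system `I` on `Fin (w(univ))` whose members have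
weights of proper flats as sizes. -/
structure Setup {t k : ℕ} (M : RankSys (Fin t)) (h : ℕ) (w p : Fin t → ℕ)
    (I : Finset (Finset (Fin k))) : Prop where
  simple : M.Simple
  third : M.Third
  hh : 1 ≤ h
  ht : h ≤ t
  H1 : M.IsFlat (Dge t h)
  hyp : ∀ x, x ∉ Dge t h → M.cl (insert x (Dge t h)) = Finset.univ
  span : M.cl (Dge t h)ᶜ = Finset.univ
  wei : IsWeight (5 ^ t) w p
  hk : k = wt w Finset.univ
  inter : ∀ A ∈ I, ∀ B ∈ I, A ∩ B ∈ I
  ne_univ : ∀ A ∈ I, A ≠ Finset.univ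
  card : ∀ A ∈ I, ∃ D, M.IsFlat D ∧ D ≠ Finset.univ ∧ A.card = wt w D

/-- What N1, N2, N3 give. -/
structure Good {k : ℕ} (r : ℕ) (I : Finset (Finset (Fin k))) : Prop where
  n1 : ∀ S, jcl I S = Finset.univ → r ≤ S.card
  n2 : ∀ (Y Z S : Finset (Fin k)) (v : Fin k), JC I Y → JC I Z → Z ⊆ Y →
    jcl I (insert v Y) = Finset.univ → jcl I S = Y → S.card + 1 ≤ r →
    jcl I (insert v Z) ∩ Y = Z
  n3 : ∀ (Y Z S : Finset (Fin k)) (u v : Fin k), JC I Y → JC I Z → Z ⊆ Y →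
    jcl I (insert u Y) = Finset.univ → jcl I S = Y → S.card + 1 ≤ r →
    u ∈ jcl I (insert v Z) → v ∈ jcl I (insert u Z)

/-- The blocks: output of the chain argument. -/
structure Blocks {t k : ℕ} (M : RankSys (Fin t)) (h : ℕ) (w : Fin t → ℕ)
    (I : Finset (Finset (Fin k))) (Y : Finset (Fin k)) (Z : Fin t → Finset (Fin k)) : Prop where
  closed : JC I Y
  gen : ∃ S, jcl I S = Y ∧ S.card + 1 ≤ M.rk Finset.univ
  card : Y.card = wt w (Dge t h)
  top : ∀ v, v ∉ Y → jcl I (insert v Y) = Finset.univ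
  zcard : ∀ s, s ∉ Dge t h → (Z s).card = w s
  zdisj : ∀ s, s ∉ Dge t h → ∀ v ∈ Z s, v ∉ Y
  zcl : ∀ s, s ∉ Dge t h → ∀ v ∈ Z s, jcl I {v} = Z s
  zcov : ∀ v, v ∉ Y → ∃ s, s ∉ Dge t h ∧ v ∈ Z s


end Pool.Agent.helper36.MFD
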