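import Mathlib
import Pool.Agent.helper36.MFD.Jc

/-! A generator of a closed set, by inclusion and exclusion modulo a prime. -/

set_option autoImplicit false

namespace Pool.Agent.helper36.MFD

open Finset

/-- P: a generator.  `I` closed under intersections, `Z ⊆ Y` closed, all closed sets between `Z` and
`Y`, except `Y`, have size divisible by `p`, and `Y` has not. -/
theorem exists_gen {k : ℕ} (I : Finset (Finset (Fin k))) (hI : ∀ A ∈ I, ∀ B ∈ I, A ∩ B ∈ I)
    (Z Y : Finset (Fin k)) (_ : JC I Z) (hY : JC I Y) (hZY : Z ⊆ Y) (p : ℕ) (hp : ¬ p ∣ Y.card)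
    (h : ∀ A, JC I A → Z ⊆ A → A ⊆ Y → A ≠ Y → p ∣ A.card) :
    ∃ v ∈ Y, jcl I (insert v Z) = Y := by
  classical
  by_contra hcon
  push Not at hcon
  apply hp
  set S : Fin k → Finset (Fin k) := fun v => jcl I (insert v Z) with hS
  have hsub : ∀ v ∈ Y, S v ⊆ Y := fun v hv => jcl_min hY (insert_subset hv hZY)
  have hun : Y.biUnion S = Y := by
    apply Subset.antisymm
    · intro i hi
      rw [mem_biUnion] at hi
      obtain ⟨v, hv, hi⟩ := hi
      exact hsub v hv hi
    · intro i hi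
      rw [mem_biUnion]
      exact ⟨i, hi, subset_jcl _ (mem_insert_self i Z)⟩
  have hie := Finset.inclusion_exclusion_card_biUnion Y S
  rw [hun] at hie
  have : (p : ℤ) ∣ (Y.card : ℤ) := by
    rw [hie]
    refine Finset.dvd_sum fun t _ => Dvd.dvd.mul_left ?_ _
    obtain ⟨t, ht⟩ := t
    rw [mem_filter, mem_powerset] at ht
    obtain ⟨htY, htne⟩ := ht
    have hJ : ∀ t : Finset (Fin k), (htne : t.Nonempty) → t ⊆ Y →
        JC I (t.inf' htne S) ∧ Z ⊆ t.inf' htne S ∧ t.inf' htne S ⊆ Y ∧ t.inf' htne S ≠ Y := by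
      intro t htne htY
      have h1 : JC I (t.inf' htne S) :=
        Finset.inf'_induction htne S (fun A hA B hB => JC.inter hI hA hB)
          (fun v _ => JC_jcl hI _)
      have h2 : Z ⊆ t.inf' htne S :=
        Finset.le_inf' htne S fun v _ => (subset_insert v Z).trans (subset_jcl _)
      obtain ⟨v, hv⟩ := htne
      have h3 : t.inf' ⟨v, hv⟩ S ⊆ S v := Finset.inf'_le S hv
      refine ⟨h1, h2, h3.trans (hsub v (htY hv)), fun heq => hcon v (htY hv) ?_⟩
      exact Subset.antisymm (hsub v (htY hv)) (heq ▸ h3)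
    obtain ⟨h1, h2, h3, h4⟩ := hJ t htne htY
    exact_mod_cast h _ h1 h2 h3 h4
  exact_mod_cast this

end Pool.Agent.helper36.MFD
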