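import Mathlib
import Pool.Agent.helper36.MFD.Defs2
import Pool.Agent.helper36.MFD.Gen

/-!
Domination lemma for `MP_141f81_co`, module AD: the columns and all functional dependencies.
-/

set_option autoImplicit false

namespace Pool.Agent.helper36.MFD

open Finset

section AD

variable {t k : ℕ} {M : RankSys (Fin t)} {h : ℕ} {w p : Fin t → ℕ}
  {I : Finset (Finset (Fin k))}

theorem AD_sub {A : Finset (Fin k)} {i : Fin k} (hi : i ∈ A) : i ∈ jcl I A := by
  unfold jcl
  rw [Finset.mem_filter]
  exact ⟨Finset.mem_univ i, fun B _ hAB => hAB hi⟩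

/-- every closed set has the size of a flat -/
theorem AD_dig (hs : Setup M h w p I) (A : Finset (Fin k)) (hA : JC I A) :
    ∃ D, M.IsFlat D ∧ A.card = wt w D := by
  rcases hA with hA | rfl
  · obtain ⟨D, h1, -, h2⟩ := hs.card A hA
    exact ⟨D, h1, h2⟩
  · refine ⟨Finset.univ, M.isFlat_univ, ?_⟩
    rw [Finset.card_univ, Fintype.card_fin, hs.hk]

theorem AD_t (hs : Setup M h w p I) : 1 ≤ t := hs.hh.trans hs.ht

theorem AD_p (hs : Setup M h w p I) (j : Fin t) : 5 < p j := by
  have h1 := hs.wei.big j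
  have h2 : 5 ^ 1 ≤ 5 ^ t := Nat.pow_le_pow_right (by norm_num) (AD_t hs)
  omega

/-- a set of full weight of a flat with all digits is everything -/
theorem AD_univ (hs : Setup M h w p I) {A : Finset (Fin k)} (hA : A.card = wt w Finset.univ) :
    A = Finset.univ := by
  apply Finset.eq_univ_of_card
  rw [hA, Fintype.card_fin, hs.hk]

theorem AD_w_inj (hs : Setup M h w p I) {i j : Fin t} (hij : w i = w j) : i = j := by
  have h1 : wt w {i} = wt w {j} := by simpa [wt] using hij
  have := wt_inj hs.wei h1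
  simpa using this

/-- two disjoint descriptions of one weight: digits add up -/
theorem AD_digits (hs : Setup M h w p I) {D G Q : Finset (Fin t)}
    (h1 : wt w D = wt w G + wt w Q) (j : Fin t) :
    (j ∈ D ↔ (j ∈ G ∨ j ∈ Q)) ∧ ¬ (j ∈ G ∧ j ∈ Q) := by
  have a1 := wt_mod hs.wei D j
  have a2 := (wt_mod hs.wei G j).add (wt_mod hs.wei Q j)
  rw [h1] at a1
  have a3 := a1.symm.trans a2
  have hp := AD_p hs j
  unfold Nat.ModEq at a3
  by_cases hD : j ∈ D <;> by_cases hG : j ∈ G <;> by_cases hQ : j ∈ Q <;>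
    simp only [hD, hG, hQ, if_true, if_false] at a3 ⊢ <;>
    first
      | tauto
      | (exfalso
         rw [Nat.mod_eq_of_lt (by omega), Nat.mod_eq_of_lt (by omega)] at a3
         omega)

/-- a third point of a line through `e ∉ H` and `s ∈ H`, outside `H` -/
theorem AD_third (hs : Setup M h w p I) {e s : Fin t} (he : e ∉ Dge t h) (hsH : s ∈ Dge t h) :
    ∃ f, f ∉ Dge t h ∧ f ≠ e ∧ f ∈ M.cl {e, s} ∧ s ∈ M.cl {e, f} := by
  have hes : e ≠ s := fun hh => he (hh ▸ hsH)
  have h1 : e ∉ M.cl (∅ : Finset (Fin t)) := by rw [M.cl_empty]; simp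
  have h2 : s ∉ M.cl (insert e (∅ : Finset (Fin t))) := by
    rw [insert_empty_eq, hs.simple e]
    simpa using fun hh => hes hh.symm
  obtain ⟨f, hf, hf1, hf2⟩ := hs.third ∅ e s h1 h2
  rw [insert_empty_eq] at hf hf1 hf2
  have hfe : f ≠ e := by
    intro hh
    apply hf1
    rw [hs.simple e]
    simpa using hh
  refine ⟨f, ?_, hfe, hf, ?_⟩
  · intro hfH
    apply he
    have h3 : e ∈ M.cl (insert f {s}) := M.exchange (A := {s}) (x := e) (y := f) hf hf2
    refine M.cl_min hs.H1 ?_ h3
    intro x hx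
    simp only [Finset.mem_insert, Finset.mem_singleton] at hx
    rcases hx with rfl | rfl
    · exact hfH
    · exact hsH
  · have h4 : f ∈ M.cl (insert s {e}) := by
      have : (insert s {e} : Finset (Fin t)) = {e, s} := Finset.pair_comm s e
      rw [this]; exact hf
    have h5 := M.exchange (A := {e}) (x := s) (y := f) h4 hf1
    have : (insert f {e} : Finset (Fin t)) = {e, f} := Finset.pair_comm f e
    rwa [this] at h5

theorem AD_pair_sub {D : Finset (Fin t)} (hD : M.IsFlat D) {e f : Fin t} (he : e ∈ D)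
    (hf : f ∈ D) : M.cl {e, f} ⊆ D := by
  refine M.cl_min hD ?_
  intro x hx
  simp only [Finset.mem_insert, Finset.mem_singleton] at hx
  rcases hx with rfl | rfl
  · exact he
  · exact hf

/-- DOM (a)-(d). -/
theorem exists_columns' (hs : Setup M h w p I) (hg : Good (M.rk Finset.univ) I)
    {Y : Finset (Fin k)} {Z : Fin t → Finset (Fin k)} (hb : Blocks M h w I Y Z) :
    ∃ c : Fin t → Fin k, jcl I (Finset.univ.image c) = Finset.univ ∧
      ∀ (S : Finset (Fin t)) (s : Fin t), s ∈ M.cl S → c s ∈ jcl I (S.image c) := by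
  classical
  have hI := hs.inter
  set H : Finset (Fin t) := Dge t h with hH
  obtain ⟨S0, hS0, hS0c⟩ := hb.gen
  -- digits
  have hd : ∀ A : Finset (Fin k), ∃ D, JC I A → (M.IsFlat D ∧ A.card = wt w D) := by
    intro A
    by_cases hA : JC I A
    · obtain ⟨D, h1, h2⟩ := AD_dig hs A hA
      exact ⟨D, fun _ => ⟨h1, h2⟩⟩
    · exact ⟨∅, fun hh => absurd hh hA⟩
  choose dig hdig using hd
  -- a point outside H
  have ht := AD_t hs
  have he0 : (⟨0, ht⟩ : Fin t) ∉ H := by
    rw [hH, mem_Dge]
    have := hs.hh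
    simp only [not_le]
    exact this
  -- generators of the blocks outside H
  have hZne : ∀ s, s ∉ H → ∃ v, v ∈ Z s := by
    intro s hsH
    have h1 := hb.zcard s hsH
    have h2 := hs.wei.pos s
    exact Finset.card_pos.1 (by omega)
  have hcex : ∀ s, ∃ v, s ∉ H → v ∈ Z s := by
    intro s
    by_cases hsH : s ∉ H
    · obtain ⟨v, hv⟩ := hZne s hsH
      exact ⟨v, fun _ => hv⟩
    · obtain ⟨v, -⟩ := hZne _ he0
      exact ⟨v, fun hh => absurd hh hsH⟩
  choose c0 hc0 using hcex
  have hc0cl : ∀ s, s ∉ H → jcl I {c0 s} = Z s := fun s hsH => hb.zcl s hsH _ (hc0 s hsH)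
  have hc0Y : ∀ s, s ∉ H → c0 s ∉ Y := fun s hsH => hb.zdisj s hsH _ (hc0 s hsH)
  have hZsub : ∀ s, s ∉ H → ∀ W, JC I W → (c0 s ∈ W ↔ Z s ⊆ W) := by
    intro s hsH W hW
    constructor
    · intro hv
      rw [← hc0cl s hsH]
      exact jcl_min hW (by simpa using hv)
    · intro hv
      exact hv (hc0 s hsH)
  -- (*) digits of a closed set
  have hstar : ∀ W, JC I W → ∀ j, (j ∈ dig W ↔ (j ∈ dig (W ∩ Y) ∨ (j ∉ H ∧ c0 j ∈ W))) ∧
      ¬ (j ∈ dig (W ∩ Y) ∧ (j ∉ H ∧ c0 j ∈ W)) := by
    intro W hW j
    have hWY : JC I (W ∩ Y) := JC.inter hI hW hb.closed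
    set Q : Finset (Fin t) := Finset.univ.filter (fun s => s ∉ H ∧ c0 s ∈ W) with hQ
    have h1 : W \ Y = Q.biUnion Z := by
      ext v
      simp only [Finset.mem_sdiff, Finset.mem_biUnion, hQ, Finset.mem_filter, Finset.mem_univ,
        true_and]
      constructor
      · rintro ⟨hvW, hvY⟩
        obtain ⟨s, hsH, hvs⟩ := hb.zcov v hvY
        refine ⟨s, ⟨hsH, ?_⟩, hvs⟩
        rw [hZsub s hsH W hW, ← hb.zcl s hsH v hvs]
        exact jcl_min hW (by simpa using hvW)
      · rintro ⟨s, ⟨hsH, hsW⟩, hvs⟩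
        exact ⟨(hZsub s hsH W hW).1 hsW hvs, hb.zdisj s hsH v hvs⟩
    have h2 : (W \ Y).card = wt w Q := by
      rw [h1, Finset.card_biUnion]
      · unfold wt
        refine Finset.sum_congr rfl fun s hsQ => ?_
        rw [hQ, Finset.mem_filter] at hsQ
        exact hb.zcard s hsQ.2.1
      · intro s hsQ s' hsQ' hne
        rw [hQ, Finset.mem_coe, Finset.mem_filter] at hsQ hsQ'
        rw [Function.onFun, Finset.disjoint_left]
        intro v hv hv'
        apply hne
        have h3 : Z s = Z s' := by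
          rw [← hb.zcl s hsQ.2.1 v hv, ← hb.zcl s' hsQ'.2.1 v hv']
        apply AD_w_inj hs
        rw [← hb.zcard s hsQ.2.1, ← hb.zcard s' hsQ'.2.1, h3]
    have h3 : wt w (dig W) = wt w (dig (W ∩ Y)) + wt w Q := by
      rw [← (hdig W hW).2, ← (hdig _ hWY).2, ← h2]
      have := Finset.card_sdiff_add_card_inter W Y
      omega
    have h4 := AD_digits hs h3 j
    have h5 : j ∈ Q ↔ (j ∉ H ∧ c0 j ∈ W) := by simp [hQ]
    rw [h5] at h4
    exact h4
  -- (**)
  have hss : ∀ A, JC I A → A ⊆ Y → ∀ v, v ∉ Y → jcl I (insert v A) ∩ Y = A := by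
    intro A hA hAY v hv
    exact hg.n2 Y A S0 v hb.closed hA hAY (hb.top v hv) hS0 hS0c
  -- digits of closed subsets of Y lie in H
  have hdY : ∀ A, JC I A → A ⊆ Y → ∀ i, i ∈ dig A → i ∈ H := by
    intro A hA hAY i hi
    by_contra hiH
    have hW : JC I (jcl I (insert (c0 i) A)) := JC_jcl hI _
    have h1 := hss A hA hAY (c0 i) (hc0Y i hiH)
    have h2 := (hstar _ hW i).2
    apply h2
    rw [h1]
    exact ⟨hi, hiH, AD_sub (Finset.mem_insert_self _ _)⟩
  -- K: the digits of a closed set
  have hKout : ∀ W, JC I W → ∀ s, s ∉ H → (s ∈ dig W ↔ c0 s ∈ W) := by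
    intro W hW s hsH
    rw [(hstar W hW s).1]
    constructor
    · rintro (h1 | h1)
      · exact absurd (hdY _ (JC.inter hI hW hb.closed) Finset.inter_subset_right s h1) hsH
      · exact h1.2
    · intro h1
      exact Or.inr ⟨hsH, h1⟩
  have hKin : ∀ W, JC I W → ∀ s, s ∈ H → (s ∈ dig W ↔ s ∈ dig (W ∩ Y)) := by
    intro W hW s hsH
    rw [(hstar W hW s).1]
    constructor
    · rintro (h1 | h1)
      · exact h1
      · exact absurd hsH h1.1
    · exact Or.inl
  -- if all digits are there, the set is everything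
  have hall : ∀ W, JC I W → (∀ s, s ∈ dig W) → W = Finset.univ := by
    intro W hW h1
    apply AD_univ hs
    rw [(hdig W hW).2, Finset.eq_univ_iff_forall.2 h1]
  -- (a)
  have ha : ∀ e f, e ∉ H → f ∉ H → e ≠ f → dig (jcl I {c0 e, c0 f}) = M.cl {e, f} := by
    intro e f heH hfH hef
    set W := jcl I {c0 e, c0 f} with hW
    have hWc : JC I W := JC_jcl hI _
    have heW : e ∈ dig W := (hKout W hWc e heH).2 (AD_sub (by simp))
    have hfW : f ∈ dig W := (hKout W hWc f hfH).2 (AD_sub (by simp))
    have hsub : M.cl {e, f} ⊆ dig W := AD_pair_sub (hdig W hWc).1 heW hfW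
    -- outside H
    have hout : ∀ s, s ∉ H → s ∈ dig W → s ∈ M.cl {e, f} := by
      intro s hsH hsW
      by_contra hcon
      have hrk1 : M.rk {f} = 1 := M.rk_single f
      have hrk2 : M.rk {e, f} = 2 := by
        have : e ∉ M.cl {f} := by rw [hs.simple f]; simpa using hef
        have := M.rk_insert_of_notMem this
        omega
      have hrk3 : M.rk {s, e, f} = 3 := by
        have := M.rk_insert_of_notMem hcon
        omega
      have hse : s ≠ e := fun hh => hcon (hh ▸ M.subset_cl _ (by simp))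
      have hsf : s ≠ f := fun hh => hcon (hh ▸ M.subset_cl _ (by simp))
      have hcard3 : ({s, e, f} : Finset (Fin t)).card = 3 := by
        rw [Finset.card_insert_of_notMem (by simp [hse, hsf]), Finset.card_insert_of_notMem (by simpa using hef),
          Finset.card_singleton]
      have hsubc : ({s, e, f} : Finset (Fin t)) ⊆ Hᶜ := by
        intro x hx
        simp only [Finset.mem_insert, Finset.mem_singleton] at hx
        rw [Finset.mem_compl]
        rcases hx with rfl | rfl | rfl
        · exact hsH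
        · exact heH
        · exact hfH
      obtain ⟨B, hB1, hB2, hB3, hB4⟩ := M.exists_extend {s, e, f} Hᶜ hsubc
        (by rw [hrk3, hcard3]) hs.span
      -- the columns of B without s generate everything
      have hgen : jcl I ((B.erase s).image c0) = Finset.univ := by
        set W' := jcl I ((B.erase s).image c0) with hW'
        have hW'c : JC I W' := JC_jcl hI _
        have hmem : ∀ x ∈ B, c0 x ∈ W' := by
          intro x hx
          by_cases hxs : x = s
          · subst hxs
            have h1 : W ⊆ W' := by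
              rw [hW]
              apply jcl_min hW'c
              intro y hy
              simp only [Finset.mem_insert, Finset.mem_singleton] at hy
              apply AD_sub
              rw [Finset.mem_image]
              rcases hy with rfl | rfl
              · exact ⟨e, Finset.mem_erase.2 ⟨hse.symm, hB1 (by simp)⟩, rfl⟩
              · exact ⟨f, Finset.mem_erase.2 ⟨hsf.symm, hB1 (by simp)⟩, rfl⟩
            exact h1 ((hKout W hWc x hsH).1 hsW)
          · exact AD_sub (Finset.mem_image_of_mem _ (Finset.mem_erase.2 ⟨hxs, hx⟩))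
        apply hall W' hW'c
        intro x
        have hBd : B ⊆ dig W' := by
          intro y hy
          have hyH : y ∉ H := by
            have := hB2 hy
            rwa [Finset.mem_compl] at this
          exact (hKout W' hW'c y hyH).2 (hmem y hy)
        have := M.cl_min (hdig W' hW'c).1 hBd
        rw [hB4] at this
        exact this (Finset.mem_univ x)
      have h1 := hg.n1 _ hgen
      have h2 := Finset.card_image_le (s := B.erase s) (f := c0)
      have h3 := Finset.card_erase_of_mem (hB1 (by simp : s ∈ ({s, e, f} : Finset (Fin t))))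
      have h4 : 1 ≤ B.card := Finset.card_pos.2 ⟨s, hB1 (by simp)⟩
      omega
    apply Finset.Subset.antisymm _ hsub
    intro g hg'
    by_cases hgH : g ∈ H
    · obtain ⟨u, huH, hue, hu1, hu2⟩ := AD_third hs heH hgH
      have huW : u ∈ dig W := AD_pair_sub (hdig W hWc).1 heW hg' hu1
      have hul := hout u huH huW
      have hel : e ∈ M.cl {e, f} := M.subset_cl _ (by simp)
      exact AD_pair_sub (M.isFlat_cl _) hel hul hu2
    · exact hout g hgH hg'
  -- a line through a point of H and one outside meets H in one point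
  have hmeet : ∀ e s, e ∉ H → s ∈ H → ∀ x, x ∈ M.cl {e, s} → x ∈ H → x = s := by
    intro e s heH hsH x hx hxH
    by_contra hne
    apply heH
    have h1 : x ∉ M.cl {s} := by rw [hs.simple s]; simpa using hne
    have h2 : e ∈ M.cl (insert x {s}) := M.exchange (A := {s}) (x := e) (y := x) hx h1
    refine M.cl_min hs.H1 ?_ h2
    intro y hy
    simp only [Finset.mem_insert, Finset.mem_singleton] at hy
    rcases hy with rfl | rfl
    · exact hxH
    · exact hsH
  -- (b) the closed set of a point of H, relative to a point outside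
  have hb1 : ∀ e s, e ∉ H → s ∈ H → ∃ f, f ∉ H ∧ f ≠ e ∧ f ∈ M.cl {e, s} ∧ s ∈ M.cl {e, f} ∧
      dig (jcl I {c0 e, c0 f} ∩ Y) = {s} ∧ (jcl I {c0 e, c0 f} ∩ Y).card = w s := by
    intro e s heH hsH
    obtain ⟨f, hfH, hfe, hf1, hf2⟩ := AD_third hs heH hsH
    have hWc : JC I (jcl I {c0 e, c0 f}) := JC_jcl hI _
    have hAc : JC I (jcl I {c0 e, c0 f} ∩ Y) := JC.inter hI hWc hb.closed
    have hdW := ha e f heH hfH hfe.symm
    have hdA : dig (jcl I {c0 e, c0 f} ∩ Y) = {s} := by
      ext x
      rw [Finset.mem_singleton]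
      constructor
      · intro hx
        have hxH := hdY _ hAc Finset.inter_subset_right x hx
        have hxW := (hKin _ hWc x hxH).2 hx
        rw [hdW] at hxW
        apply hmeet e s heH hsH x _ hxH
        exact AD_pair_sub (M.isFlat_cl _) (M.subset_cl _ (by simp)) hf1 hxW
      · rintro rfl
        rw [← hKin _ hWc x hsH, hdW]
        exact hf2
    refine ⟨f, hfH, hfe, hf1, hf2, hdA, ?_⟩
    rw [(hdig _ hAc).2, hdA]
    simp [wt]
  -- generators for the points of H
  have hb2 : ∀ s, ∃ v, s ∈ H → (v ∈ Y ∧ dig (jcl I {v}) = {s} ∧ (jcl I {v}).card = w s ∧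
      jcl I {v} ⊆ Y) := by
    intro s
    by_cases hsH : s ∈ H
    · obtain ⟨f, hfH, hfe, hf1, hf2, hdA, hcA⟩ := hb1 _ s he0 hsH
      set A := jcl I {c0 ⟨0, ht⟩, c0 f} ∩ Y with hA
      have hAc : JC I A := JC.inter hI (JC_jcl hI _) hb.closed
      have hps : ¬ p s ∣ A.card := by
        rw [hcA]
        intro hdvd
        have h1 := hs.wei.mod s s
        rw [if_pos rfl, Nat.mod_eq_zero_of_dvd hdvd] at h1
        exact absurd h1 (by norm_num)
      obtain ⟨v, hvA, hv⟩ := exists_gen I hI (jcl I ∅) A (JC_jcl hI _) hAc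
        (jcl_min hAc (Finset.empty_subset _)) (p s) hps (by
          intro C hC _ hCA hne
          have hlt : C.card < A.card := Finset.card_lt_card (Finset.ssubset_iff_subset_ne.2 ⟨hCA, hne⟩)
          have h1 := wt_mod hs.wei (dig C) s
          have h2 : s ∉ dig C := by
            intro hsC
            have h3 : wt w {s} ≤ wt w (dig C) := by
              unfold wt
              exact Finset.sum_le_sum_of_subset (by simpa using hsC)
            rw [← (hdig C hC).2] at h3
            have h4 : wt w {s} = w s := by simp [wt]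
            omega
          rw [if_neg h2, ← (hdig C hC).2] at h1
          exact (Nat.modEq_zero_iff_dvd).1 h1)
      rw [jcl_insert_jcl hI, insert_empty_eq] at hv
      refine ⟨v, fun _ => ⟨?_, ?_, ?_, ?_⟩⟩
      · exact (Finset.mem_inter.1 (hA ▸ hvA)).2
      · rw [hv]; exact hdA
      · rw [hv]; exact hcA
      · rw [hv]; exact Finset.inter_subset_right
    · obtain ⟨v, -⟩ := hZne _ he0
      exact ⟨v, fun hh => absurd hh hsH⟩
  choose c1 hc1 using hb2
  -- (b') independence of the point outside, and the digits of the closure with a point outside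
  have hb3 : ∀ s e, s ∈ H → e ∉ H → ∀ f, f ∉ H → f ∈ M.cl {e, s} →
      c0 f ∈ jcl I (insert (c0 e) (jcl I {c1 s})) := by
    intro s e hsH heH f hfH hf
    obtain ⟨h1, h2, h3, h4⟩ := hc1 s hsH
    set C := jcl I (insert (c0 e) (jcl I {c1 s})) with hC
    have hCc : JC I C := JC_jcl hI _
    have hCY : C ∩ Y = jcl I {c1 s} := hss _ (JC_jcl hI _) h4 (c0 e) (hc0Y e heH)
    have hsC : s ∈ dig C := by
      rw [hKin C hCc s hsH, hCY, h2]
      simp
    have heC : e ∈ dig C := (hKout C hCc e heH).2 (AD_sub (Finset.mem_insert_self _ _))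
    exact (hKout C hCc f hfH).1 (AD_pair_sub (hdig C hCc).1 heC hsC hf)
  have hb4 : ∀ s e, s ∈ H → e ∉ H → ∃ f, f ∉ H ∧ f ∈ M.cl {e, s} ∧ s ∈ M.cl {e, f} ∧
      jcl I {c0 e, c0 f} ∩ Y = jcl I {c1 s} := by
    intro s e hsH heH
    obtain ⟨f, hfH, hfe, hf1, hf2, hdA, hcA⟩ := hb1 e s heH hsH
    refine ⟨f, hfH, hf1, hf2, ?_⟩
    obtain ⟨h1, h2, h3, h4⟩ := hc1 s hsH
    apply Finset.eq_of_subset_of_card_le
    · have hCY : jcl I (insert (c0 e) (jcl I {c1 s})) ∩ Y = jcl I {c1 s} :=
        hss _ (JC_jcl hI _) h4 (c0 e) (hc0Y e heH)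
      rw [← hCY]
      apply Finset.inter_subset_inter_right
      apply jcl_min (JC_jcl hI _)
      intro x hx
      simp only [Finset.mem_insert, Finset.mem_singleton] at hx
      rcases hx with rfl | rfl
      · exact AD_sub (Finset.mem_insert_self _ _)
      · exact hb3 s e hsH heH f hfH hf1
    · rw [h3, hcA]
  -- the columns
  refine ⟨fun s => if s ∈ H then c1 s else c0 s, ?_, ?_⟩
  · -- everything is generated
    obtain ⟨B, -, hB2, -, hB4⟩ := M.exists_extend ∅ Hᶜ (Finset.empty_subset _)
      (by rw [M.rk_empty, Finset.card_empty]) hs.span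
    set W := jcl I (Finset.univ.image (fun s => if s ∈ H then c1 s else c0 s)) with hW
    have hWc : JC I W := JC_jcl hI _
    apply hall W hWc
    intro x
    have hBd : B ⊆ dig W := by
      intro y hy
      have hyH : y ∉ H := by
        have := hB2 hy
        rwa [Finset.mem_compl] at this
      refine (hKout W hWc y hyH).2 (AD_sub ?_)
      rw [Finset.mem_image]
      exact ⟨y, Finset.mem_univ _, by simp [hyH]⟩
    have := M.cl_min (hdig W hWc).1 hBd
    rw [hB4] at this
    exact this (Finset.mem_univ x)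
  · intro S s hsS
    set W := jcl I (S.image (fun s => if s ∈ H then c1 s else c0 s)) with hW
    have hWc : JC I W := JC_jcl hI _
    have hcol : ∀ i ∈ S, (if i ∈ H then c1 i else c0 i) ∈ W := by
      intro i hi
      exact AD_sub (Finset.mem_image_of_mem (fun s => if s ∈ H then c1 s else c0 s) hi)
    have hAc : JC I (W ∩ Y) := JC.inter hI hWc hb.closed
    set C := jcl I (insert (c0 ⟨0, ht⟩) (W ∩ Y)) with hC
    have hCc : JC I C := JC_jcl hI _
    have hCY : C ∩ Y = W ∩ Y := hss _ hAc Finset.inter_subset_right _ (hc0Y _ he0)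
    have heC : (⟨0, ht⟩ : Fin t) ∈ dig C :=
      (hKout C hCc _ he0).2 (AD_sub (Finset.mem_insert_self _ _))
    have hSd : S ⊆ dig W := by
      intro i hi
      have h1 := hcol i hi
      by_cases hiH : i ∈ H
      · rw [if_pos hiH] at h1
        obtain ⟨h2, h3, h4, h5⟩ := hc1 i hiH
        -- i is a digit of C
        have hAi : jcl I {c1 i} ⊆ W ∩ Y :=
          jcl_min hAc (by simpa using ⟨h1, h2⟩)
        obtain ⟨f, hfH, hf1, hf2, -⟩ := hb4 i ⟨0, ht⟩ hiH he0
        have h6 := hb3 i ⟨0, ht⟩ hiH he0 f hfH hf1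
        have h7 : c0 f ∈ C := by
          refine jcl_mono ?_ h6
          exact Finset.insert_subset_insert _ hAi
        have h8 : f ∈ dig C := (hKout C hCc f hfH).2 h7
        have h9 : i ∈ dig C := AD_pair_sub (hdig C hCc).1 heC h8 hf2
        rw [hKin C hCc i hiH, hCY, ← hKin W hWc i hiH] at h9
        exact h9
      · rw [if_neg hiH] at h1
        exact (hKout W hWc i hiH).2 h1
    have hsW : s ∈ dig W := M.cl_min (hdig W hWc).1 hSd hsS
    by_cases hsH : s ∈ H
    · simp only [if_pos hsH]
      obtain ⟨f, hfH, hf1, hf2, hAf⟩ := hb4 s ⟨0, ht⟩ hsH he0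
      have h1 : s ∈ dig C := by
        rw [hKin C hCc s hsH, hCY, ← hKin W hWc s hsH]
        exact hsW
      have h2 : f ∈ dig C := AD_pair_sub (hdig C hCc).1 heC h1 hf1
      have h3 : c0 f ∈ C := (hKout C hCc f hfH).1 h2
      have h4 : jcl I {c0 ⟨0, ht⟩, c0 f} ⊆ C := by
        apply jcl_min hCc
        intro x hx
        simp only [Finset.mem_insert, Finset.mem_singleton] at hx
        rcases hx with rfl | rfl
        · exact AD_sub (Finset.mem_insert_self _ _)
        · exact h3
      have h5 : jcl I {c1 s} ⊆ W ∩ Y := by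
        rw [← hAf, ← hCY]
        exact Finset.inter_subset_inter_right h4
      exact (Finset.mem_inter.1 (h5 (AD_sub (by simp)))).1
    · simp only [if_neg hsH]
      exact (hKout W hWc s hsH).1 hsW

end AD

end Pool.Agent.helper36.MFD
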