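import Mathlib
import Pool.Agent.helper36.MFD.Defs

/-!
The digit identity for the domination lemma (`MP_141f81_co`).
-/

set_option autoImplicit false

namespace Pool.Agent.helper36.MFD

open Finset

namespace DgAux

variable {t : ℕ} {w p : Fin t → ℕ}

/-- Sum of the weights below `e`. -/
def S (w : Fin t → ℕ) (e : ℕ) : ℤ := ∑ j ∈ univ.filter (fun j : Fin t => (j : ℕ) < e), (w j : ℤ)

/-- Partial value. -/
def V (w : Fin t → ℕ) (c : Fin t → ℤ) (e : ℕ) : ℤ :=
  ∑ j ∈ univ.filter (fun j : Fin t => (j : ℕ) < e), c j * (w j : ℤ)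

theorem V_full (c : Fin t → ℤ) : V w c t = ∑ j, c j * (w j : ℤ) := by
  unfold V
  rw [Finset.filter_true_of_mem (fun j _ => j.2)]

theorem filter_succ (e : Fin t) : univ.filter (fun j : Fin t => (j : ℕ) < (e : ℕ) + 1) =
    insert e (univ.filter (fun j : Fin t => (j : ℕ) < (e : ℕ))) := by
  ext j
  simp only [mem_filter, mem_univ, true_and, mem_insert]
  constructor
  · intro h
    rcases Nat.lt_or_ge (j : ℕ) (e : ℕ) with h1 | h1
    · exact Or.inr h1
    · left
      apply Fin.ext
      omega
  · rintro (h | h)
    · subst h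
      omega
    · omega

theorem V_succ (c : Fin t → ℤ) (e : Fin t) : V w c ((e : ℕ) + 1) = c e * w e + V w c e := by
  unfold V
  rw [filter_succ, Finset.sum_insert (by simp)]

theorem S_succ (e : Fin t) : S w ((e : ℕ) + 1) = w e + S w e := by
  unfold S
  rw [filter_succ, Finset.sum_insert (by simp)]

theorem S_nonneg (e : ℕ) : 0 ≤ S w e := Finset.sum_nonneg (fun _ _ => by positivity)

theorem V_abs (c : Fin t → ℤ) (hc : ∀ j, |c j| ≤ 1) (e : ℕ) : |V w c e| ≤ S w e := by
  unfold V S
  refine (Finset.abs_sum_le_sum_abs _ _).trans ?_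
  apply Finset.sum_le_sum
  intro j _
  rw [abs_mul, abs_of_nonneg (show (0 : ℤ) ≤ (w j : ℤ) by positivity)]
  have := hc j
  nlinarith [show (0 : ℤ) ≤ (w j : ℤ) by positivity]

theorem S_lt {P : ℕ} (hw : IsWeight P w p) (e : Fin t) : 2 * S w e < w e := by
  have h := hw.sup e
  have h1 : (S w (e : ℕ)) = ((∑ i ∈ Finset.univ.filter (· < e), w i : ℕ) : ℤ) := by
    unfold S
    push_cast
    rfl
  rw [h1]
  exact_mod_cast h

end DgAux

open DgAux

/-- W2: the digit identity.  `g D` are digit vectors with values in `{-1, 0, 1}` and positive value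
`∑ g D j * w j`; if the values add up to the value of a `0/1` vector `x`, then the digits add up to
`x`. -/
theorem digit_identity {t : ℕ} {w p : Fin t → ℕ} (hw : IsWeight (5 ^ t) w p) {ι : Type} [Fintype ι]
    (g : ι → Fin t → ℤ) (hg : ∀ D j, g D j = -1 ∨ g D j = 0 ∨ g D j = 1)
    (hpos : ∀ D, 0 < ∑ j, g D j * w j) (x : Fin t → ℤ) (hx : ∀ j, x j = 0 ∨ x j = 1)
    (hsum : ∑ D, ∑ j, g D j * w j = ∑ j, x j * w j) :
    ∀ j, ∑ D, g D j = x j := by
  classical
  have hgabs : ∀ D j, |g D j| ≤ 1 := by
    intro D j
    rcases hg D j with h | h | h <;> simp [h]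
  have hxabs : ∀ j, |x j| ≤ 1 := by
    intro j
    rcases hx j with h | h <;> simp [h]
  -- number of `D` with a nonzero digit at a place `≥ e`
  set N : ℕ → ℕ := fun e => (univ.filter (fun D : ι => ∃ j : Fin t, e ≤ (j : ℕ) ∧ g D j ≠ 0)).card
    with hN
  have hNt : N t = 0 := by
    rw [hN]
    show (univ.filter (fun D : ι => ∃ j : Fin t, t ≤ (j : ℕ) ∧ g D j ≠ 0)).card = 0
    rw [Finset.card_eq_zero]
    apply Finset.filter_false_of_mem
    rintro D _ ⟨j, hj, _⟩
    exact absurd j.2 (by omega)
  -- the congruence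
  have hcong : ∀ e : Fin t, ((∑ D, g D e - x e : ℤ)) ≡ 0 [ZMOD (p e : ℤ)] := by
    intro e
    have key : ∀ c : Fin t → ℤ, (∑ j, c j * (w j : ℤ)) ≡ c e [ZMOD (p e : ℤ)] := by
      intro c
      have h1 : (∑ j, c j * (w j : ℤ)) - c e = ∑ j, c j * ((w j : ℤ) - if j = e then 1 else 0) := by
        simp only [mul_sub, Finset.sum_sub_distrib]
        simp
      rw [Int.modEq_iff_dvd]
      rw [← neg_sub, dvd_neg, h1]
      apply Finset.dvd_sum
      intro j _
      apply Dvd.dvd.mul_left
      have h2 := hw.mod j e
      have h3 : (w j : ℤ) % (p e : ℤ) = if j = e then 1 else 0 := by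
        have : ((w j % p e : ℕ) : ℤ) = ((if j = e then 1 else 0 : ℕ) : ℤ) := by rw [h2]
        rw [Nat.cast_ite] at this
        push_cast at this
        exact this
      rw [← h3]
      exact Int.dvd_self_sub_emod
    have hl : (∑ D, ∑ j, g D j * (w j : ℤ)) ≡ ∑ D, g D e [ZMOD (p e : ℤ)] := by
      rw [Int.modEq_iff_dvd, ← Finset.sum_sub_distrib]
      apply Finset.dvd_sum
      intro D _
      exact (Int.modEq_iff_dvd).mp (key (g D))
    have hr := key x
    rw [hsum] at hl
    have := hl.symm.trans hr
    rw [Int.modEq_iff_dvd] at this ⊢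
    have h5 : (0 : ℤ) - (∑ D, g D e - x e) = x e - ∑ D, g D e := by ring
    rw [h5]
    exact this
  -- from a bound for `N e` to the identity at `e`
  have hident : ∀ e : Fin t, N e + 1 ≤ 4 ^ (t - (e : ℕ)) → ∑ D, g D e = x e := by
    intro e hNe
    have h1 : |∑ D, g D e| ≤ (N e : ℤ) := by
      have h2 : ∑ D, g D e = ∑ D ∈ univ.filter (fun D : ι => ∃ j : Fin t, (e : ℕ) ≤ (j : ℕ) ∧ g D j ≠ 0), g D e := by
        rw [Finset.sum_filter]
        apply Finset.sum_congr rfl
        intro D _
        split_ifs with h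
        · rfl
        · by_contra h3
          exact h ⟨e, le_refl _, h3⟩
      rw [h2]
      refine (Finset.abs_sum_le_sum_abs _ _).trans ?_
      refine (Finset.sum_le_sum (fun D _ => hgabs D e)).trans ?_
      simp [hN]
    have h3 : |∑ D, g D e - x e| < (p e : ℤ) := by
      have h4 : |∑ D, g D e - x e| ≤ |∑ D, g D e| + |x e| := abs_sub _ _
      have h5 := hxabs e
      have h6 : (4 : ℤ) ^ (t - (e : ℕ)) ≤ (5 : ℤ) ^ t := by
        calc (4 : ℤ) ^ (t - (e : ℕ)) ≤ (4 : ℤ) ^ t := pow_le_pow_right₀ (by norm_num) (by omega)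
          _ ≤ (5 : ℤ) ^ t := pow_le_pow_left₀ (by norm_num) (by norm_num) _
      have h7 : (N e : ℤ) + 1 ≤ (4 : ℤ) ^ (t - (e : ℕ)) := by exact_mod_cast hNe
      have h8 : ((5 ^ t : ℕ) : ℤ) < (p e : ℤ) := by exact_mod_cast hw.big e
      push_cast at h8
      linarith
    have h9 := Int.eq_zero_of_abs_lt_dvd ((Int.modEq_zero_iff_dvd).mp (hcong e)) h3
    linarith
  -- the induction
  have main : ∀ d e : ℕ, e + d = t → (∀ j : Fin t, e ≤ (j : ℕ) → ∑ D, g D j = x j) ∧
      N e + 1 ≤ 4 ^ d := by
    intro d
    induction d with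
    | zero =>
      intro e he
      have he' : e = t := by omega
      subst he'
      refine ⟨fun j hj => absurd j.2 (by omega), ?_⟩
      rw [hNt]
      norm_num
    | succ d ih =>
      intro e he
      obtain ⟨ih1, ih2⟩ := ih (e + 1) (by omega)
      have het : e < t := by omega
      set ee : Fin t := ⟨e, het⟩ with hee
      have hS := S_lt hw ee
      have hSn := S_nonneg (w := w) e
      have hS' : S w (e + 1) = w ee + S w e := S_succ (w := w) ee
      -- partial sums
      have hVsum : ∑ D, V w (g D) (e + 1) = V w x (e + 1) := by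
        have hsplit : ∀ c : Fin t → ℤ, ∑ j, c j * (w j : ℤ) = V w c (e + 1) +
            ∑ j ∈ univ.filter (fun j : Fin t => ¬ (j : ℕ) < e + 1), c j * (w j : ℤ) := by
          intro c
          unfold V
          rw [Finset.sum_filter_add_sum_filter_not]
        have h1 : ∑ D, ∑ j, g D j * (w j : ℤ) = ∑ D, V w (g D) (e + 1) +
            ∑ j ∈ univ.filter (fun j : Fin t => ¬ (j : ℕ) < e + 1), x j * (w j : ℤ) := by
          rw [Finset.sum_congr rfl (fun D _ => hsplit (g D)), Finset.sum_add_distrib]
          congr 1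
          rw [Finset.sum_comm]
          apply Finset.sum_congr rfl
          intro j hj
          rw [← Finset.sum_mul]
          rw [ih1 j (by have := (Finset.mem_filter.mp hj).2; omega)]
        rw [hsum, hsplit x] at h1
        linarith
      have hVx : V w x (e + 1) ≤ w ee + S w e := by
        have := V_abs (w := w) x hxabs (e + 1)
        rw [hS'] at this
        exact (le_abs_self _).trans this
      -- the three classes
      set A := univ.filter (fun D : ι => ∃ j : Fin t, e + 1 ≤ (j : ℕ) ∧ g D j ≠ 0) with hA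
      set B := univ.filter (fun D : ι => (¬ ∃ j : Fin t, e + 1 ≤ (j : ℕ) ∧ g D j ≠ 0) ∧ g D ee ≠ 0)
        with hB
      have hNA : N (e + 1) = A.card := rfl
      have hNe : N e ≤ A.card + B.card := by
        have hsub : univ.filter (fun D : ι => ∃ j : Fin t, e ≤ (j : ℕ) ∧ g D j ≠ 0) ⊆ A ∪ B := by
          intro D hD
          obtain ⟨j, hj1, hj2⟩ := (Finset.mem_filter.mp hD).2
          by_cases hDA : ∃ j : Fin t, e + 1 ≤ (j : ℕ) ∧ g D j ≠ 0
          · exact Finset.mem_union_left _ (Finset.mem_filter.mpr ⟨mem_univ _, hDA⟩)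
          · apply Finset.mem_union_right
            refine Finset.mem_filter.mpr ⟨mem_univ _, hDA, ?_⟩
            have : (j : ℕ) = e := by
              by_contra hne
              exact hDA ⟨j, by omega, hj2⟩
            have hje : j = ee := Fin.ext this
            rw [← hje]
            exact hj2
        exact (Finset.card_le_card hsub).trans (Finset.card_union_le _ _)
      -- lower bounds
      have hfull : ∀ D, (¬ ∃ j : Fin t, e + 1 ≤ (j : ℕ) ∧ g D j ≠ 0) →
          V w (g D) (e + 1) = ∑ j, g D j * (w j : ℤ) := by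
        intro D hD
        unfold V
        rw [Finset.sum_filter]
        apply Finset.sum_congr rfl
        intro j _
        split_ifs with h
        · rfl
        · have : g D j = 0 := by
            by_contra h3
            exact hD ⟨j, by omega, h3⟩
          rw [this]
          ring
      have hlow : ∀ D, (if D ∈ A then -((w ee : ℤ) + S w e) else 0) +
          (if D ∈ B then ((w ee : ℤ) - S w e) else 0) ≤ V w (g D) (e + 1) := by
        intro D
        by_cases hDA : ∃ j : Fin t, e + 1 ≤ (j : ℕ) ∧ g D j ≠ 0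
        · have h1 : D ∈ A := Finset.mem_filter.mpr ⟨mem_univ _, hDA⟩
          have h2 : D ∉ B := fun h => (Finset.mem_filter.mp h).2.1 hDA
          rw [if_pos h1, if_neg h2, add_zero]
          have := V_abs (w := w) (g D) (hgabs D) (e + 1)
          rw [hS'] at this
          exact (abs_le.mp this).1
        · have h1 : D ∉ A := fun h => hDA (Finset.mem_filter.mp h).2
          rw [if_neg h1, zero_add]
          by_cases hDe : g D ee = 0
          · have h2 : D ∉ B := fun h => (Finset.mem_filter.mp h).2.2 hDe
            rw [if_neg h2, hfull D hDA]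
            exact (hpos D).le
          · have h2 : D ∈ B := Finset.mem_filter.mpr ⟨mem_univ _, hDA, hDe⟩
            rw [if_pos h2]
            have h3 : V w (g D) (e + 1) = g D ee * w ee + V w (g D) e := V_succ (w := w) (g D) ee
            have h4 := V_abs (w := w) (g D) (hgabs D) e
            have h5 := abs_le.mp h4
            rcases hg D ee with h | h | h
            · exfalso
              have h6 := hpos D
              rw [← hfull D hDA, h3, h] at h6
              linarith [h5.2]
            · exact absurd h hDe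
            · rw [h3, h]
              linarith [h5.1]
      have hcount : -((w ee : ℤ) + S w e) * A.card + ((w ee : ℤ) - S w e) * B.card ≤
          (w ee : ℤ) + S w e := by
        have h1 : ∑ D, ((if D ∈ A then -((w ee : ℤ) + S w e) else 0) +
          (if D ∈ B then ((w ee : ℤ) - S w e) else 0)) ≤ ∑ D, V w (g D) (e + 1) :=
          Finset.sum_le_sum (fun D _ => hlow D)
        rw [hVsum, Finset.sum_add_distrib] at h1
        simp only [Finset.sum_ite_mem, Finset.univ_inter, Finset.sum_const, nsmul_eq_mul] at h1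
        linarith
      have hB3 : (B.card : ℤ) ≤ 3 + 3 * A.card := by
        by_contra hcon
        push Not at hcon
        have hwpos : (0 : ℤ) < w ee := by linarith
        have hAc : (0 : ℤ) ≤ A.card := by positivity
        have hBc : (0 : ℤ) ≤ B.card := by positivity
        have e1 : ((w ee : ℤ) + S w e) * 2 ≤ 3 * w ee := by linarith
        have e2 : (w ee : ℤ) ≤ 2 * ((w ee : ℤ) - S w e) := by linarith
        have e3 : ((w ee : ℤ) + S w e) * 2 * A.card ≤ 3 * w ee * A.card :=
          mul_le_mul_of_nonneg_right e1 hAc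
        have e4 : (w ee : ℤ) * B.card ≤ 2 * ((w ee : ℤ) - S w e) * B.card :=
          mul_le_mul_of_nonneg_right e2 hBc
        have e5 : (w ee : ℤ) * (3 + 3 * A.card) < (w ee : ℤ) * B.card :=
          mul_lt_mul_of_pos_left hcon hwpos
        nlinarith
      have hN4 : N e + 1 ≤ 4 ^ (d + 1) := by
        have hB3' : B.card ≤ 3 + 3 * A.card := by exact_mod_cast hB3
        rw [hNA] at ih2
        rw [pow_succ]
        omega
      refine ⟨?_, hN4⟩
      intro j hj
      rcases Nat.lt_or_ge e (j : ℕ) with h | h
      · exact ih1 j h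
      · have hje : (j : ℕ) = e := by omega
        apply hident j
        rw [hje]
        have : t - e = d + 1 := by omega
        rw [this]
        exact hN4
  intro j
  exact (main t 0 (by omega)).1 j (Nat.zero_le _)

end Pool.Agent.helper36.MFD
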