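import Mathlib
import Pool.Agent.helper36.MFD.Defs2
import Pool.Agent.helper36.MFD.Dg
import Pool.Agent.helper36.MFD.Gen

set_option autoImplicit false

namespace Pool.Agent.helper36.MFD

open Finset

section Digits

variable {t k : ℕ} {w p : Fin t → ℕ}

lemma wt_cast (w : Fin t → ℕ) (A : Finset (Fin t)) :
    ((wt w A : ℕ) : ℤ) = ∑ j, (if j ∈ A then (1 : ℤ) else 0) * w j := by
  unfold wt
  push_cast
  rw [← Finset.sum_filter_add_sum_filter_not (Finset.univ : Finset (Fin t)) (· ∈ A)]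
  have h1 : ∑ x ∈ Finset.univ.filter (fun x => ¬ x ∈ A), (if x ∈ A then (1 : ℤ) else 0) * w x = 0 := by
    apply Finset.sum_eq_zero
    intro x hx
    rw [Finset.mem_filter] at hx
    simp [hx.2]
  rw [h1, add_zero]
  have h2 : Finset.univ.filter (fun x => x ∈ A) = A := by ext; simp
  rw [h2]
  apply Finset.sum_congr rfl
  intro x hx
  simp [hx]

lemma blocks_digits (hw : IsWeight (5 ^ t) w p) (𝒟 : Finset (Finset (Fin k)))
    (dg : Finset (Fin k) → Finset (Fin t)) (E X : Finset (Fin t))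
    (hpos : ∀ D ∈ 𝒟, wt w E < wt w (dg D))
    (hsum : ∑ D ∈ 𝒟, (((wt w (dg D) : ℕ) : ℤ) - ((wt w E : ℕ) : ℤ)) = ((wt w X : ℕ) : ℤ)) (j : Fin t) :
    ∑ D ∈ 𝒟, ((if j ∈ dg D then (1 : ℤ) else 0) - (if j ∈ E then 1 else 0)) =
      if j ∈ X then 1 else 0 := by
  classical
  have key : ∀ D, (((wt w (dg D) : ℕ) : ℤ) - ((wt w E : ℕ) : ℤ)) =
      ∑ j, ((if j ∈ dg D then (1 : ℤ) else 0) - (if j ∈ E then 1 else 0)) * w j := by
    intro D
    rw [wt_cast, wt_cast, ← Finset.sum_sub_distrib]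
    apply Finset.sum_congr rfl
    intro j _
    ring
  have h := digit_identity hw (ι := 𝒟)
    (fun D j => (if j ∈ dg D.1 then (1 : ℤ) else 0) - (if j ∈ E then 1 else 0))
    (by
      intro D j
      by_cases h1 : j ∈ dg D.1 <;> by_cases h2 : j ∈ E <;> simp [h1, h2])
    (by
      intro D
      rw [← key]
      have := hpos D.1 D.2
      omega)
    (fun j => if j ∈ X then 1 else 0)
    (by intro j; by_cases h1 : j ∈ X <;> simp [h1])
    (by
      rw [← wt_cast w X, ← hsum, ← Finset.sum_coe_sort 𝒟]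
      apply Finset.sum_congr rfl
      intro D _
      rw [key]) j
  rw [← Finset.sum_coe_sort 𝒟]
  exact h

lemma blocks_mem_E (hw : IsWeight (5 ^ t) w p) (𝒟 : Finset (Finset (Fin k)))
    (dg : Finset (Fin k) → Finset (Fin t)) (E X : Finset (Fin t))
    (hpos : ∀ D ∈ 𝒟, wt w E < wt w (dg D))
    (hsum : ∑ D ∈ 𝒟, (((wt w (dg D) : ℕ) : ℤ) - ((wt w E : ℕ) : ℤ)) = ((wt w X : ℕ) : ℤ)) {j : Fin t}
    (hj : j ∈ E) : (∀ D ∈ 𝒟, j ∈ dg D) ∧ j ∉ X := by
  have h := blocks_digits hw 𝒟 dg E X hpos hsum j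
  simp only [hj, if_true] at h
  have h1 : ∀ D ∈ 𝒟, ((if j ∈ dg D then (1 : ℤ) else 0) - 1) ≤ 0 := by
    intro D _
    by_cases h1 : j ∈ dg D <;> simp [h1]
  have h2 : ∑ D ∈ 𝒟, ((if j ∈ dg D then (1 : ℤ) else 0) - 1) ≤ 0 := Finset.sum_nonpos h1
  have h3 : ∑ D ∈ 𝒟, ((if j ∈ dg D then (1 : ℤ) else 0) - 1) = 0 := by
    by_cases hX : j ∈ X
    · rw [h, if_pos hX] at h2
      omega
    · rw [h, if_neg hX]
  constructor
  · intro D hD
    by_contra hcon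
    have h4 := (Finset.sum_eq_zero_iff_of_nonpos h1).1 h3 D hD
    simp [hcon] at h4
  · intro hX
    rw [h3, if_pos hX] at h
    omega

lemma blocks_mem (hw : IsWeight (5 ^ t) w p) (𝒟 : Finset (Finset (Fin k)))
    (dg : Finset (Fin k) → Finset (Fin t)) (E X : Finset (Fin t))
    (hpos : ∀ D ∈ 𝒟, wt w E < wt w (dg D))
    (hsum : ∑ D ∈ 𝒟, (((wt w (dg D) : ℕ) : ℤ) - ((wt w E : ℕ) : ℤ)) = ((wt w X : ℕ) : ℤ)) {j : Fin t}
    (hj : j ∉ E) : ((𝒟.filter (fun D => j ∈ dg D)).card : ℤ) = if j ∈ X then 1 else 0 := by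
  have h := blocks_digits hw 𝒟 dg E X hpos hsum j
  simp only [hj, if_false, sub_zero] at h
  rw [← h, Finset.sum_ite]
  simp

lemma blocks_sub (hw : IsWeight (5 ^ t) w p) (𝒟 : Finset (Finset (Fin k)))
    (dg : Finset (Fin k) → Finset (Fin t)) (E X : Finset (Fin t))
    (hpos : ∀ D ∈ 𝒟, wt w E < wt w (dg D))
    (hsum : ∑ D ∈ 𝒟, (((wt w (dg D) : ℕ) : ℤ) - ((wt w E : ℕ) : ℤ)) = ((wt w X : ℕ) : ℤ)) {j : Fin t}
    (hj : j ∉ E) {D : Finset (Fin k)} (hD : D ∈ 𝒟) (hjD : j ∈ dg D) : j ∈ X := by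
  by_contra hX
  have h := blocks_mem hw 𝒟 dg E X hpos hsum hj
  rw [if_neg hX] at h
  have : 0 < (𝒟.filter (fun D => j ∈ dg D)).card :=
    Finset.card_pos.2 ⟨D, Finset.mem_filter.2 ⟨hD, hjD⟩⟩
  omega

end Digits

section Dig

variable {t k : ℕ} {M : RankSys (Fin t)} {h : ℕ} {w p : Fin t → ℕ} {I : Finset (Finset (Fin k))}

open Classical in
/-- The flat whose weight is the size of `A`. -/
noncomputable def dig (M : RankSys (Fin t)) (w : Fin t → ℕ) (A : Finset (Fin k)) : Finset (Fin t) :=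
  if h : ∃ D, M.IsFlat D ∧ A.card = wt w D then h.choose else ∅

lemma Setup.exists_dig (hs : Setup M h w p I) {A : Finset (Fin k)} (hA : JC I A) :
    ∃ D, M.IsFlat D ∧ A.card = wt w D := by
  rcases hA with hA | rfl
  · obtain ⟨D, h1, -, h2⟩ := hs.card A hA
    exact ⟨D, h1, h2⟩
  · exact ⟨Finset.univ, M.isFlat_univ, by rw [Finset.card_univ, Fintype.card_fin, hs.hk]⟩

lemma Setup.dig_flat (hs : Setup M h w p I) {A : Finset (Fin k)} (hA : JC I A) :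
    M.IsFlat (dig M w A) := by
  have := hs.exists_dig hA
  unfold dig
  rw [dif_pos this]
  exact this.choose_spec.1

lemma Setup.dig_card (hs : Setup M h w p I) {A : Finset (Fin k)} (hA : JC I A) :
    A.card = wt w (dig M w A) := by
  have := hs.exists_dig hA
  unfold dig
  rw [dif_pos this]
  exact this.choose_spec.2

lemma Setup.dig_eq (hs : Setup M h w p I) {A : Finset (Fin k)} (hA : JC I A) {D : Finset (Fin t)}
    (hD : A.card = wt w D) : dig M w A = D :=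
  wt_inj hs.wei (by rw [← hs.dig_card hA, hD])

lemma Setup.dig_univ (hs : Setup M h w p I) : dig M w (Finset.univ : Finset (Fin k)) = Finset.univ :=
  hs.dig_eq JC.univ (by rw [Finset.card_univ, Fintype.card_fin, hs.hk])

lemma Setup.eq_univ (hs : Setup M h w p I) {A : Finset (Fin k)} (hA : JC I A)
    (h1 : dig M w A = Finset.univ) : A = Finset.univ := by
  apply Finset.eq_univ_of_card
  rw [hs.dig_card hA, h1, Fintype.card_fin, hs.hk]

lemma Setup.dig_Dge_mono (hs : Setup M h w p I) {A B : Finset (Fin k)} (hA : JC I A) (hB : JC I B)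
    (hAB : A ⊆ B) {μ : ℕ} (h1 : Dge t μ ⊆ dig M w A) : Dge t μ ⊆ dig M w B := by
  apply Dge_subset_of_wt_le hs.wei h1
  rw [← hs.dig_card hA, ← hs.dig_card hB]
  exact Finset.card_le_card hAB

lemma Setup.exists_Y (hs : Setup M h w p I) (μ : ℕ) :
    ∃ Y, JC I Y ∧ Dge t μ ⊆ dig M w Y ∧ ∀ A, JC I A → Dge t μ ⊆ dig M w A → Y ⊆ A := by
  apply exists_least hs.inter (fun A => Dge t μ ⊆ dig M w A)
  · exact ⟨Finset.univ, JC.univ, by rw [hs.dig_univ]; exact Finset.subset_univ _⟩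
  · intro A B hA h1 hB h2
    apply Dge_subset_inter hs.wei h1 h2
    rw [← hs.dig_card hA, ← hs.dig_card hB, ← hs.dig_card (JC.inter hs.inter hA hB),
      ← hs.hk, ← Finset.card_union_add_card_inter]
    have := Finset.card_le_univ (A ∪ B)
    rw [Fintype.card_fin] at this
    omega

/-- The chain: the least closed set with all digits `≥ μ`. -/
noncomputable def Setup.Y (hs : Setup M h w p I) (μ : ℕ) : Finset (Fin k) := (hs.exists_Y μ).choose

lemma Setup.Y_JC (hs : Setup M h w p I) (μ : ℕ) : JC I (hs.Y μ) := (hs.exists_Y μ).choose_spec.1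

lemma Setup.Y_dig (hs : Setup M h w p I) (μ : ℕ) : Dge t μ ⊆ dig M w (hs.Y μ) :=
  (hs.exists_Y μ).choose_spec.2.1

lemma Setup.Y_min (hs : Setup M h w p I) {μ : ℕ} {A : Finset (Fin k)} (hA : JC I A)
    (h1 : Dge t μ ⊆ dig M w A) : hs.Y μ ⊆ A := (hs.exists_Y μ).choose_spec.2.2 A hA h1

lemma Dge_anti {t μ ν : ℕ} (hμ : μ ≤ ν) : Dge t ν ⊆ Dge t μ := by
  intro i hi
  rw [mem_Dge] at hi ⊢
  omega

lemma Setup.Y_anti (hs : Setup M h w p I) {μ ν : ℕ} (hμ : μ ≤ ν) : hs.Y ν ⊆ hs.Y μ :=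
  hs.Y_min (hs.Y_JC μ) ((Dge_anti hμ).trans (hs.Y_dig μ))

lemma Dge_succ {t μ : ℕ} (hμ : μ < t) : Dge t μ = insert ⟨μ, hμ⟩ (Dge t (μ + 1)) := by
  ext i
  rw [Finset.mem_insert, mem_Dge, mem_Dge, Fin.ext_iff]
  simp only
  omega

lemma Dge_zero (t : ℕ) : Dge t 0 = Finset.univ := by ext i; simp [mem_Dge]

lemma Dge_self (t : ℕ) : Dge t t = ∅ := by
  ext i
  have := i.2
  simp only [mem_Dge, Finset.notMem_empty, iff_false]
  omega

lemma Setup.Y_zero (hs : Setup M h w p I) : hs.Y 0 = Finset.univ := by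
  apply hs.eq_univ (hs.Y_JC 0)
  have := hs.Y_dig 0
  rw [Dge_zero] at this
  exact Finset.univ_subset_iff.1 this

lemma Setup.Y_eq_of_mem (hs : Setup M h w p I) {μ : ℕ} (hμ : μ < t)
    (h1 : (⟨μ, hμ⟩ : Fin t) ∈ dig M w (hs.Y (μ + 1))) : hs.Y μ = hs.Y (μ + 1) := by
  apply Finset.Subset.antisymm _ (hs.Y_anti (Nat.le_succ μ))
  apply hs.Y_min (hs.Y_JC _)
  rw [Dge_succ hμ]
  exact Finset.insert_subset h1 (hs.Y_dig _)

lemma Setup.exists_gen_Y (hs : Setup M h w p I) {μ : ℕ} (hμ : μ < t)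
    (h1 : (⟨μ, hμ⟩ : Fin t) ∉ dig M w (hs.Y (μ + 1))) :
    ∃ v ∈ hs.Y μ, jcl I (insert v (hs.Y (μ + 1))) = hs.Y μ := by
  have hmod : ∀ A, JC I A → (⟨μ, hμ⟩ : Fin t) ∉ dig M w A → p ⟨μ, hμ⟩ ∣ A.card := by
    intro A hA hn
    have h2 := wt_mod hs.wei (dig M w A) ⟨μ, hμ⟩
    rw [if_neg hn, ← hs.dig_card hA] at h2
    exact (Nat.modEq_zero_iff_dvd).1 h2
  apply exists_gen I hs.inter _ _ (hs.Y_JC _) (hs.Y_JC _) (hs.Y_anti (Nat.le_succ μ)) (p ⟨μ, hμ⟩)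
  · intro hd
    have hmem : (⟨μ, hμ⟩ : Fin t) ∈ dig M w (hs.Y μ) := hs.Y_dig μ (by rw [mem_Dge])
    have h2 := wt_mod hs.wei (dig M w (hs.Y μ)) ⟨μ, hμ⟩
    rw [if_pos hmem, ← hs.dig_card (hs.Y_JC μ)] at h2
    have h3 : (0 : ℕ) ≡ 1 [MOD p ⟨μ, hμ⟩] := ((Nat.modEq_zero_iff_dvd).2 hd).symm.trans h2
    have h4 := hs.wei.big ⟨μ, hμ⟩
    have h5 : 1 ≤ 5 ^ t := Nat.one_le_pow _ _ (by norm_num)
    unfold Nat.ModEq at h3
    rw [Nat.zero_mod, Nat.mod_eq_of_lt (by omega)] at h3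
    omega
  · intro A hA h2 h3 h4
    apply hmod A hA
    intro h5
    apply h4
    apply Finset.Subset.antisymm h3
    apply hs.Y_min hA
    rw [Dge_succ hμ]
    exact Finset.insert_subset h5 (hs.dig_Dge_mono (hs.Y_JC _) hA h2 (hs.Y_dig _))

/-- One step of the generators. -/
lemma Setup.gens_step (hs : Setup M h w p I) {μ : ℕ} (hμ : μ < t) (S : Finset (Fin k))
    (hS : jcl I S = hs.Y (μ + 1)) :
    ∃ S', jcl I S' = hs.Y μ ∧ S'.card + M.rk (Dge t (μ + 1)) ≤ S.card + M.rk (Dge t μ) := by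
  by_cases h1 : (⟨μ, hμ⟩ : Fin t) ∈ dig M w (hs.Y (μ + 1))
  · refine ⟨S, by rw [hS, hs.Y_eq_of_mem hμ h1], ?_⟩
    have := M.rk_mono (Dge_anti (t := t) (by omega : μ ≤ μ + 1))
    omega
  · obtain ⟨v, -, hv⟩ := hs.exists_gen_Y hμ h1
    refine ⟨insert v S, ?_, ?_⟩
    · rw [← jcl_insert_jcl hs.inter, hS, hv]
    · have h2 : (⟨μ, hμ⟩ : Fin t) ∉ M.cl (Dge t (μ + 1)) := fun h3 =>
        h1 (M.cl_min (hs.dig_flat (hs.Y_JC _)) (hs.Y_dig _) h3)
      have h3 := M.rk_insert_of_notMem h2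
      rw [← Dge_succ hμ] at h3
      have h4 := Finset.card_insert_le v S
      omega

lemma Setup.gens (hs : Setup M h w p I) (d : ℕ) : ∀ {μ : ℕ}, μ + d ≤ t → ∀ (S : Finset (Fin k)),
    jcl I S = hs.Y (μ + d) →
    ∃ S', jcl I S' = hs.Y μ ∧ S'.card + M.rk (Dge t (μ + d)) ≤ S.card + M.rk (Dge t μ) := by
  induction d with
  | zero => intro μ _ S hS; exact ⟨S, hS, le_rfl⟩
  | succ d ih =>
    intro μ hμ S hS
    obtain ⟨S₁, h1, h2⟩ := hs.gens_step (μ := μ + d) (by omega) S hS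
    obtain ⟨S₂, h3, h4⟩ := ih (by omega) S₁ h1
    refine ⟨S₂, h3, ?_⟩
    have : μ + (d + 1) = μ + d + 1 := rfl
    rw [this]
    omega

lemma Setup.gens_top (hs : Setup M h w p I) : jcl I ∅ = hs.Y t := by
  apply Finset.Subset.antisymm
  · exact jcl_min (hs.Y_JC t) (Finset.empty_subset _)
  · apply hs.Y_min (JC_jcl hs.inter _)
    rw [Dge_self]
    exact Finset.empty_subset _

lemma Setup.gens' (hs : Setup M h w p I) {μ : ℕ} (hμ : μ ≤ t) :
    ∃ S, jcl I S = hs.Y μ ∧ S.card ≤ M.rk (Dge t μ) := by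
  obtain ⟨S, h1, h2⟩ := hs.gens (t - μ) (μ := μ) (by omega) ∅ (by
    rw [hs.gens_top]
    congr 1
    omega)
  refine ⟨S, h1, ?_⟩
  have h3 : μ + (t - μ) = t := by omega
  rw [h3, Dge_self, M.rk_empty] at h2
  simpa using h2

/-- upper bound (module UB): `Ω` is generated by at most `rk` elements. -/
theorem exists_generators' (hs : Setup M h w p I) :
    ∃ S, jcl I S = Finset.univ ∧ S.card ≤ M.rk Finset.univ := by
  obtain ⟨S, h1, h2⟩ := hs.gens' (Nat.zero_le t)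
  rw [hs.Y_zero] at h1
  rw [Dge_zero] at h2
  exact ⟨S, h1, h2⟩

/-- No step of the chain skips an element of the greedy basis. -/
lemma Setup.bstar (hs : Setup M h w p I) (hg : Good (M.rk Finset.univ) I) {μ : ℕ} (hμ : μ < t)
    (h1 : (⟨μ, hμ⟩ : Fin t) ∉ M.cl (Dge t (μ + 1))) :
    (⟨μ, hμ⟩ : Fin t) ∉ dig M w (hs.Y (μ + 1)) := by
  intro h2
  obtain ⟨S, h3, h4⟩ := hs.gens' (μ := μ + 1) (by omega)
  rw [← hs.Y_eq_of_mem hμ h2] at h3
  obtain ⟨S', h5, h6⟩ := hs.gens μ (μ := 0) (by omega) S (by rw [zero_add]; exact h3)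
  rw [hs.Y_zero] at h5
  have h7 := hg.n1 S' h5
  have h8 := M.rk_insert_of_notMem h1
  rw [← Dge_succ hμ] at h8
  rw [Dge_zero, zero_add] at h6
  omega

end Dig

end Pool.Agent.helper36.MFD
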