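import Mathlib
import Pool.Agent.helper36.MFD.Ch1

set_option autoImplicit false

namespace Pool.Agent.helper36.MFD

open Finset

section Chain

variable {t k : ℕ} {M : RankSys (Fin t)} {h : ℕ} {w p : Fin t → ℕ} {I : Finset (Finset (Fin k))}

/-- The element just below the hyperplane. -/
def Setup.m0 (hs : Setup M h w p I) : Fin t := ⟨h - 1, by have := hs.hh; have := hs.ht; omega⟩

lemma Setup.m0_notMem (hs : Setup M h w p I) : hs.m0 ∉ Dge t h := by
  have := hs.hh
  rw [mem_Dge]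
  simp only [Setup.m0]
  omega

lemma Setup.univ_of_mem (hs : Setup M h w p I) {F : Finset (Fin t)} (hF : M.IsFlat F)
    (h1 : Dge t h ⊆ F) {x : Fin t} (hx : x ∉ Dge t h) (hxF : x ∈ F) : F = Finset.univ := by
  have h2 := hs.hyp x hx
  have h3 : M.cl (insert x (Dge t h)) ⊆ F := M.cl_min hF (Finset.insert_subset hxF h1)
  rw [h2] at h3
  exact Finset.univ_subset_iff.1 h3

lemma Setup.dig_Yh (hs : Setup M h w p I) (hg : Good (M.rk Finset.univ) I) :
    dig M w (hs.Y h) = Dge t h := by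
  apply Finset.Subset.antisymm _ (hs.Y_dig h)
  intro x hx
  by_contra hcon
  have h1 := hs.univ_of_mem (hs.dig_flat (hs.Y_JC h)) (hs.Y_dig h) hcon hx
  have hμ : h - 1 < t := by have := hs.hh; have := hs.ht; omega
  have he : h - 1 + 1 = h := by have := hs.hh; omega
  have h2 := hs.bstar hg hμ (by
    rw [he, hs.H1]
    exact hs.m0_notMem)
  rw [he, h1] at h2
  exact h2 (Finset.mem_univ _)

lemma Setup.Yh_ne (hs : Setup M h w p I) (hg : Good (M.rk Finset.univ) I) :
    ∃ v, v ∉ hs.Y h := by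
  by_contra hcon
  push Not at hcon
  have h1 : hs.Y h = Finset.univ := Finset.eq_univ_iff_forall.2 hcon
  have h2 := hs.dig_Yh hg
  rw [h1, hs.dig_univ] at h2
  exact hs.m0_notMem (h2 ▸ Finset.mem_univ _)

lemma Setup.Yh_top (hs : Setup M h w p I) (hg : Good (M.rk Finset.univ) I) {v : Fin k}
    (hv : v ∉ hs.Y h) : jcl I (insert v (hs.Y h)) = Finset.univ := by
  have hA := JC_jcl hs.inter (insert v (hs.Y h))
  have hsub : hs.Y h ⊆ jcl I (insert v (hs.Y h)) :=
    (Finset.subset_insert _ _).trans (subset_jcl _)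
  have hvA : v ∈ jcl I (insert v (hs.Y h)) := subset_jcl _ (Finset.mem_insert_self _ _)
  have hcard : (hs.Y h).card < (jcl I (insert v (hs.Y h))).card := by
    apply Finset.card_lt_card
    rw [Finset.ssubset_iff_of_subset hsub]
    exact ⟨v, hvA, hv⟩
  have hdig := hs.dig_Dge_mono (hs.Y_JC h) hA hsub (hs.Y_dig h)
  rw [hs.dig_card (hs.Y_JC h), hs.dig_card hA, hs.dig_Yh hg] at hcard
  apply hs.eq_univ hA
  have hne : ∃ x ∈ dig M w (jcl I (insert v (hs.Y h))), x ∉ Dge t h := by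
    by_contra hcon
    push Not at hcon
    have : dig M w (jcl I (insert v (hs.Y h))) = Dge t h :=
      Finset.Subset.antisymm hcon hdig
    rw [this] at hcard
    omega
  obtain ⟨x, hx, hxH⟩ := hne
  exact hs.univ_of_mem (hs.dig_flat hA) hdig hxH hx

lemma Setup.rk_lt (hs : Setup M h w p I) : M.rk (Dge t h) + 1 = M.rk Finset.univ := by
  have h1 : hs.m0 ∉ M.cl (Dge t h) := by rw [hs.H1]; exact hs.m0_notMem
  have h2 := M.rk_insert_of_notMem h1
  rw [← h2, ← M.rk_cl (insert hs.m0 (Dge t h)), hs.hyp _ hs.m0_notMem]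

lemma Setup.Yh_gen (hs : Setup M h w p I) :
    ∃ S, jcl I S = hs.Y h ∧ S.card + 1 ≤ M.rk Finset.univ := by
  obtain ⟨S, h1, h2⟩ := hs.gens' hs.ht
  exact ⟨S, h1, by have := hs.rk_lt; omega⟩

/-- N2 for the chain. -/
lemma Setup.n2 (hs : Setup M h w p I) (hg : Good (M.rk Finset.univ) I) {Z : Finset (Fin k)}
    (hZ : JC I Z) (hZY : Z ⊆ hs.Y h) {v : Fin k} (hv : v ∉ hs.Y h) :
    jcl I (insert v Z) ∩ hs.Y h = Z := by
  obtain ⟨S, h1, h2⟩ := hs.Yh_gen
  exact hg.n2 (hs.Y h) Z S v (hs.Y_JC h) hZ hZY (hs.Yh_top hg hv) h1 h2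

/-- N3 for the chain. -/
lemma Setup.n3 (hs : Setup M h w p I) (hg : Good (M.rk Finset.univ) I) {Z : Finset (Fin k)}
    (hZ : JC I Z) (hZY : Z ⊆ hs.Y h) {u v : Fin k} (hu : u ∉ hs.Y h)
    (huv : u ∈ jcl I (insert v Z)) : jcl I (insert u Z) = jcl I (insert v Z) := by
  obtain ⟨S, h1, h2⟩ := hs.Yh_gen
  have h3 := hg.n3 (hs.Y h) Z S u v (hs.Y_JC h) hZ hZY (hs.Yh_top hg hu) h1 h2 huv
  apply Finset.Subset.antisymm
  · exact jcl_min (JC_jcl hs.inter _) (Finset.insert_subset huv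
      ((Finset.subset_insert _ _).trans (subset_jcl _)))
  · exact jcl_min (JC_jcl hs.inter _) (Finset.insert_subset h3
      ((Finset.subset_insert _ _).trans (subset_jcl _)))

/-- Members of a block outside `Z` are outside `Y h`. -/
lemma Setup.notMem_Yh (hs : Setup M h w p I) (hg : Good (M.rk Finset.univ) I) {Z : Finset (Fin k)}
    (hZ : JC I Z) (hZY : Z ⊆ hs.Y h) {v : Fin k} (hv : v ∉ hs.Y h) {u : Fin k}
    (hu : u ∈ jcl I (insert v Z)) (huZ : u ∉ Z) : u ∉ hs.Y h := by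
  intro h1
  have h2 : u ∈ jcl I (insert v Z) ∩ hs.Y h := Finset.mem_inter.2 ⟨hu, h1⟩
  rw [hs.n2 hg hZ hZY hv] at h2
  exact huZ h2

/-- The blocks over `Z` inside a set `B` which is a union of blocks. -/
def blk (I : Finset (Finset (Fin k))) (Z B : Finset (Fin k)) : Finset (Finset (Fin k)) :=
  B.image (fun u => jcl I (insert u Z))

/-- The sizes of the blocks add up. -/
lemma Setup.blk_card (hs : Setup M h w p I) (hg : Good (M.rk Finset.univ) I) {Z : Finset (Fin k)}
    (hZ : JC I Z) (hZY : Z ⊆ hs.Y h) (B : Finset (Fin k)) (hB : ∀ u ∈ B, u ∉ hs.Y h)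
    (hB2 : ∀ u ∈ B, ∀ x ∈ jcl I (insert u Z), x ∉ Z → x ∈ B) :
    ∑ D ∈ blk I Z B, (((wt w (dig M w D) : ℕ) : ℤ) - ((wt w (dig M w Z) : ℕ) : ℤ)) = B.card := by
  have h1 : B.card = ∑ D ∈ blk I Z B, (B.filter (fun u => jcl I (insert u Z) = D)).card :=
    Finset.card_eq_sum_card_fiberwise (fun u hu => Finset.mem_image_of_mem _ hu)
  rw [h1]
  push_cast
  apply Finset.sum_congr rfl
  intro D hD
  obtain ⟨u, hu, rfl⟩ := Finset.mem_image.1 hD
  have hJC := JC_jcl hs.inter (insert u Z)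
  have hZD : Z ⊆ jcl I (insert u Z) := (Finset.subset_insert _ _).trans (subset_jcl _)
  have h2 : B.filter (fun x => jcl I (insert x Z) = jcl I (insert u Z)) = jcl I (insert u Z) \ Z := by
    ext x
    rw [Finset.mem_filter, Finset.mem_sdiff]
    constructor
    · rintro ⟨hx, hx2⟩
      refine ⟨hx2 ▸ subset_jcl _ (Finset.mem_insert_self _ _), fun hxZ => hB x hx (hZY hxZ)⟩
    · rintro ⟨hx, hxZ⟩
      exact ⟨hB2 u hu x hx hxZ, hs.n3 hg hZ hZY (hs.notMem_Yh hg hZ hZY (hB u hu) hx hxZ) hx⟩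
  rw [h2, Finset.card_sdiff_of_subset hZD, ← hs.dig_card hJC, ← hs.dig_card hZ]
  have := Finset.card_le_card hZD
  omega

lemma Setup.blk_pos (hs : Setup M h w p I) {Z : Finset (Fin k)}
    (hZ : JC I Z) (hZY : Z ⊆ hs.Y h) (B : Finset (Fin k)) (hB : ∀ u ∈ B, u ∉ hs.Y h) :
    ∀ D ∈ blk I Z B, wt w (dig M w Z) < wt w (dig M w D) := by
  intro D hD
  obtain ⟨u, hu, rfl⟩ := Finset.mem_image.1 hD
  have hJC := JC_jcl hs.inter (insert u Z)
  rw [← hs.dig_card hJC, ← hs.dig_card hZ]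
  apply Finset.card_lt_card
  rw [Finset.ssubset_iff_of_subset ((Finset.subset_insert _ _).trans (subset_jcl _))]
  exact ⟨u, subset_jcl _ (Finset.mem_insert_self _ _), fun h1 => hB u hu (hZY h1)⟩

/-- The induction statement. -/
def Setup.P (hs : Setup M h w p I) (μ : ℕ) : Prop :=
  dig M w (hs.Y μ) = M.cl (Dge t μ) ∧ ∀ v, v ∉ hs.Y h → ∃ s, s ∉ Dge t h ∧
    dig M w (jcl I (insert v (hs.Y μ))) = M.cl (insert s (Dge t μ))

lemma Setup.P_base (hs : Setup M h w p I) (hg : Good (M.rk Finset.univ) I) : hs.P h := by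
  refine ⟨by rw [hs.dig_Yh hg, hs.H1], fun v hv => ⟨hs.m0, hs.m0_notMem, ?_⟩⟩
  rw [hs.Yh_top hg hv, hs.dig_univ, hs.hyp _ hs.m0_notMem]

/-- The flat `dig (jcl (v + Y μ))` minus `dig (Y μ)` avoids the hyperplane. -/
lemma Setup.P_step (hs : Setup M h w p I) (hg : Good (M.rk Finset.univ) I) {μ : ℕ} (hμh : h ≤ μ)
    (hμ : μ < t) (hP : hs.P μ) : hs.P (μ + 1) := by
  have hins := Dge_succ (t := t) hμ
  set m : Fin t := ⟨μ, hμ⟩ with hm
  set D := Dge t (μ + 1) with hD
  by_cases hmD : m ∈ M.cl D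
  · -- trivial case
    have h1 : m ∈ dig M w (hs.Y (μ + 1)) := M.cl_min (hs.dig_flat (hs.Y_JC _)) (hs.Y_dig _) hmD
    have h2 := hs.Y_eq_of_mem hμ h1
    have h3 : ∀ s, M.cl (insert s D) = M.cl (insert s (Dge t μ)) := by
      intro s
      apply Finset.Subset.antisymm
      · exact M.cl_mono (Finset.insert_subset_insert _ (Dge_anti (Nat.le_succ μ)))
      · apply M.cl_min (M.isFlat_cl _)
        rw [hins]
        intro x hx
        rw [Finset.mem_insert, Finset.mem_insert] at hx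
        rcases hx with rfl | rfl | hx
        · exact M.subset_cl _ (Finset.mem_insert_self _ _)
        · exact M.cl_mono (Finset.subset_insert _ _) hmD
        · exact M.subset_cl _ (Finset.mem_insert_of_mem hx)
    have h4 : M.cl D = M.cl (Dge t μ) := by
      apply Finset.Subset.antisymm
      · exact M.cl_mono (Dge_anti (Nat.le_succ μ))
      · apply M.cl_min (M.isFlat_cl _)
        rw [hins]
        exact Finset.insert_subset hmD (M.subset_cl _)
    refine ⟨by rw [← h2, hP.1, h4], fun v hv => ?_⟩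
    obtain ⟨s, hs1, hs2⟩ := hP.2 v hv
    exact ⟨s, hs1, by rw [← h2, hs2, h3]⟩
  · -- main case
    set Z := hs.Y (μ + 1) with hZdef
    have hZJ : JC I Z := hs.Y_JC _
    have hYJ : JC I (hs.Y μ) := hs.Y_JC _
    have hZYμ : Z ⊆ hs.Y μ := hs.Y_anti (Nat.le_succ μ)
    have hYμh : hs.Y μ ⊆ hs.Y h := hs.Y_anti hμh
    have hZY : Z ⊆ hs.Y h := hZYμ.trans hYμh
    have hmE : m ∉ dig M w Z := hs.bstar hg hμ hmD
    have hEflat := hs.dig_flat hZJ
    have hDE : D ⊆ dig M w Z := hs.Y_dig _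
    -- data of a block of level `μ`
    have main : ∀ v, v ∉ hs.Y h → ∃ X : Finset (Fin t), ∃ s, s ∉ Dge t h ∧
        (∀ x, x ∈ X ↔ x ∈ M.cl (insert s (Dge t μ)) ∧ x ∉ M.cl (Dge t μ)) ∧
        (∀ j ∈ dig M w Z, j ∉ X ∧ j ∈ dig M w (jcl I (insert v Z))) ∧
        (∀ j, j ∉ dig M w Z → j ∈ dig M w (jcl I (insert v Z)) → j ∈ X) := by
      intro v hv
      obtain ⟨s, hs1, hs2⟩ := hP.2 v hv
      set B := jcl I (insert v (hs.Y μ)) \ hs.Y μ with hB
      have hBJ := JC_jcl hs.inter (insert v (hs.Y μ))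
      have hYB : hs.Y μ ⊆ jcl I (insert v (hs.Y μ)) :=
        (Finset.subset_insert _ _).trans (subset_jcl _)
      have hB1 : ∀ u ∈ B, u ∉ hs.Y h := by
        intro u hu
        rw [hB, Finset.mem_sdiff] at hu
        exact hs.notMem_Yh hg hYJ hYμh hv hu.1 hu.2
      have hB2 : ∀ u ∈ B, ∀ x ∈ jcl I (insert u Z), x ∉ Z → x ∈ B := by
        intro u hu x hx hxZ
        have h1 : x ∉ hs.Y h := hs.notMem_Yh hg hZJ hZY (hB1 u hu) hx hxZ
        rw [hB, Finset.mem_sdiff] at hu ⊢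
        refine ⟨?_, fun h2 => h1 (hYμh h2)⟩
        apply jcl_min hBJ _ hx
        exact Finset.insert_subset hu.1 (hZYμ.trans hYB)
      have hvB : v ∈ B := by
        rw [hB, Finset.mem_sdiff]
        exact ⟨subset_jcl _ (Finset.mem_insert_self _ _), fun h1 => hv (hYμh h1)⟩
      let X : Finset (Fin t) := M.cl (insert s (Dge t μ)) \ M.cl (Dge t μ)
      have hsubF : M.cl (Dge t μ) ⊆ M.cl (insert s (Dge t μ)) := M.cl_mono (Finset.subset_insert _ _)
      have hXw : ((wt w X : ℕ) : ℤ) = B.card := by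
        have h1 : wt w X + wt w (M.cl (Dge t μ)) = wt w (M.cl (insert s (Dge t μ))) :=
          Finset.sum_sdiff hsubF
        rw [hB, Finset.card_sdiff_of_subset hYB, hs.dig_card hBJ, hs.dig_card hYJ, hs2, hP.1]
        omega
      have hsum := hs.blk_card hg hZJ hZY B hB1 hB2
      rw [← hXw] at hsum
      have hpos := hs.blk_pos hZJ hZY B hB1
      have hvblk : jcl I (insert v Z) ∈ blk I Z B := Finset.mem_image_of_mem _ hvB
      refine ⟨X, s, hs1, fun x => Finset.mem_sdiff, ?_, ?_⟩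
      · intro j hj
        have h1 := blocks_mem_E hs.wei (blk I Z B) (dig M w) (dig M w Z) X hpos hsum hj
        exact ⟨h1.2, h1.1 _ hvblk⟩
      · intro j hj hj2
        exact blocks_sub hs.wei (blk I Z B) (dig M w) (dig M w Z) X hpos hsum hj hvblk hj2
    -- a new digit in every block
    have newdig : ∀ v, v ∉ hs.Y h → ∃ j, j ∈ dig M w (jcl I (insert v Z)) ∧ j ∉ dig M w Z := by
      intro v hv
      obtain ⟨X, s, -, -, h1, -⟩ := main v hv
      by_contra hcon
      push Not at hcon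
      have h2 : dig M w (jcl I (insert v Z)) = dig M w Z :=
        Finset.Subset.antisymm hcon (fun j hj => (h1 j hj).2)
      have h3 := hs.blk_pos hZJ hZY {v} (by simpa using hv) (jcl I (insert v Z))
        (by simp [blk])
      rw [h2] at h3
      omega
    have hDflat : ∀ v, M.IsFlat (dig M w (jcl I (insert v Z))) := fun v =>
      hs.dig_flat (JC_jcl hs.inter _)
    -- `dig Z = cl D`
    have hE : dig M w Z = M.cl D := by
      apply Finset.Subset.antisymm _ (M.cl_min hEflat hDE)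
      intro e he
      by_contra heD
      obtain ⟨v, hv⟩ := hs.Yh_ne hg
      obtain ⟨X, s, hs1, hX, h1, h2⟩ := main v hv
      obtain ⟨j, hj, hjE⟩ := newdig v hv
      have hsubE : M.cl (insert e D) ⊆ dig M w Z := M.cl_min hEflat (Finset.insert_subset he hDE)
      obtain ⟨g, hg1, hg2, hg3⟩ := hs.third D e j heD (fun h3 => hjE (hsubE h3))
      have hDd : D ⊆ dig M w (jcl I (insert v Z)) := fun x hx => (h1 x (hDE hx)).2
      have hgd : g ∈ dig M w (jcl I (insert v Z)) :=
        M.cl_min (hDflat v) (Finset.insert_subset (h1 e he).2 (Finset.insert_subset hj hDd)) hg1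
      have hgE : g ∉ dig M w Z := by
        intro h3
        rw [Finset.insert_comm] at hg1
        have h4 := M.exchange hg1 hg2
        exact hjE (M.cl_min hEflat (Finset.insert_subset h3 (Finset.insert_subset he hDE)) h4)
      have hjX := (hX j).1 (h2 j hjE hj)
      have hgX := (hX g).1 (h2 g hgE hgd)
      have hDμ : D ⊆ Dge t μ := Dge_anti (Nat.le_succ μ)
      have he2 : e ∈ M.cl (insert s (Dge t μ)) := by
        have h5 : e ∈ M.cl (insert g (insert j D)) := M.exchange hg1 hg3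
        apply M.cl_min (M.isFlat_cl _) _ h5
        refine Finset.insert_subset hgX.1 (Finset.insert_subset hjX.1 ?_)
        exact hDμ.trans ((Finset.subset_insert _ _).trans (M.subset_cl _))
      have he3 : e ∈ M.cl (Dge t μ) := by
        by_contra h6
        exact (h1 e he).1 ((hX e).2 ⟨he2, h6⟩)
      rw [hins] at he3
      exact hmE (hsubE (M.exchange he3 heD))
    refine ⟨hE, fun v hv => ?_⟩
    obtain ⟨X, s, hs1, hX, h1, h2⟩ := main v hv
    obtain ⟨s', hs', hs'E⟩ := newdig v hv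
    have hs'X := (hX s').1 (h2 s' hs'E hs')
    have hDμ : D ⊆ Dge t μ := Dge_anti (Nat.le_succ μ)
    refine ⟨s', ?_, ?_⟩
    · intro hH
      have h3 := M.exchange hs'X.1 hs'X.2
      have h4 : M.cl (insert s' (Dge t μ)) ⊆ Dge t h :=
        M.cl_min hs.H1 (Finset.insert_subset hH (Dge_anti hμh))
      exact hs1 (h4 h3)
    · apply Finset.Subset.antisymm
      · intro g hgd
        by_contra hgn
        have hgE : g ∉ dig M w Z := by
          intro h3
          rw [hE] at h3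
          exact hgn (M.cl_mono (Finset.subset_insert _ _) h3)
        have hgX := (hX g).1 (h2 g hgE hgd)
        have h4 : g ∈ M.cl (insert s' (Dge t μ)) := by
          rw [M.cl_insert_eq hs'X.1 hs'X.2]
          exact hgX.1
        rw [hins, Finset.insert_comm] at h4
        have h5 := M.exchange h4 hgn
        have hDd : D ⊆ dig M w (jcl I (insert v Z)) := fun x hx => (h1 x (hDE hx)).2
        have h6 : m ∈ dig M w (jcl I (insert v Z)) :=
          M.cl_min (hDflat v) (Finset.insert_subset hgd (Finset.insert_subset hs' hDd)) h5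
        have h7 := (hX m).1 (h2 m hmE h6)
        apply h7.2
        apply M.subset_cl
        rw [mem_Dge]
      · apply M.cl_min (hDflat v)
        exact Finset.insert_subset hs' (fun x hx => (h1 x (hDE hx)).2)

lemma Setup.P_all (hs : Setup M h w p I) (hg : Good (M.rk Finset.univ) I) (d : ℕ) :
    h + d ≤ t → hs.P (h + d) := by
  induction d with
  | zero => intro _; exact hs.P_base hg
  | succ d ih =>
    intro hd
    have h1 : h + (d + 1) = h + d + 1 := rfl
    rw [h1] at hd ⊢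
    exact hs.P_step (μ := h + d) hg (by omega) (by omega) (ih (by omega))

/-- The chain argument. -/
theorem exists_blocks (hs : Setup M h w p I) (hg : Good (M.rk Finset.univ) I) :
    ∃ Y Z, Blocks M h w I Y Z := by
  classical
  have hPt : hs.P t := by
    have := hs.P_all hg (t - h) (by have := hs.ht; omega)
    rwa [show h + (t - h) = t by have := hs.ht; omega] at this
  have hYt : hs.Y t = ∅ := by
    rw [← Finset.card_eq_zero, hs.dig_card (hs.Y_JC t), hPt.1, Dge_self, M.cl_empty]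
    simp [wt]
  have hZJ : JC I (∅ : Finset (Fin k)) := hYt ▸ hs.Y_JC t
  have hZY : (∅ : Finset (Fin k)) ⊆ hs.Y h := Finset.empty_subset _
  have hdig0 : dig M w (∅ : Finset (Fin k)) = ∅ := by
    rw [← hYt, hPt.1, Dge_self, M.cl_empty]
  have hlab : ∀ v, v ∉ hs.Y h → ∃ s, s ∉ Dge t h ∧ dig M w (jcl I {v}) = {s} := by
    intro v hv
    obtain ⟨s, h1, h2⟩ := hPt.2 v hv
    rw [hYt, Dge_self] at h2
    simp only [insert_empty_eq] at h2
    exact ⟨s, h1, by rw [h2, hs.simple]⟩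
  set B : Finset (Fin k) := (hs.Y h)ᶜ with hB
  have hB1 : ∀ u ∈ B, u ∉ hs.Y h := fun u hu => Finset.mem_compl.1 hu
  have hB2 : ∀ u ∈ B, ∀ x ∈ jcl I (insert u (∅ : Finset (Fin k))), x ∉ (∅ : Finset (Fin k)) → x ∈ B := by
    intro u hu x hx hx2
    exact Finset.mem_compl.2 (hs.notMem_Yh hg hZJ hZY (hB1 u hu) hx hx2)
  have hsum := hs.blk_card hg hZJ hZY B hB1 hB2
  have hpos := hs.blk_pos hZJ hZY B hB1
  set X : Finset (Fin t) := (Dge t h)ᶜ with hXdef
  have hXw : ((wt w X : ℕ) : ℤ) = B.card := by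
    have h1 : wt w X + wt w (Dge t h) = wt w Finset.univ := by
      have := Finset.sum_compl_add_sum (Dge t h) w
      exact this
    have h2 := Finset.card_compl_add_card (hs.Y h)
    have h3 := hs.dig_card (hs.Y_JC h)
    have h4 := hs.hk
    rw [hs.dig_Yh hg] at h3
    rw [Fintype.card_fin] at h2
    rw [hB]
    omega
  rw [← hXw] at hsum
  have hcount : ∀ s, s ∉ Dge t h →
      ((blk I ∅ B).filter (fun D => s ∈ dig M w D)).card = 1 := by
    intro s hsH
    have h1 := blocks_mem hs.wei (blk I ∅ B) (dig M w) (dig M w (∅ : Finset (Fin k))) X hpos hsum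
      (j := s) (by rw [hdig0]; exact Finset.notMem_empty _)
    rw [if_pos (Finset.mem_compl.2 hsH)] at h1
    exact_mod_cast h1
  have hex : ∀ s, ∃ Zs : Finset (Fin k), s ∉ Dge t h →
      Zs ∈ blk I ∅ B ∧ s ∈ dig M w Zs ∧ ∀ D ∈ blk I ∅ B, s ∈ dig M w D → D = Zs := by
    intro s
    by_cases hsH : s ∈ Dge t h
    · exact ⟨∅, fun h1 => absurd hsH h1⟩
    · obtain ⟨D, hD⟩ := Finset.card_eq_one.1 (hcount s hsH)
      refine ⟨D, fun _ => ?_⟩
      have h1 : D ∈ (blk I ∅ B).filter (fun D => s ∈ dig M w D) := by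
        rw [hD]; exact Finset.mem_singleton_self _
      rw [Finset.mem_filter] at h1
      refine ⟨h1.1, h1.2, fun D' hD' h2 => ?_⟩
      have h3 : D' ∈ (blk I ∅ B).filter (fun D => s ∈ dig M w D) := Finset.mem_filter.2 ⟨hD', h2⟩
      rw [hD, Finset.mem_singleton] at h3
      exact h3
  choose Z hZ using hex
  have hZu : ∀ s, s ∉ Dge t h → ∃ u, u ∉ hs.Y h ∧ jcl I {u} = Z s ∧ dig M w (Z s) = {s} := by
    intro s hsH
    obtain ⟨h1, h2, -⟩ := hZ s hsH
    obtain ⟨u, hu, hu2⟩ := Finset.mem_image.1 h1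
    simp only [insert_empty_eq] at hu2
    obtain ⟨s', h3, h4⟩ := hlab u (hB1 u hu)
    rw [← hu2, h4, Finset.mem_singleton] at h2
    exact ⟨u, hB1 u hu, hu2, by rw [← hu2, h4, h2]⟩
  refine ⟨hs.Y h, Z, hs.Y_JC h, hs.Yh_gen, ?_, fun v hv => hs.Yh_top hg hv, ?_, ?_, ?_, ?_⟩
  · rw [hs.dig_card (hs.Y_JC h), hs.dig_Yh hg]
  · intro s hsH
    obtain ⟨u, h1, h2, h3⟩ := hZu s hsH
    rw [← h2, hs.dig_card (JC_jcl hs.inter _), h2, h3]
    simp [wt]
  · intro s hsH v hv
    obtain ⟨u, h1, h2, h3⟩ := hZu s hsH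
    rw [← h2] at hv
    exact hs.notMem_Yh hg hZJ hZY h1 (by simpa using hv) (Finset.notMem_empty _)
  · intro s hsH v hv
    obtain ⟨u, h1, h2, h3⟩ := hZu s hsH
    have hvY : v ∉ hs.Y h := by
      rw [← h2] at hv
      exact hs.notMem_Yh hg hZJ hZY h1 (by simpa using hv) (Finset.notMem_empty _)
    rw [← h2] at hv ⊢
    have := hs.n3 hg hZJ hZY hvY (u := v) (v := u) (by simpa using hv)
    simpa using this
  · intro v hv
    obtain ⟨s, h1, h2⟩ := hlab v hv
    refine ⟨s, h1, ?_⟩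
    have h3 : jcl I {v} ∈ blk I ∅ B :=
      Finset.mem_image.2 ⟨v, Finset.mem_compl.2 hv, by simp⟩
    have h4 := (hZ s h1).2.2 _ h3 (by rw [h2]; exact Finset.mem_singleton_self _)
    rw [← h4]
    exact subset_jcl _ (Finset.mem_singleton_self _)

end Chain

end Pool.Agent.helper36.MFD
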