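import Mathlib
import Pool.Agent.helper36.MFD.Defs

set_option autoImplicit false

namespace Pool.Agent.helper36.MFD

open Finset

/-- C0: choose the most popular value. -/
theorem popular {X α β : Type} [DecidableEq X] [DecidableEq α] [DecidableEq β] (F : Finset X)
    (f : X → α) (g : X → β) (K : ℕ)
    (hK : ∀ a, ((F.filter (fun x => f x = a)).image g).card ≤ K) :
    ∃ G ⊆ F, F.card ≤ K * G.card ∧ ∀ x ∈ G, ∀ y ∈ G, f x = f y → g x = g y := by
  classical
  rcases F.eq_empty_or_nonempty with h0 | ⟨x0, hx0⟩
  · exact ⟨∅, empty_subset _, by simp [h0], by simp⟩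
  have key : ∀ a, ∃ b, (F.filter (fun x => f x = a)).card ≤
      K * ((F.filter (fun x => f x = a)).filter (fun x => g x = b)).card := by
    intro a
    rcases (F.filter (fun x => f x = a)).eq_empty_or_nonempty with h1 | h1
    · exact ⟨g x0, by simp [h1]⟩
    · set T := F.filter (fun x => f x = a) with hT
      by_contra hcon
      push Not at hcon
      have h2 : T.card = ∑ b ∈ T.image g, (T.filter (fun x => g x = b)).card :=
        card_eq_sum_card_image g T
      have h3 : ∑ b ∈ T.image g, K * (T.filter (fun x => g x = b)).card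
          < ∑ b ∈ T.image g, T.card :=
        sum_lt_sum_of_nonempty (h1.image g) (fun b _ => hcon b)
      rw [← mul_sum, ← h2, sum_const, smul_eq_mul] at h3
      have h4 : (T.image g).card * T.card ≤ K * T.card := Nat.mul_le_mul_right T.card (hK a)
      omega
  choose m hm using key
  refine ⟨F.filter (fun x => g x = m (f x)), filter_subset _ _, ?_, ?_⟩
  · have h5 : F.card = ∑ a ∈ F.image f, (F.filter (fun x => f x = a)).card :=
      card_eq_sum_card_image f F
    have h6 : (F.filter (fun x => g x = m (f x))).card =
        ∑ a ∈ F.image f, ((F.filter (fun x => g x = m (f x))).filter (fun x => f x = a)).card := by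
      apply card_eq_sum_card_fiberwise
      intro x hx
      have : x ∈ F.filter (fun x => g x = m (f x)) := hx
      exact mem_image_of_mem f (mem_filter.1 this).1
    rw [h5, h6, mul_sum]
    apply sum_le_sum
    intro a _
    refine (hm a).trans (Nat.mul_le_mul_left K (card_le_card ?_))
    intro x hx
    simp only [mem_filter] at hx ⊢
    exact ⟨⟨hx.1.1, by rw [hx.1.2]; exact hx.2⟩, hx.1.2⟩
  · intro x hx y hy hxy
    rw [mem_filter] at hx hy
    rw [hx.2, hy.2, hxy]

/-- C1: counting lemma for N2. -/
theorem countA {X α β γ : Type} [DecidableEq X] [DecidableEq α] [DecidableEq β] [DecidableEq γ]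
    {n : ℕ} (F : Finset X) (f : X → α) (h : X → β) (e : X → Fin n) (y : X → γ) (A N : ℕ)
    (h1 : ∀ x ∈ F, ∀ x' ∈ F, f x = f x' → e x = e x' → h x = h x')
    (h2 : ∀ x ∈ F, ∀ x' ∈ F, y x = y x' → e x = e x' → x = x')
    (h3 : ∀ x ∈ F, ∀ x' ∈ F, y x = y x' → h x = h x')
    (h4 : ∀ x ∈ F, ∀ x' ∈ F, h x = h x' → f x = f x')
    (hN : (F.image y).card ≤ N) :
    ∃ G ⊆ F, F.card ≤ G.card + A * N ∧
      ∀ a, A * ((G.filter (fun x => f x = a)).image h).card ≤ n := by
  classical
  rcases F.eq_empty_or_nonempty with hF0 | ⟨x0, hx0⟩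
  · exact ⟨∅, empty_subset _, by simp [hF0], fun a => by simp⟩
  let cls : X → Finset X := fun x => F.filter (fun x' => y x' = y x)
  let G := F.filter (fun x => A ≤ (cls x).card)
  refine ⟨G, filter_subset _ _, ?_, ?_⟩
  · have hsplit : F.card = G.card + (F.filter (fun x => ¬ A ≤ (cls x).card)).card :=
      (card_filter_add_card_filter_not (s := F) (fun x => A ≤ (cls x).card)).symm
    have hbad : (F.filter (fun x => ¬ A ≤ (cls x).card)).card ≤ A * N := by
      calc (F.filter (fun x => ¬ A ≤ (cls x).card)).card
          = ∑ c ∈ F.image y,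
              ((F.filter (fun x => ¬ A ≤ (cls x).card)).filter (fun x => y x = c)).card := by
            apply card_eq_sum_card_fiberwise
            intro x hx
            have : x ∈ F.filter (fun x => ¬ A ≤ (cls x).card) := hx
            exact mem_image_of_mem y (mem_filter.1 this).1
        _ ≤ ∑ _c ∈ F.image y, A := by
            apply sum_le_sum
            intro c _
            rcases ((F.filter (fun x => ¬ A ≤ (cls x).card)).filter
                (fun x => y x = c)).eq_empty_or_nonempty with h0 | ⟨x, hx⟩
            · rw [h0]; simp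
            · simp only [mem_filter] at hx
              have : (F.filter (fun x => ¬ A ≤ (cls x).card)).filter (fun x => y x = c)
                  ⊆ cls x := by
                intro z hz
                simp only [mem_filter, cls] at hz ⊢
                exact ⟨hz.1.1, hz.2.trans hx.2.symm⟩
              exact (card_le_card this).trans (not_le.1 hx.1.2).le
        _ = (F.image y).card * A := by rw [sum_const, smul_eq_mul]
        _ ≤ N * A := Nat.mul_le_mul_right A hN
        _ = A * N := Nat.mul_comm _ _
    omega
  · intro a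
    set Z := (G.filter (fun x => f x = a)).image h with hZ
    have hrep : ∀ z : β, ∃ x, z ∈ Z → x ∈ G ∧ f x = a ∧ h x = z := by
      intro z
      by_cases hz : z ∈ Z
      · obtain ⟨x, hx, rfl⟩ := mem_image.1 hz
        rw [mem_filter] at hx
        exact ⟨x, fun _ => ⟨hx.1, hx.2, rfl⟩⟩
      · exact ⟨x0, fun h => absurd h hz⟩
    choose rep hrep using hrep
    have hdisj : ∀ z ∈ Z, ∀ z' ∈ Z, z ≠ z' →
        Disjoint ((cls (rep z)).image e) ((cls (rep z')).image e) := by
      intro z hz z' hz' hne
      rw [disjoint_left]
      intro i hi hi'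
      obtain ⟨x, hx, hxi⟩ := mem_image.1 hi
      obtain ⟨x', hx', hxi'⟩ := mem_image.1 hi'
      obtain ⟨ha1, ha2, ha3⟩ := hrep z hz
      obtain ⟨hb1, hb2, hb3⟩ := hrep z' hz'
      simp only [cls, mem_filter] at hx hx'
      have hF1 : rep z ∈ F := (mem_filter.1 ha1).1
      have hF2 : rep z' ∈ F := (mem_filter.1 hb1).1
      have e1 : h x = h (rep z) := h3 x hx.1 _ hF1 hx.2
      have e2 : h x' = h (rep z') := h3 x' hx'.1 _ hF2 hx'.2
      have e3 : f x = f (rep z) := h4 x hx.1 _ hF1 e1
      have e4 : f x' = f (rep z') := h4 x' hx'.1 _ hF2 e2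
      have e5 : h x = h x' := h1 x hx.1 x' hx'.1 (by rw [e3, e4, ha2, hb2]) (hxi.trans hxi'.symm)
      exact hne (by rw [← ha3, ← hb3, ← e1, ← e2, e5])
    have hsize : ∀ z ∈ Z, A ≤ ((cls (rep z)).image e).card := by
      intro z hz
      obtain ⟨ha1, ha2, ha3⟩ := hrep z hz
      rw [card_image_of_injOn]
      · exact (mem_filter.1 ha1).2
      · intro x hx x' hx' hxx
        have hx1 : x ∈ cls (rep z) := hx
        have hx2 : x' ∈ cls (rep z) := hx'
        simp only [cls, mem_filter] at hx1 hx2
        exact h2 x hx1.1 x' hx2.1 (hx1.2.trans hx2.2.symm) hxx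
    calc A * Z.card = ∑ _z ∈ Z, A := by rw [sum_const, smul_eq_mul, Nat.mul_comm]
      _ ≤ ∑ z ∈ Z, ((cls (rep z)).image e).card := sum_le_sum hsize
      _ = (Z.biUnion (fun z => (cls (rep z)).image e)).card := (card_biUnion hdisj).symm
      _ ≤ (univ : Finset (Fin n)).card := card_le_card (subset_univ _)
      _ = n := by simp

/-- C2: counting lemma for N3. -/
theorem countB {X α γ : Type} [DecidableEq X] [DecidableEq α] [DecidableEq γ]
    {n : ℕ} (F : Finset X) (f : X → α) (u v : X → Fin n) (y : X → γ) (K N : ℕ)
    (h1 : ∀ x ∈ F, ∀ x' ∈ F, f x = f x' → v x = v x' → u x = u x')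
    (h2 : ∀ x ∈ F, ∀ x' ∈ F, y x = y x' → u x = u x' → x = x')
    (h3 : ∀ x ∈ F, ∀ x' ∈ F, y x = y x' → f x = f x')
    (hN : (F.image y).card ≤ N) :
    ∃ G ⊆ F, K * F.card ≤ K * G.card + n * N ∧
      ∀ (a : α) (b : Fin n), ((G.filter (fun x => f x = a ∧ u x = b)).image v).card ≤ K := by
  classical
  let V : α → Fin n → Finset (Fin n) := fun a b => (F.filter (fun x => f x = a ∧ u x = b)).image v
  let G := F.filter (fun x => (V (f x) (u x)).card ≤ K)
  refine ⟨G, filter_subset _ _, ?_, ?_⟩
  · let B := F.filter (fun x => ¬ (V (f x) (u x)).card ≤ K)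
    have hsplit : F.card = G.card + B.card :=
      (card_filter_add_card_filter_not (s := F) (fun x => (V (f x) (u x)).card ≤ K)).symm
    -- bad values for `a`
    let bad : α → Finset (Fin n) := fun a => univ.filter (fun b => ¬ (V a b).card ≤ K)
    have hbad : ∀ a, K * (bad a).card ≤ n := by
      intro a
      calc K * (bad a).card = ∑ _b ∈ bad a, K := by rw [sum_const, smul_eq_mul, Nat.mul_comm]
        _ ≤ ∑ b ∈ bad a, (V a b).card := by
            apply sum_le_sum
            intro b hb
            simp only [bad, mem_filter, mem_univ, true_and, not_le] at hb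
            exact hb.le
        _ = ((bad a).biUnion (fun b => V a b)).card := by
            refine (card_biUnion ?_).symm
            intro b _ b' _ hne
            show Disjoint (V a b) (V a b')
            rw [disjoint_left]
            intro i hi hi'
            obtain ⟨x, hx, hxi⟩ := mem_image.1 hi
            obtain ⟨x', hx', hxi'⟩ := mem_image.1 hi'
            simp only [mem_filter] at hx hx'
            have := h1 x hx.1 x' hx'.1 (hx.2.1.trans hx'.2.1.symm) (hxi.trans hxi'.symm)
            exact hne (by rw [← hx.2.2, ← hx'.2.2, this])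
        _ ≤ (univ : Finset (Fin n)).card := card_le_card (subset_univ _)
        _ = n := by simp
    have hB : K * B.card ≤ n * N := by
      have e1 : B.card ≤ ∑ c ∈ F.image y, (B.filter (fun x => y x = c)).card := by
        apply le_of_eq
        apply card_eq_sum_card_fiberwise
        intro x hx
        have : x ∈ B := hx
        exact mem_image_of_mem y (mem_filter.1 this).1
      have e2 : ∀ c ∈ F.image y, K * (B.filter (fun x => y x = c)).card ≤ n := by
        intro c hc
        obtain ⟨x0, hx0, hx0c⟩ := mem_image.1 hc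
        have : (B.filter (fun x => y x = c)).card ≤ (bad (f x0)).card := by
          apply card_le_card_of_injOn u
          · intro x hx
            have hx' : x ∈ B.filter (fun x => y x = c) := hx
            simp only [B, mem_filter] at hx'
            have hfx : f x = f x0 := h3 x hx'.1.1 x0 hx0 (hx'.2.trans hx0c.symm)
            simp only [bad, coe_filter, mem_univ, true_and, Set.mem_ofPred_eq]
            rw [← hfx]
            exact hx'.1.2
          · intro x hx x' hx' hxx
            have hx1 : x ∈ B.filter (fun x => y x = c) := hx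
            have hx2 : x' ∈ B.filter (fun x => y x = c) := hx'
            simp only [B, mem_filter] at hx1 hx2
            exact h2 x hx1.1.1 x' hx2.1.1 (hx1.2.trans hx2.2.symm) hxx
        exact (Nat.mul_le_mul_left K this).trans (hbad _)
      calc K * B.card ≤ K * ∑ c ∈ F.image y, (B.filter (fun x => y x = c)).card :=
            Nat.mul_le_mul_left K e1
        _ = ∑ c ∈ F.image y, K * (B.filter (fun x => y x = c)).card := mul_sum _ _ _
        _ ≤ ∑ _c ∈ F.image y, n := sum_le_sum e2
        _ = (F.image y).card * n := by rw [sum_const, smul_eq_mul]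
        _ ≤ N * n := Nat.mul_le_mul_right n hN
        _ = n * N := Nat.mul_comm _ _
    rw [hsplit, Nat.mul_add]
    omega
  · intro a b
    rcases (G.filter (fun x => f x = a ∧ u x = b)).eq_empty_or_nonempty with h0 | ⟨x, hx⟩
    · rw [h0]; simp
    · simp only [G, mem_filter] at hx
      have h5 : (V a b).card ≤ K := by
        have := hx.1.2
        rwa [hx.2.1, hx.2.2] at this
      refine le_trans (card_le_card (image_subset_image ?_)) h5
      intro z hz
      simp only [G, mem_filter] at hz ⊢
      exact ⟨hz.1.1, hz.2⟩

end Pool.Agent.helper36.MFD
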