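import Mathlib
import Pool.Agent.helper36.MFD.Defs2
import Pool.Agent.helper36.MFD.Ct

/-!
N1, N2, N3: properties of a minimal dense closure system.
-/

set_option autoImplicit false

namespace Pool.Agent.helper36.MFD

open Finset Filter
open Pool.Agent.helper38.LSys

/-- The restriction of a tuple to a set of columns. -/
def rst {k n : ℕ} (A : Finset (Fin k)) (x : Fin k → Fin n) : A → Fin n := fun i => x i

lemma rst_eq_iff {k n : ℕ} {A : Finset (Fin k)} {x y : Fin k → Fin n} :
    rst A x = rst A y ↔ ∀ i ∈ A, x i = y i := by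
  constructor
  · intro h i hi
    exact congrFun h ⟨i, hi⟩
  · intro h
    funext i
    exact h i i.2

lemma eq_of_agree_univ {k n : ℕ} {I : Finset (Finset (Fin k))} {F : Finset (Fin k → Fin n)}
    (hF : Fam I F) {A : Finset (Fin k)} (hA : jcl I A = Finset.univ) {x y : Fin k → Fin n}
    (hx : x ∈ F) (hy : y ∈ F) (h : ∀ i ∈ A, x i = y i) : x = y := by
  funext i
  exact agree_jcl hF hx hy h i (by rw [hA]; exact Finset.mem_univ _)

/-- The number of traces on a closed set generated by `S` is at most `n ^ |S|`. -/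
lemma card_traces_le {k n : ℕ} {I : Finset (Finset (Fin k))} {F : Finset (Fin k → Fin n)}
    (hF : Fam I F) {S Y : Finset (Fin k)} (hS : jcl I S = Y) :
    (F.image (rst Y)).card ≤ n ^ S.card := by
  classical
  have h1 : (F.image (rst Y)).card ≤ (F.image (rst S)).card := by
    rcases F.eq_empty_or_nonempty with h0 | ⟨x0, hx0⟩
    · simp [h0]
    have hne : Nonempty (Fin k → Fin n) := ⟨x0⟩
    have : ∀ z ∈ F.image (rst Y), ∃ x ∈ F, rst Y x = z := fun z hz => Finset.mem_image.1 hz
    choose! g hg using this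
    apply Finset.card_le_card_of_injOn (fun z => rst S (g z))
    · intro z hz
      exact Finset.mem_image_of_mem _ (hg z hz).1
    · intro z hz z' hz' hzz
      have hz1 : z ∈ F.image (rst Y) := hz
      have hz2 : z' ∈ F.image (rst Y) := hz'
      have h3 := rst_eq_iff.1 hzz
      have h4 := agree_jcl hF (hg z hz1).1 (hg z' hz2).1 h3
      rw [hS] at h4
      rw [← (hg z hz1).2, ← (hg z' hz2).2]
      exact rst_eq_iff.2 h4
  refine h1.trans ((Finset.card_le_univ _).trans ?_)
  simp

/-- N1 -/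
theorem N1 {k : ℕ} {l : Filter ℕ} (hl : l ≤ atTop) {r : ℕ} {I : Finset (Finset (Fin k))}
    (hd : DenseI l r I) (S : Finset (Fin k)) (hS : jcl I S = Finset.univ) : r ≤ S.card := by
  by_contra hcon
  push Not at hcon
  obtain ⟨c, hc, hfr⟩ := hd
  have hev : ∀ᶠ n : ℕ in l, 1 / c + 1 < (n : ℝ) :=
    hl ((tendsto_natCast_atTop_atTop (R := ℝ)).eventually_gt_atTop _)
  obtain ⟨n, hn1, hn2⟩ := (hfr.and_eventually hev).exists
  obtain ⟨F, hF, hFc⟩ := exists_fmax k I n
  have h1 : F.card ≤ n ^ S.card := by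
    classical
    have := card_traces_le hF hS
    rwa [Finset.card_image_of_injOn] at this
    intro x hx y hy hxy
    exact funext fun i => rst_eq_iff.1 hxy i (Finset.mem_univ _)
  have hnpos : (1 : ℝ) ≤ n := by
    have : 0 < 1 / c := by positivity
    linarith
  have h2 : (F.card : ℝ) ≤ (n : ℝ) ^ S.card := by exact_mod_cast h1
  rw [← hFc] at hn1
  have h3 : (n : ℝ) ^ (S.card + 1) ≤ (n : ℝ) ^ r := pow_le_pow_right₀ hnpos hcon
  have h4 : c * (n : ℝ) ^ (S.card + 1) ≤ (n : ℝ) ^ S.card :=
    (mul_le_mul_of_nonneg_left h3 hc.le).trans (hn1.trans h2)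
  have hpos : 0 < (n : ℝ) ^ S.card := by positivity
  rw [pow_succ] at h4
  have h5 : c * n ≤ 1 := by
    by_contra h
    push Not at h
    nlinarith
  have h6 : 1 < c * n := by
    have : 1 / c < (n : ℝ) := by linarith
    rwa [div_lt_iff₀ hc, mul_comm] at this
  linarith

/-- Dense subfamilies of a minimal dense system have no new functional dependencies. -/
theorem MinDense.fd {k : ℕ} {l : Filter ℕ} {r : ℕ} {I : Finset (Finset (Fin k))}
    (hI : MinDense l r I) (U W : Finset (Fin k))
    (h : ∃ c : ℝ, 0 < c ∧ ∃ᶠ n : ℕ in l, ∃ F : Finset (Fin k → Fin n), Fam I F ∧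
      c * (n : ℝ) ^ r ≤ (F.card : ℝ) ∧
      ∀ x ∈ F, ∀ y ∈ F, (∀ i ∈ U, x i = y i) → ∀ i ∈ W, x i = y i) :
    W ⊆ jcl I U := by
  classical
  by_contra hcon
  let I' : Finset (Finset (Fin k)) := I.filter (fun A => U ⊆ A → W ⊆ A)
  have hsub : I' ⊂ I := by
    rw [Finset.ssubset_iff_of_subset (Finset.filter_subset _ _)]
    rw [Finset.not_subset] at hcon
    obtain ⟨w, hw, hw'⟩ := hcon
    rw [mem_jcl] at hw'
    push Not at hw'
    obtain ⟨B, hB, hUB, hwB⟩ := hw'
    refine ⟨B, hB, ?_⟩
    simp only [Finset.mem_filter, not_and]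
    intro _ h
    exact hwB (h hUB hw)
  have hint : ∀ A ∈ I', ∀ B ∈ I', A ∩ B ∈ I' := by
    intro A hA B hB
    simp only [I', Finset.mem_filter] at hA hB ⊢
    refine ⟨hI.inter A hA.1 B hB.1, fun hU => ?_⟩
    exact Finset.subset_inter (hA.2 (hU.trans Finset.inter_subset_left))
      (hB.2 (hU.trans Finset.inter_subset_right))
  apply hI.min I' hsub hint
  obtain ⟨c, hc, hfr⟩ := h
  refine ⟨c, hc, hfr.mono ?_⟩
  rintro n ⟨F, hF, hFc, hFD⟩
  refine hFc.trans ?_
  have : F.card ≤ fmax k I' n := by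
    apply le_fmax
    intro x hx y hy hxy
    simp only [I', Finset.mem_filter]
    refine ⟨hF x hx y hy hxy, fun hU i hi => ?_⟩
    rw [mem_agr]
    exact hFD x hx y hy (fun j hj => (mem_agr _ _ _).1 (hU hj)) i hi
  exact_mod_cast this

/-- N2 -/
theorem N2 {k : ℕ} {l : Filter ℕ} (hl : l ≤ atTop) {r : ℕ} {I : Finset (Finset (Fin k))}
    (hI : MinDense l r I) (Y Z S : Finset (Fin k)) (v : Fin k) (hY : JC I Y) (hZ : JC I Z)
    (hZY : Z ⊆ Y) (hv : jcl I (insert v Y) = Finset.univ) (hS : jcl I S = Y)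
    (hSr : S.card + 1 ≤ r) : jcl I (insert v Z) ∩ Y = Z := by
  classical
  set W := jcl I (insert v Z) ∩ Y with hW
  have hZW : Z ⊆ W := Finset.subset_inter
    ((Finset.subset_insert _ _).trans (subset_jcl _)) hZY
  refine Finset.Subset.antisymm ?_ hZW
  have key : W ⊆ jcl I Z := by
    apply hI.fd
    obtain ⟨c, hc, hfr⟩ := hI.dense
    obtain ⟨K, hK⟩ := exists_nat_ge (4 / c)
    have hKpos : (0 : ℝ) < K := lt_of_lt_of_le (by positivity) hK
    refine ⟨c / (2 * K), by positivity, ?_⟩
    have hev : ∀ᶠ n : ℕ in l, 4 / c + 1 < (n : ℝ) :=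
      hl ((tendsto_natCast_atTop_atTop (R := ℝ)).eventually_gt_atTop _)
    refine (hfr.and_eventually hev).mono ?_
    rintro n ⟨hn1, hn2⟩
    obtain ⟨F, hF, hFc⟩ := exists_fmax k I n
    have hnpos : (1 : ℝ) ≤ n := by
      have : 0 < 4 / c := by positivity
      linarith
    have hcn : 4 ≤ c * n := by
      have : 4 / c < (n : ℝ) := by linarith
      rw [div_lt_iff₀ hc] at this
      linarith
    obtain ⟨G, hGF, hG1, hG2⟩ := countA F (rst Z) (rst W) (fun x => x v) (rst Y)
      (⌊c * n / 2⌋₊) (n ^ S.card)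
      (by
        intro x hx x' hx' h1 h2
        rw [rst_eq_iff] at h1 ⊢
        intro i hi
        refine agree_jcl hF hx hx' ?_ i (Finset.mem_inter.1 hi).1
        intro j hj
        rw [Finset.mem_insert] at hj
        rcases hj with rfl | hj
        · exact h2
        · exact h1 j hj)
      (by
        intro x hx x' hx' h1 h2
        rw [rst_eq_iff] at h1
        apply eq_of_agree_univ hF hv hx hx'
        intro j hj
        rw [Finset.mem_insert] at hj
        rcases hj with rfl | hj
        · exact h2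
        · exact h1 j hj)
      (by
        intro x hx x' hx' h1
        rw [rst_eq_iff] at h1 ⊢
        exact fun i hi => h1 i (Finset.mem_inter.1 hi).2)
      (by
        intro x hx x' hx' h1
        rw [rst_eq_iff] at h1 ⊢
        exact fun i hi => h1 i (hZW hi))
      (card_traces_le hF hS)
    have hA1 : (⌊c * n / 2⌋₊ : ℝ) ≤ c * n / 2 := Nat.floor_le (by positivity)
    have hA2 : c * n / 4 ≤ (⌊c * n / 2⌋₊ : ℝ) := by
      have := Nat.lt_floor_add_one (c * n / 2)
      linarith
    have hbd : ∀ a, ((G.filter (fun x => rst Z x = a)).image (rst W)).card ≤ K := by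
      intro a
      have h1 := hG2 a
      have h2 : (⌊c * n / 2⌋₊ : ℝ) *
          (((G.filter (fun x => rst Z x = a)).image (rst W)).card : ℝ) ≤ n := by
        exact_mod_cast h1
      set m := ((G.filter (fun x => rst Z x = a)).image (rst W)).card with hm
      have h3 : c * n / 4 * (m : ℝ) ≤ n :=
        (mul_le_mul_of_nonneg_right hA2 (Nat.cast_nonneg m)).trans h2
      have h4 : c / 4 * (m : ℝ) ≤ 1 := by
        have hn0 : (0 : ℝ) < n := by linarith
        have : (c / 4 * (m : ℝ)) * n ≤ 1 * n := by linarith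
        exact le_of_mul_le_mul_right this hn0
      have h5 : (m : ℝ) ≤ 4 / c := by
        rw [le_div_iff₀ hc]
        linarith
      exact_mod_cast h5.trans hK
    obtain ⟨G', hG'G, hG'1, hG'2⟩ := popular G (rst Z) (rst W) K hbd
    refine ⟨G', ?_, ?_, ?_⟩
    · intro x hx y hy hxy
      exact hF x (hGF (hG'G hx)) y (hGF (hG'G hy)) hxy
    · have h1 : (F.card : ℝ) ≤ G.card + (⌊c * n / 2⌋₊ : ℝ) * (n : ℝ) ^ S.card := by
        exact_mod_cast hG1
      have h2 : (G.card : ℝ) ≤ K * G'.card := by exact_mod_cast hG'1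
      have h3 : (⌊c * n / 2⌋₊ : ℝ) * (n : ℝ) ^ S.card ≤ c / 2 * (n : ℝ) ^ r := by
        calc (⌊c * n / 2⌋₊ : ℝ) * (n : ℝ) ^ S.card ≤ (c * n / 2) * (n : ℝ) ^ S.card := by
              apply mul_le_mul_of_nonneg_right hA1 (by positivity)
          _ = c / 2 * (n : ℝ) ^ (S.card + 1) := by rw [pow_succ]; ring
          _ ≤ c / 2 * (n : ℝ) ^ r := by
              apply mul_le_mul_of_nonneg_left _ (by positivity)
              exact pow_le_pow_right₀ hnpos hSr
      rw [← hFc] at hn1
      have h4 : c / 2 * (n : ℝ) ^ r ≤ K * G'.card := by linarith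
      rw [div_mul_eq_mul_div, div_le_iff₀ (by positivity)]
      linarith
    · intro x hx y hy h
      have := hG'2 x hx y hy (rst_eq_iff.2 h)
      exact rst_eq_iff.1 this
  rw [jcl_of_JC hZ] at key
  exact key

/-- N3 -/
theorem N3 {k : ℕ} {l : Filter ℕ} (hl : l ≤ atTop) {r : ℕ} {I : Finset (Finset (Fin k))}
    (hI : MinDense l r I) (Y Z S : Finset (Fin k)) (u v : Fin k) (hY : JC I Y) (hZ : JC I Z)
    (hZY : Z ⊆ Y) (hu : jcl I (insert u Y) = Finset.univ) (hS : jcl I S = Y)
    (hSr : S.card + 1 ≤ r) (huv : u ∈ jcl I (insert v Z)) : v ∈ jcl I (insert u Z) := by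
  classical
  have key : ({v} : Finset (Fin k)) ⊆ jcl I (insert u Z) := by
    apply hI.fd
    obtain ⟨c, hc, hfr⟩ := hI.dense
    obtain ⟨K, hK⟩ := exists_nat_ge (2 / c)
    have hKpos : (0 : ℝ) < K := lt_of_lt_of_le (by positivity) hK
    refine ⟨c / (2 * K), by positivity, ?_⟩
    have hev : ∀ᶠ n : ℕ in l, 1 < (n : ℝ) :=
      hl ((tendsto_natCast_atTop_atTop (R := ℝ)).eventually_gt_atTop _)
    refine (hfr.and_eventually hev).mono ?_
    rintro n ⟨hn1, hn2⟩
    obtain ⟨F, hF, hFc⟩ := exists_fmax k I n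
    have hnpos : (1 : ℝ) ≤ n := hn2.le
    obtain ⟨G, hGF, hG1, hG2⟩ := countB F (rst Z) (fun x => x u) (fun x => x v) (rst Y)
      K (n ^ S.card)
      (by
        intro x hx x' hx' h1 h2
        rw [rst_eq_iff] at h1
        refine agree_jcl hF hx hx' ?_ u huv
        intro j hj
        rw [Finset.mem_insert] at hj
        rcases hj with rfl | hj
        · exact h2
        · exact h1 j hj)
      (by
        intro x hx x' hx' h1 h2
        rw [rst_eq_iff] at h1
        apply eq_of_agree_univ hF hu hx hx'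
        intro j hj
        rw [Finset.mem_insert] at hj
        rcases hj with rfl | hj
        · exact h2
        · exact h1 j hj)
      (by
        intro x hx x' hx' h1
        rw [rst_eq_iff] at h1 ⊢
        exact fun i hi => h1 i (hZY hi))
      (card_traces_le hF hS)
    have hbd : ∀ a : (Z → Fin n) × Fin n,
        ((G.filter (fun x => (rst Z x, x u) = a)).image (fun x => x v)).card ≤ K := by
      rintro ⟨a, b⟩
      have h1 := hG2 a b
      have h2 : G.filter (fun x => (rst Z x, x u) = (a, b)) =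
          G.filter (fun x => rst Z x = a ∧ x u = b) := by
        apply Finset.filter_congr
        intro x _
        rw [Prod.mk.injEq]
      rw [h2]
      exact h1
    obtain ⟨G', hG'G, hG'1, hG'2⟩ := popular G (fun x => (rst Z x, x u)) (fun x => x v) K hbd
    refine ⟨G', ?_, ?_, ?_⟩
    · intro x hx y hy hxy
      exact hF x (hGF (hG'G hx)) y (hGF (hG'G hy)) hxy
    · have h1 : (K : ℝ) * F.card ≤ K * G.card + n * (n : ℝ) ^ S.card := by
        exact_mod_cast hG1
      have h2 : (G.card : ℝ) ≤ K * G'.card := by exact_mod_cast hG'1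
      have h3 : (n : ℝ) * (n : ℝ) ^ S.card ≤ (n : ℝ) ^ r := by
        calc (n : ℝ) * (n : ℝ) ^ S.card = (n : ℝ) ^ (S.card + 1) := by rw [pow_succ]; ring
          _ ≤ (n : ℝ) ^ r := pow_le_pow_right₀ hnpos hSr
      rw [← hFc] at hn1
      have hcK : 2 ≤ c * K := by
        rw [div_le_iff₀ hc] at hK
        linarith
      have hpos : (0 : ℝ) ≤ (n : ℝ) ^ r := by positivity
      have h4 : (K : ℝ) * (c * (n : ℝ) ^ r) ≤ K * F.card :=
        mul_le_mul_of_nonneg_left hn1 hKpos.le
      have h5 : (K : ℝ) * (c / 2 * (n : ℝ) ^ r) ≤ K * G.card := by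
        have : (n : ℝ) ^ r ≤ (K : ℝ) * (c / 2 * (n : ℝ) ^ r) := by
          have := mul_le_mul_of_nonneg_right hcK hpos
          linarith
        linarith
      have h6 : c / 2 * (n : ℝ) ^ r ≤ G.card := le_of_mul_le_mul_left h5 hKpos
      rw [div_mul_eq_mul_div, div_le_iff₀ (by positivity)]
      linarith
    · intro x hx y hy h i hi
      rw [Finset.mem_singleton] at hi
      rw [hi]
      apply hG'2 x hx y hy
      rw [Prod.mk.injEq]
      refine ⟨rst_eq_iff.2 (fun j hj => h j (Finset.mem_insert_of_mem hj)),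
        h u (Finset.mem_insert_self _ _)⟩
  exact key (Finset.mem_singleton_self v)

/-- A minimal dense closure system is good. -/
theorem MinDense.good {k : ℕ} {l : Filter ℕ} (hl : l ≤ atTop) {r : ℕ} {I : Finset (Finset (Fin k))}
    (hI : MinDense l r I) : Good r I where
  n1 := fun S hS => N1 hl hI.dense S hS
  n2 := fun Y Z S v hY hZ hZY hv hS hSr => N2 hl hI Y Z S v hY hZ hZY hv hS hSr
  n3 := fun Y Z S u v hY hZ hZY hu hS hSr huv => N3 hl hI Y Z S u v hY hZ hZY hu hS hSr huv

end Pool.Agent.helper36.MFD
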