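import Mathlib
import Pool.Agent.helper36.MFD.Dense
import Pool.Agent.helper38.LSys3

/-!
From the maximum `mm` to a minimal dense closure system.
-/

set_option autoImplicit false

namespace Pool.Agent.helper36.MFD

open Finset Filter
open Pool.Agent.helper38.LSys

theorem exists_minDense_sub {k : ℕ} {l : Filter ℕ} {r : ℕ} {I : Finset (Finset (Fin k))}
    (hI : ∀ A ∈ I, ∀ B ∈ I, A ∩ B ∈ I) (hd : DenseI l r I) :
    ∃ J ⊆ I, MinDense l r J := by
  classical
  let P : Finset (Finset (Finset (Fin k))) :=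
    I.powerset.filter (fun J => (∀ A ∈ J, ∀ B ∈ J, A ∩ B ∈ J) ∧ DenseI l r J)
  have hP : P.Nonempty := ⟨I, by simp only [P, Finset.mem_filter, Finset.mem_powerset]
                                 exact ⟨subset_rfl, hI, hd⟩⟩
  obtain ⟨J, hJ, hmin⟩ := Finset.exists_min_image P Finset.card hP
  simp only [P, Finset.mem_filter, Finset.mem_powerset] at hJ hmin
  refine ⟨J, hJ.1, hJ.2.1, hJ.2.2, ?_⟩
  intro I' hI' hint hdense
  have := hmin I' ⟨hI'.1.trans hJ.1, hint, hdense⟩
  exact absurd (Finset.card_lt_card hI') (not_lt.2 this)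

theorem exists_minDense {k r : ℕ} (hk : 1 ≤ k) {L : Finset ℕ} {l : Filter ℕ} (hl : l ≤ atTop)
    (h : ∃ c : ℝ, 0 < c ∧ ∃ᶠ n : ℕ in l, c * (n : ℝ) ^ r ≤ (mm n k L : ℝ)) :
    ∃ I : Finset (Finset (Fin k)), Valid k L I ∧ MinDense l r I := by
  classical
  obtain ⟨c, hc, hfr⟩ := h
  have hCC : (0 : ℝ) < (CC k : ℝ) + 1 := by positivity
  have key : ∃ I : Finset (Finset (Fin k)), Valid k L I ∧ DenseI l r I := by
    by_contra hcon
    push Not at hcon
    have hall : ∀ I : Finset (Finset (Fin k)), ∀ᶠ n : ℕ in l,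
        Valid k L I → ¬ (c / ((CC k : ℝ) + 1) * (n : ℝ) ^ r ≤ (fmax k I n : ℝ)) := by
      intro I
      by_cases hV : Valid k L I
      · have h1 := hcon I hV
        unfold DenseI at h1
        push Not at h1
        have h2 := h1 (c / ((CC k : ℝ) + 1)) (by positivity)
        filter_upwards [h2] with n hn _
        exact not_le.2 hn
      · exact Filter.Eventually.of_forall (fun n h => absurd h hV)
    have hall' := Filter.eventually_all.2 hall
    have hev : ∀ᶠ n : ℕ in l, 0 < (n : ℝ) :=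
      hl ((tendsto_natCast_atTop_atTop (R := ℝ)).eventually_gt_atTop _)
    obtain ⟨n, hn1, hn2, hn3⟩ := (hfr.and_eventually (hall'.and hev)).exists
    have hpos : 0 < c * (n : ℝ) ^ r := by positivity
    rcases mm_le (n := n) hk L with h0 | ⟨I, hI, hle⟩
    · rw [h0] at hn1
      simp only [Nat.cast_zero] at hn1
      linarith
    · apply hn2 I hI
      have h5 : (mm n k L : ℝ) ≤ (CC k : ℝ) * (fmax k I n : ℝ) := by exact_mod_cast hle
      rw [div_mul_eq_mul_div, div_le_iff₀ hCC]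
      have : (0 : ℝ) ≤ (fmax k I n : ℝ) := Nat.cast_nonneg _
      nlinarith
  obtain ⟨I, hV, hd⟩ := key
  obtain ⟨J, hJI, hJ⟩ := exists_minDense_sub hV.1 hd
  exact ⟨J, ⟨hJ.inter, fun A hA => hV.2.1 A (hJI hA), fun A hA => hV.2.2 A (hJI hA)⟩, hJ⟩

end Pool.Agent.helper36.MFD
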