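import Mathlib
import Pool.Agent.helper36.MFD.Geo
import Pool.Agent.helper36.MFD.Wt

/-! Representatives of the parallel classes: from `E` to a simple system on `Fin t` with the
hyperplane on top. -/

set_option autoImplicit false

namespace Pool.Agent.helper36.MFD

open Finset

section Rep

variable {E : Type} [Fintype E] [DecidableEq E] (M : RankSys E)

theorem RankSys.cl_single {v x : E} (h : v ∈ M.cl {x}) : M.cl {v} = M.cl {x} := by
  have h2 : v ∉ M.cl (∅ : Finset E) := by rw [M.cl_empty]; exact Finset.notMem_empty v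
  have h1 : v ∈ M.cl (insert x ∅) := h
  exact M.cl_insert_eq h1 h2

/-- Representatives. -/
structure IsRep {t : ℕ} (H1 : Finset E) (h : ℕ) (ρ : Fin t → E) (κ : E → Fin t) : Prop where
  inj : Function.Injective ρ
  par : ∀ e, M.cl {ρ (κ e)} = M.cl {e}
  ret : ∀ i, κ (ρ i) = i
  cls : ∀ e f, M.cl {e} = M.cl {f} → κ e = κ f
  top : ∀ i, ρ i ∈ H1 ↔ h ≤ (i : ℕ)
  hh : h ≤ t

theorem exists_isRep (H1 : Finset E) :
    ∃ (t h : ℕ) (ρ : Fin t → E) (κ : E → Fin t), IsRep M H1 h ρ κ := by
  classical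
  let sd : Setoid E := ⟨fun e f => M.cl {e} = M.cl {f}, ⟨fun _ => rfl, fun h => h.symm,
    fun h1 h2 => h1.trans h2⟩⟩
  let rep : E → E := fun e => (Quotient.mk sd e).out
  have hrep : ∀ e, M.cl {rep e} = M.cl {e} := fun e => Quotient.mk_out (s := sd) e
  have hrep2 : ∀ e f, M.cl {e} = M.cl {f} → rep e = rep f := by
    intro e f hef
    have : Quotient.mk sd e = Quotient.mk sd f := Quotient.sound (s := sd) hef
    simp only [rep, this]
  let R0 : Finset E := (Finset.univ.image rep).filter (fun e => e ∉ H1)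
  let R1 : Finset E := (Finset.univ.image rep).filter (fun e => e ∈ H1)
  have hR0 : ∀ e ∈ R0, rep e = e ∧ e ∉ H1 := by
    intro e he
    simp only [R0, Finset.mem_filter, Finset.mem_image, Finset.mem_univ, true_and] at he
    obtain ⟨⟨f, rfl⟩, h1⟩ := he
    exact ⟨hrep2 _ _ (hrep f), h1⟩
  have hR1 : ∀ e ∈ R1, rep e = e ∧ e ∈ H1 := by
    intro e he
    simp only [R1, Finset.mem_filter, Finset.mem_image, Finset.mem_univ, true_and] at he
    obtain ⟨⟨f, rfl⟩, h1⟩ := he
    exact ⟨hrep2 _ _ (hrep f), h1⟩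
  let e0 : R0 ≃ Fin R0.card := R0.equivFin
  let e1 : R1 ≃ Fin R1.card := R1.equivFin
  let ρs : Fin R0.card ⊕ Fin R1.card → E :=
    Sum.elim (fun a => ((e0.symm a : R0) : E)) (fun b => ((e1.symm b : R1) : E))
  let ρ : Fin (R0.card + R1.card) → E := fun i => ρs (finSumFinEquiv.symm i)
  let κs : E → Fin R0.card ⊕ Fin R1.card := fun e =>
    if h : rep e ∈ R0 then Sum.inl (e0 ⟨rep e, h⟩)
    else if h' : rep e ∈ R1 then Sum.inr (e1 ⟨rep e, h'⟩) else
      Sum.inl (e0 ⟨rep e, by
        by_contra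
        simp only [R0, R1, Finset.mem_filter, Finset.mem_image, Finset.mem_univ, true_and,
          not_and, not_not] at h h'
        exact h' ⟨e, rfl⟩ (h ⟨e, rfl⟩)⟩)
  have hmem : ∀ e, rep e ∈ R0 ∨ rep e ∈ R1 := by
    intro e
    by_cases h : rep e ∈ H1
    · right
      simp only [R1, Finset.mem_filter, Finset.mem_image, Finset.mem_univ, true_and]
      exact ⟨⟨e, rfl⟩, h⟩
    · left
      simp only [R0, Finset.mem_filter, Finset.mem_image, Finset.mem_univ, true_and]
      exact ⟨⟨e, rfl⟩, h⟩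
  have hκs : ∀ e, ρs (κs e) = rep e := by
    intro e
    by_cases h : rep e ∈ R0
    · simp only [κs, h, dif_pos, ρs, Sum.elim_inl, Equiv.symm_apply_apply]
    · have h' : rep e ∈ R1 := (hmem e).resolve_left h
      simp only [κs, h, h', dif_pos, dif_neg, not_false_iff, ρs, Sum.elim_inr,
        Equiv.symm_apply_apply]
  have hρinj : Function.Injective ρs := by
    rintro (a | a) (b | b) hab
    · simp only [ρs, Sum.elim_inl] at hab
      exact congrArg _ (e0.symm.injective (Subtype.ext hab))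
    · simp only [ρs, Sum.elim_inl, Sum.elim_inr] at hab
      exact absurd (hab ▸ (hR1 _ (e1.symm b).2).2) (hR0 _ (e0.symm a).2).2
    · simp only [ρs, Sum.elim_inl, Sum.elim_inr] at hab
      exact absurd (hab ▸ (hR1 _ (e1.symm a).2).2) (hR0 _ (e0.symm b).2).2
    · simp only [ρs, Sum.elim_inr] at hab
      exact congrArg _ (e1.symm.injective (Subtype.ext hab))
  have hρrep : ∀ a, rep (ρs a) = ρs a := by
    rintro (a | a)
    · exact (hR0 _ (e0.symm a).2).1
    · exact (hR1 _ (e1.symm a).2).1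
  refine ⟨R0.card + R1.card, R0.card, ρ, fun e => finSumFinEquiv (κs e), ?_, ?_, ?_, ?_, ?_, ?_⟩
  · intro i j hij
    exact finSumFinEquiv.symm.injective (hρinj hij)
  · intro e
    simp only [ρ, Equiv.symm_apply_apply, hκs]
    exact hrep e
  · intro i
    have h1 : κs (ρ i) = finSumFinEquiv.symm i := by
      apply hρinj
      rw [hκs]
      exact hρrep _
    simp only [h1, Equiv.apply_symm_apply]
  · intro e f hef
    have h1 : κs e = κs f := by
      apply hρinj
      rw [hκs, hκs]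
      exact hrep2 e f hef
    simp only [h1]
  · intro i
    obtain ⟨a, rfl⟩ := finSumFinEquiv.surjective i
    simp only [ρ, Equiv.symm_apply_apply]
    rcases a with a | a
    · have h1 := (hR0 _ (e0.symm a).2).2
      simp only [ρs, Sum.elim_inl, finSumFinEquiv_apply_left, Fin.val_castAdd]
      constructor
      · intro h2; exact absurd h2 h1
      · intro h2; exact absurd a.2 (not_lt.2 h2)
    · have h1 := (hR1 _ (e1.symm a).2).2
      simp only [ρs, Sum.elim_inr, finSumFinEquiv_apply_right, Fin.val_natAdd]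
      exact ⟨fun _ => Nat.le_add_right _ _, fun _ => h1⟩
  · exact Nat.le_add_right _ _

/-- The system on the representatives. -/
def RankSys.pull {t : ℕ} (ρ : Fin t → E) (hρ : Function.Injective ρ) : RankSys (Fin t) where
  rk A := M.rk (A.image ρ)
  rk_empty := by rw [Finset.image_empty, M.rk_empty]
  rk_insert_le v A := by rw [Finset.image_insert]; exact M.rk_insert_le _ _
  rk_mono h := M.rk_mono (Finset.image_subset_image h)
  rk_submod A B := by
    rw [Finset.image_union, Finset.image_inter _ _ hρ]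
    exact M.rk_submod _ _
  rk_single v := by rw [Finset.image_singleton]; exact M.rk_single _

variable {M}

theorem mem_pull_cl {t : ℕ} {ρ : Fin t → E} (hρ : Function.Injective ρ) {v : Fin t}
    {A : Finset (Fin t)} : v ∈ (M.pull ρ hρ).cl A ↔ ρ v ∈ M.cl (A.image ρ) := by
  rw [RankSys.mem_cl, RankSys.mem_cl, ← Finset.image_insert]
  rfl

variable {t : ℕ} {H1 : Finset E} {h : ℕ} {ρ : Fin t → E} {κ : E → Fin t}

theorem IsRep.mem_cl (hr : IsRep M H1 h ρ κ) {e : E} {S : Finset E} :
    ρ (κ e) ∈ M.cl S ↔ e ∈ M.cl S := by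
  have h1 := hr.par e
  constructor
  · intro h2
    have h3 : M.cl {ρ (κ e)} ⊆ M.cl S :=
      M.cl_min (M.isFlat_cl S) (Finset.singleton_subset_iff.2 h2)
    rw [h1] at h3
    exact h3 (M.mem_cl_of_mem (Finset.mem_singleton_self e))
  · intro h2
    have h3 : M.cl {e} ⊆ M.cl S :=
      M.cl_min (M.isFlat_cl S) (Finset.singleton_subset_iff.2 h2)
    rw [← h1] at h3
    exact h3 (M.mem_cl_of_mem (Finset.mem_singleton_self _))

theorem IsRep.mem_flat (hr : IsRep M H1 h ρ κ) {e : E} {S : Finset E} (hS : M.IsFlat S) :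
    ρ (κ e) ∈ S ↔ e ∈ S := by
  have := hr.mem_cl (e := e) (S := S)
  rwa [hS] at this

theorem IsRep.cl_image (hr : IsRep M H1 h ρ κ) {S : Finset E} {A : Finset (Fin t)}
    (hA : ∀ e ∈ S, κ e ∈ A) : M.cl S ⊆ M.cl (A.image ρ) := by
  apply M.cl_min (M.isFlat_cl _)
  intro e he
  rw [← hr.mem_cl]
  exact M.mem_cl_of_mem (Finset.mem_image_of_mem ρ (hA e he))

theorem IsRep.simple (hr : IsRep M H1 h ρ κ) : (M.pull ρ hr.inj).Simple := by
  intro x
  ext v
  rw [mem_pull_cl, Finset.image_singleton, Finset.mem_singleton]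
  constructor
  · intro h1
    have h2 := hr.cls _ _ (M.cl_single h1)
    rwa [hr.ret, hr.ret] at h2
  · rintro rfl
    exact M.mem_cl_of_mem (Finset.mem_singleton_self _)

theorem IsRep.third (hr : IsRep M H1 h ρ κ) (hM : M.Third) : (M.pull ρ hr.inj).Third := by
  intro A x y hx hy
  rw [mem_pull_cl] at hx
  rw [mem_pull_cl, Finset.image_insert] at hy
  obtain ⟨g, hg, hg1, hg2⟩ := hM _ _ _ hx hy
  refine ⟨κ g, ?_, ?_, ?_⟩
  · rw [mem_pull_cl, Finset.image_insert, Finset.image_insert, hr.mem_cl]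
    exact hg
  · rw [mem_pull_cl, Finset.image_insert, hr.mem_cl]
    exact hg1
  · rw [mem_pull_cl, Finset.image_insert, hr.mem_cl]
    exact hg2

theorem IsRep.rk_univ (hr : IsRep M H1 h ρ κ) :
    (M.pull ρ hr.inj).rk Finset.univ = M.rk Finset.univ := by
  have h1 : M.cl (Finset.univ.image ρ) = Finset.univ := by
    apply Finset.eq_univ_iff_forall.2
    intro e
    exact hr.cl_image (S := Finset.univ) (fun e _ => Finset.mem_univ _)
      (M.mem_cl_of_mem (Finset.mem_univ e))
  show M.rk (Finset.univ.image ρ) = _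
  rw [← M.rk_cl, h1]

theorem IsRep.H1' (hr : IsRep M H1 h ρ κ) (hH : M.IsFlat H1) :
    (M.pull ρ hr.inj).IsFlat (Dge t h) := by
  apply Finset.Subset.antisymm _ (RankSys.subset_cl _ _)
  intro v hv
  rw [mem_pull_cl] at hv
  rw [mem_Dge, ← hr.top]
  refine M.cl_min hH ?_ hv
  intro e he
  obtain ⟨i, hi, rfl⟩ := Finset.mem_image.1 he
  rw [hr.top]
  exact mem_Dge.1 hi

theorem IsRep.hyp (hr : IsRep M H1 h ρ κ) (hH : M.IsFlat H1)
    (hyp : ∀ x, x ∉ H1 → M.cl (insert x H1) = Finset.univ) :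
    ∀ x, x ∉ Dge t h → (M.pull ρ hr.inj).cl (insert x (Dge t h)) = Finset.univ := by
  intro x hx
  rw [mem_Dge, ← hr.top] at hx
  apply Finset.eq_univ_iff_forall.2
  intro v
  rw [mem_pull_cl]
  have h1 : ρ v ∈ M.cl (insert (ρ x) H1) := by rw [hyp _ hx]; exact Finset.mem_univ _
  refine hr.cl_image (S := insert (ρ x) H1) ?_ h1
  intro e he
  rw [Finset.mem_insert] at he ⊢
  rcases he with rfl | he
  · left; exact hr.ret x
  · right
    rw [mem_Dge, ← hr.top, hr.mem_flat hH]
    exact he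

theorem IsRep.span (hr : IsRep M H1 h ρ κ) (hH : M.IsFlat H1) (hsp : M.cl H1ᶜ = Finset.univ) :
    (M.pull ρ hr.inj).cl (Dge t h)ᶜ = Finset.univ := by
  apply Finset.eq_univ_iff_forall.2
  intro v
  rw [mem_pull_cl]
  have h1 : ρ v ∈ M.cl H1ᶜ := by rw [hsp]; exact Finset.mem_univ _
  refine hr.cl_image (S := H1ᶜ) ?_ h1
  intro e he
  rw [Finset.mem_compl] at he ⊢
  rw [mem_Dge, ← hr.top, hr.mem_flat hH]
  exact he

theorem IsRep.one_le (hr : IsRep M H1 h ρ κ) (hH : M.IsFlat H1) (hne : H1 ≠ Finset.univ) :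
    1 ≤ h := by
  by_contra hcon
  apply hne
  apply Finset.eq_univ_iff_forall.2
  intro e
  rw [← hr.mem_flat hH, hr.top]
  omega

end Rep

end Pool.Agent.helper36.MFD
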