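import Mathlib
import Pool.Agent.helper36.MFD.Defs

/-!
Weights for the domination lemma (`MP_141f81_co`): existence and the digit identity.
-/

set_option autoImplicit false

namespace Pool.Agent.helper36.MFD

open Finset

namespace WAux

/-- The chosen primes. -/
noncomputable def pr (P j : ℕ) : ℕ := Nat.nth Nat.Prime (P + j)

theorem pr_prime (P j : ℕ) : (pr P j).Prime := Nat.prime_nth_prime _

theorem pr_gt (P j : ℕ) : P + 1 < pr P j := by
  have := Nat.add_two_le_nth_prime (P + j)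
  unfold pr
  omega

theorem pr_inj (P : ℕ) {i j : ℕ} (h : pr P i = pr P j) : i = j := by
  have := Nat.nth_injective Nat.infinite_setOfPred_prime h
  omega

/-- A residue: `1` modulo `p i`, `0` modulo the others. -/
theorem exists_res (P t : ℕ) (i : Fin t) : ∃ r : ℕ, r < ∏ j : Fin t, pr P j ∧
    ∀ j : Fin t, r % pr P j = if i = j then 1 else 0 := by
  classical
  set Q := ∏ j ∈ (univ.erase i), pr P (j : Fin t) with hQ
  have hcop : Nat.Coprime Q (pr P i) := by
    apply Nat.Coprime.prod_left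
    intro j hj
    have hne : j ≠ i := (Finset.mem_erase.mp hj).1
    refine (Nat.coprime_primes (pr_prime P j) (pr_prime P i)).mpr ?_
    intro h
    exact hne (Fin.ext (pr_inj P h))
  obtain ⟨k, hk1, hk2⟩ := Nat.chineseRemainder hcop 0 1
  have hpos : 0 < ∏ j : Fin t, pr P j := Finset.prod_pos (fun j _ => (pr_prime P j).pos)
  refine ⟨k % ∏ j : Fin t, pr P j, Nat.mod_lt _ hpos, ?_⟩
  intro j
  have hdvd : pr P j ∣ ∏ j : Fin t, pr P j := Finset.dvd_prod_of_mem _ (mem_univ j)
  rw [Nat.mod_mod_of_dvd _ hdvd]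
  by_cases hij : i = j
  · subst hij
    rw [if_pos rfl]
    have h1 : k % pr P i = 1 % pr P i := hk2
    rw [h1]
    exact Nat.mod_eq_of_lt (pr_prime P i).one_lt
  · rw [if_neg hij]
    have h1 : Q ∣ k := (Nat.modEq_zero_iff_dvd).mp hk1
    have h2 : pr P j ∣ Q := Finset.dvd_prod_of_mem _ (Finset.mem_erase.mpr ⟨fun h => hij h.symm, mem_univ j⟩)
    exact Nat.mod_eq_zero_of_dvd (h2.trans h1)

theorem geom8 (j : ℕ) : 4 * ∑ i ∈ range j, 8 ^ i < 8 ^ j := by
  induction j with
  | zero => simp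
  | succ j ih =>
    rw [Finset.sum_range_succ, pow_succ]
    omega

end WAux

open WAux

/-- W1 -/
theorem exists_weight (t P : ℕ) : ∃ w p : Fin t → ℕ, IsWeight P w p := by
  classical
  choose r hr1 hr2 using fun i : Fin t => exists_res P t i
  set M := ∏ j : Fin t, pr P j with hM
  have hMpos : 0 < M := Finset.prod_pos (fun j _ => (pr_prime P j).pos)
  refine ⟨fun i => r i + M * 8 ^ (i : ℕ), fun j => pr P j, ?_, ?_, ?_⟩
  · intro j
    have := pr_gt P j
    show P < pr P j
    omega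
  · intro i j
    have hdvd : pr P j ∣ M := Finset.dvd_prod_of_mem _ (mem_univ j)
    show (r i + M * 8 ^ (i : ℕ)) % pr P j = _
    have : pr P j ∣ M * 8 ^ (i : ℕ) := hdvd.mul_right _
    obtain ⟨c, hc⟩ := this
    rw [hc, Nat.add_mul_mod_self_left]
    exact hr2 i j
  · intro j
    have h1 : ∑ i ∈ Finset.univ.filter (· < j), (r i + M * 8 ^ (i : ℕ)) ≤
        ∑ i ∈ Finset.univ.filter (· < j), 2 * M * 8 ^ (i : ℕ) := by
      apply Finset.sum_le_sum
      intro i _
      have h2 := hr1 i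
      have h3 : M ≤ M * 8 ^ (i : ℕ) := Nat.le_mul_of_pos_right _ (by positivity)
      have h4 : 2 * M * 8 ^ (i : ℕ) = M * 8 ^ (i : ℕ) + M * 8 ^ (i : ℕ) := by ring
      omega
    have h5 : ∑ i ∈ Finset.univ.filter (· < j), 8 ^ (i : ℕ) = ∑ i ∈ range (j : ℕ), 8 ^ i := by
      refine Finset.sum_bij (fun i _ => (i : ℕ)) ?_ ?_ ?_ ?_
      · intro i hi
        have := (Finset.mem_filter.mp hi).2
        exact Finset.mem_range.mpr this
      · intro a _ b _ h
        exact Fin.ext h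
      · intro b hb
        have hb' := Finset.mem_range.mp hb
        exact ⟨⟨b, hb'.trans j.2⟩, Finset.mem_filter.mpr ⟨mem_univ _, hb'⟩, rfl⟩
      · intro _ _
        rfl
    have h6 : ∑ i ∈ Finset.univ.filter (· < j), 2 * M * 8 ^ (i : ℕ) =
        2 * M * ∑ i ∈ range (j : ℕ), 8 ^ i := by
      rw [← h5, Finset.mul_sum]
    have h7 := geom8 (j : ℕ)
    have h8 : M * (4 * ∑ i ∈ range (j : ℕ), 8 ^ i) < M * 8 ^ (j : ℕ) :=
      Nat.mul_lt_mul_of_pos_left h7 hMpos
    show 2 * ∑ i ∈ Finset.univ.filter (· < j), (r i + M * 8 ^ (i : ℕ)) < r j + M * 8 ^ (j : ℕ)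
    have h9 : 2 * (2 * M * ∑ i ∈ range (j : ℕ), 8 ^ i) = M * (4 * ∑ i ∈ range (j : ℕ), 8 ^ i) := by
      ring
    omega

end Pool.Agent.helper36.MFD
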