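import Mathlib
import Pool.Agent.helper36.MFD.Defs2
import Pool.Agent.helper36.MFD.Min
import Pool.Agent.helper36.MFD.W
import Pool.Agent.helper36.MFD.Rep
import Pool.Agent.helper36.MFD.Ch1

/-! The domination theorem, from the statement on columns. -/

set_option autoImplicit false

namespace Pool.Agent.helper36.MFD

open Finset Filter
open Pool.Agent.helper38.LSys

section Blow

variable {t : ℕ} (w : Fin t → ℕ)

/-- The column of a place. -/
noncomputable def col (a : Fin (wt w Finset.univ)) : Fin t :=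
  (finSigmaFinEquiv.symm (show Fin (∑ i, w i) from a)).1

theorem card_col (D : Finset (Fin t)) :
    (Finset.univ.filter (fun a : Fin (wt w Finset.univ) => col w a ∈ D)).card = wt w D := by
  classical
  have h1 : (Finset.univ.filter (fun a : Fin (wt w Finset.univ) => col w a ∈ D)).card =
      (Finset.univ.filter (fun s : (i : Fin t) × Fin (w i) => s.1 ∈ D)).card := by
    refine Finset.card_bij (fun a _ => finSigmaFinEquiv.symm (show Fin (∑ i, w i) from a)) ?_ ?_ ?_
    · intro a ha
      rw [Finset.mem_filter] at ha ⊢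
      exact ⟨Finset.mem_univ _, ha.2⟩
    · intro a _ b _ hab
      exact finSigmaFinEquiv.symm.injective hab
    · intro s hs
      rw [Finset.mem_filter] at hs
      refine ⟨(show Fin (wt w Finset.univ) from finSigmaFinEquiv s), ?_, ?_⟩
      · rw [Finset.mem_filter]
        refine ⟨Finset.mem_univ _, ?_⟩
        show (finSigmaFinEquiv.symm (finSigmaFinEquiv s)).1 ∈ D
        rw [Equiv.symm_apply_apply]
        exact hs.2
      · exact Equiv.symm_apply_apply _ _
  rw [h1]
  have h2 : (Finset.univ.filter (fun s : (i : Fin t) × Fin (w i) => s.1 ∈ D)) =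
      D.sigma (fun i => (Finset.univ : Finset (Fin (w i)))) := by
    ext s
    rw [Finset.mem_filter, Finset.mem_sigma]
    simp
  rw [h2, Finset.card_sigma]
  simp [wt]

theorem exists_col {w : Fin t → ℕ} {i : Fin t} (h : 0 < w i) : ∃ a, col w a = i := by
  classical
  have h1 := card_col w {i}
  have h2 : wt w {i} = w i := by simp [wt]
  rw [h2] at h1
  have h3 : (Finset.univ.filter (fun a : Fin (wt w Finset.univ) => col w a ∈ ({i} : Finset (Fin t)))).Nonempty := by
    rw [← Finset.card_pos, h1]; exact h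
  obtain ⟨a, ha⟩ := h3
  rw [Finset.mem_filter, Finset.mem_singleton] at ha
  exact ⟨a, ha.2⟩

end Blow

theorem wt_lt_univ {t P : ℕ} {w p : Fin t → ℕ} (hw : IsWeight P w p) {D : Finset (Fin t)}
    (hD : D ≠ Finset.univ) : wt w D < wt w Finset.univ := by
  classical
  have hne : ∃ j, j ∉ D := by
    by_contra hcon
    push Not at hcon
    exact hD (Finset.eq_univ_iff_forall.2 hcon)
  obtain ⟨j, hj⟩ := hne
  have h1 := Finset.sum_le_sum_of_subset (f := w) (Finset.subset_univ (insert j D))
  rw [Finset.sum_insert hj] at h1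
  have h2 := hw.pos j
  unfold wt
  omega

/-- Final statement, from the statement on columns. -/
theorem domination_of
    (hcol : ∀ {t k : ℕ} {M : RankSys (Fin t)} {h : ℕ} {w p : Fin t → ℕ}
      {I : Finset (Finset (Fin k))}, Setup M h w p I → Good (M.rk Finset.univ) I →
      ∃ c : Fin t → Fin k, jcl I (Finset.univ.image c) = Finset.univ ∧
      ∀ (S : Finset (Fin t)) (s : Fin t), s ∈ M.cl S → c s ∈ jcl I (S.image c))
    (E : Type) [Fintype E] [DecidableEq E] (M : RankSys E) (hM : M.Third)
    (H1 : Finset E) (hH1 : M.IsFlat H1) (hne : H1 ≠ Finset.univ)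
    (hyp : ∀ x, x ∉ H1 → M.cl (insert x H1) = Finset.univ) (hsp : M.cl H1ᶜ = Finset.univ) :
    ∃ (k : ℕ) (L : Finset ℕ), L.Nonempty ∧ L ⊆ Finset.range k ∧
      (∀ (n : ℕ) (F : Finset (E → Fin n)), (∀ x ∈ F, ∀ y ∈ F, x ≠ y →
        M.IsFlat (Finset.univ.filter (fun e => x e = y e))) → F.card ≤ mm (k * n) k L) ∧
      (∃ C : ℝ, ∀ n : ℕ, 1 ≤ n → (mm n k L : ℝ) ≤ C * (n : ℝ) ^ (M.rk Finset.univ)) ∧
      (∀ l : Filter ℕ, l ≤ atTop →
        (∃ c : ℝ, 0 < c ∧ ∃ᶠ n : ℕ in l, c * (n : ℝ) ^ (M.rk Finset.univ) ≤ (mm n k L : ℝ)) →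
        ∃ c : ℝ, 0 < c ∧ ∃ᶠ n : ℕ in l, ∃ F : Finset (E → Fin n),
          c * (n : ℝ) ^ (M.rk Finset.univ) ≤ (F.card : ℝ) ∧
          ∀ (S : Finset E) (s : E), s ∈ M.cl S → ∀ x ∈ F, ∀ y ∈ F, (∀ i ∈ S, x i = y i) →
            x s = y s) := by
  classical
  obtain ⟨t, h, ρ, κ, hr⟩ := exists_isRep M H1
  obtain ⟨w, p, hw⟩ := exists_weight t (5 ^ t)
  set M' : RankSys (Fin t) := M.pull ρ hr.inj with hM'
  set L : Finset ℕ := (Finset.univ.filter (fun D : Finset (Fin t) => M'.IsFlat D ∧
    D ≠ Finset.univ)).image (wt w) with hL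
  have hmemL : ∀ a, a ∈ L ↔ ∃ D, M'.IsFlat D ∧ D ≠ Finset.univ ∧ a = wt w D := by
    intro a
    simp only [hL, Finset.mem_image, Finset.mem_filter, Finset.mem_univ, true_and]
    constructor
    · rintro ⟨D, ⟨h1, h2⟩, h3⟩; exact ⟨D, h1, h2, h3.symm⟩
    · rintro ⟨D, h1, h2, h3⟩; exact ⟨D, ⟨h1, h2⟩, h3.symm⟩
  have h1h := hr.one_le hH1 hne
  have hr' : M'.rk Finset.univ = M.rk Finset.univ := hr.rk_univ
  have h0 : ∅ ≠ (Finset.univ : Finset (Fin t)) := by
    intro h2
    have h3 : (⟨0, lt_of_lt_of_le h1h hr.hh⟩ : Fin t) ∈ (∅ : Finset (Fin t)) := by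
      rw [h2]; exact Finset.mem_univ _
    exact absurd h3 (Finset.notMem_empty _)
  have hLne : L.Nonempty := ⟨wt w ∅, (hmemL _).2 ⟨∅, M'.cl_empty, h0, rfl⟩⟩
  have hLk : L ⊆ Finset.range (wt w Finset.univ) := by
    intro a ha
    obtain ⟨D, -, hD, rfl⟩ := (hmemL a).1 ha
    exact Finset.mem_range.2 (wt_lt_univ hw hD)
  have hk : 1 ≤ wt w Finset.univ := by
    obtain ⟨a, ha⟩ := hLne
    have := Finset.mem_range.1 (hLk ha)
    omega
  have hset : ∀ I : Finset (Finset (Fin (wt w Finset.univ))), Valid (wt w Finset.univ) L I →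
      Setup M' h w p I := by
    intro I hI
    exact
    { simple := hr.simple
      third := hr.third hM
      hh := h1h
      ht := hr.hh
      H1 := hr.H1' hH1
      hyp := hr.hyp hH1 hyp
      span := hr.span hH1 hsp
      wei := hw
      hk := rfl
      inter := hI.1
      ne_univ := hI.2.1
      card := fun A hA => (hmemL _).1 (hI.2.2 A hA) }
  refine ⟨wt w Finset.univ, L, hLne, hLk, ?_, ?_, ?_⟩
  · -- the lower bound
    intro n F hF
    let I0 : Finset (Finset (Fin (wt w Finset.univ))) :=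
      (Finset.univ.filter (fun D : Finset (Fin t) => M'.IsFlat D ∧ D ≠ Finset.univ)).image
        (fun D => Finset.univ.filter (fun a => col w a ∈ D))
    have hI0 : ∀ A ∈ I0, A.card ∈ L := by
      intro A hA
      simp only [I0, Finset.mem_image, Finset.mem_filter, Finset.mem_univ, true_and] at hA
      obtain ⟨D, ⟨h1, h2⟩, rfl⟩ := hA
      rw [hmemL]
      exact ⟨D, h1, h2, card_col w D⟩
    let φ : (E → Fin n) → (Fin (wt w Finset.univ) → Fin n) := fun x a => x (ρ (col w a))
    have hall : ∀ x ∈ F, ∀ y ∈ F, (∀ i, x (ρ i) = y (ρ i)) → x = y := by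
      intro x hx y hy hxy
      by_contra hcon
      have hfl := hF x hx y hy hcon
      apply hcon
      funext e
      have h1 : ρ (κ e) ∈ Finset.univ.filter (fun e => x e = y e) := by
        rw [Finset.mem_filter]
        exact ⟨Finset.mem_univ _, hxy _⟩
      rw [hr.mem_flat hfl, Finset.mem_filter] at h1
      exact h1.2
    have hφ : ∀ x ∈ F, ∀ y ∈ F, φ x = φ y → x = y := by
      intro x hx y hy hxy
      apply hall x hx y hy
      intro i
      obtain ⟨a, ha⟩ := exists_col (w := w) (i := i) (hw.pos i)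
      have := congrFun hxy a
      simp only [φ, ha] at this
      exact this
    have hcard : (F.image φ).card = F.card := Finset.card_image_of_injOn hφ
    rw [← hcard]
    refine (le_fmax (I := I0) ?_).trans (fmax_le_mm hI0 n)
    intro x' hx' y' hy' hxy'
    obtain ⟨x, hx, rfl⟩ := Finset.mem_image.1 hx'
    obtain ⟨y, hy, rfl⟩ := Finset.mem_image.1 hy'
    have hxy : x ≠ y := fun h => hxy' (by rw [h])
    have hfl := hF x hx y hy hxy
    simp only [I0, Finset.mem_image, Finset.mem_filter, Finset.mem_univ, true_and]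
    refine ⟨Finset.univ.filter (fun i => x (ρ i) = y (ρ i)), ⟨?_, ?_⟩, ?_⟩
    · apply Finset.Subset.antisymm _ (RankSys.subset_cl _ _)
      intro v hv
      rw [mem_pull_cl] at hv
      rw [Finset.mem_filter]
      refine ⟨Finset.mem_univ _, ?_⟩
      have h2 : ρ v ∈ Finset.univ.filter (fun e => x e = y e) := by
        refine M.cl_min hfl ?_ hv
        intro e he
        obtain ⟨i, hi, rfl⟩ := Finset.mem_image.1 he
        rw [Finset.mem_filter] at hi ⊢
        exact ⟨Finset.mem_univ _, hi.2⟩
      exact (Finset.mem_filter.1 h2).2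
    · intro hcon
      apply hxy
      apply hall x hx y hy
      intro i
      have : i ∈ Finset.univ.filter (fun i => x (ρ i) = y (ρ i)) := by
        rw [hcon]; exact Finset.mem_univ _
      exact (Finset.mem_filter.1 this).2
    · ext a
      rw [mem_agr, Finset.mem_filter, Finset.mem_filter]
      simp [φ]
  · -- the upper bound
    refine ⟨(CC (wt w Finset.univ) : ℝ), fun n hn => ?_⟩
    have hn0 : (0 : ℝ) ≤ n := Nat.cast_nonneg n
    rcases mm_le (n := n) hk L with h0 | ⟨I, hI, hle⟩
    · rw [h0]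
      simp only [Nat.cast_zero]
      positivity
    · obtain ⟨S, hS, hS2⟩ := exists_generators' (hset I hI)
      obtain ⟨F, hF, hFc⟩ := exists_fmax (wt w Finset.univ) I n
      have h1 : F.card ≤ n ^ S.card := by
        have h2 : F.card ≤ Fintype.card (S → Fin n) := by
          apply Finset.card_le_card_of_injOn (fun x (i : S) => x i) (fun x _ => Finset.mem_univ _)
          intro x hx y hy hxy
          have h3 := agree_jcl hF hx hy (A := S) (fun i hi => congrFun hxy ⟨i, hi⟩)
          rw [hS] at h3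
          funext i
          exact h3 i (Finset.mem_univ i)
        simpa using h2
      have h2 : F.card ≤ n ^ (M.rk Finset.univ) := by
        rw [← hr']
        exact h1.trans (Nat.pow_le_pow_right hn hS2)
      have h3 : (fmax (wt w Finset.univ) I n : ℝ) ≤ (n : ℝ) ^ (M.rk Finset.univ) := by
        rw [← hFc]; exact_mod_cast h2
      calc (mm n (wt w Finset.univ) L : ℝ)
          ≤ (CC (wt w Finset.univ) : ℝ) * (fmax (wt w Finset.univ) I n : ℝ) := by
            exact_mod_cast hle
        _ ≤ _ := mul_le_mul_of_nonneg_left h3 (by positivity)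
  · -- domination
    intro l hl hd
    obtain ⟨I, hI, hmin⟩ := exists_minDense hk hl hd
    have hs := hset I hI
    rw [← hr'] at hmin
    have hg : Good (M'.rk Finset.univ) I :=
      { n1 := fun S hS => N1 hl hmin.dense S hS
        n2 := fun Y Z S v hY hZ hZY hv hS hSr => N2 hl hmin Y Z S v hY hZ hZY hv hS hSr
        n3 := fun Y Z S u v hY hZ hZY hu hS hSr huv =>
          N3 hl hmin Y Z S u v hY hZ hZY hu hS hSr huv }
    obtain ⟨c, hc1, hc2⟩ := hcol hs hg
    obtain ⟨c0, hc0, hfr⟩ := hmin.dense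
    rw [hr'] at hfr
    refine ⟨c0, hc0, hfr.mono fun n hn => ?_⟩
    obtain ⟨F0, hF0, hF0c⟩ := exists_fmax (wt w Finset.univ) I n
    let ψ : (Fin (wt w Finset.univ) → Fin n) → (E → Fin n) := fun x e => x (c (κ e))
    have hψ : ∀ x ∈ F0, ∀ y ∈ F0, ψ x = ψ y → x = y := by
      intro x hx y hy hxy
      have h3 := agree_jcl hF0 hx hy (A := Finset.univ.image c) (by
        intro j hj
        obtain ⟨i, -, rfl⟩ := Finset.mem_image.1 hj
        have := congrFun hxy (ρ i)
        simp only [ψ, hr.ret] at this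
        exact this)
      rw [hc1] at h3
      funext i
      exact h3 i (Finset.mem_univ i)
    have hcard : (F0.image ψ).card = F0.card := Finset.card_image_of_injOn hψ
    refine ⟨F0.image ψ, ?_, ?_⟩
    · rw [hcard, hF0c]; exact hn
    · intro S s hsS x' hx' y' hy' hag
      obtain ⟨x, hx, rfl⟩ := Finset.mem_image.1 hx'
      obtain ⟨y, hy, rfl⟩ := Finset.mem_image.1 hy'
      have h1 : κ s ∈ M'.cl (S.image κ) := by
        rw [hM', mem_pull_cl, hr.mem_cl]
        exact hr.cl_image (S := S) (fun e he => Finset.mem_image_of_mem κ he) hsS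
      have h2 := hc2 _ _ h1
      exact agree_jcl hF0 hx hy (A := (S.image κ).image c) (by
        intro j hj
        obtain ⟨i, hi, rfl⟩ := Finset.mem_image.1 hj
        obtain ⟨e, he, rfl⟩ := Finset.mem_image.1 hi
        exact hag e he) _ h2

end Pool.Agent.helper36.MFD
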