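import Mathlib
import Pool.Agent.helper36.MFD.Fin
import Pool.Agent.helper36.MFD.Ch2
import Pool.Agent.helper36.MFD.AD

/-!
The domination theorem for `MP_141f81_co`.
-/

set_option autoImplicit false

namespace Pool.Agent.helper36.MFD

open Finset Filter
open Pool.Agent.helper38.LSys

/-- **Domination.** -/
theorem domination (E : Type) [Fintype E] [DecidableEq E] (M : RankSys E) (hM : M.Third)
    (H1 : Finset E) (hH1 : M.IsFlat H1) (hne : H1 ≠ Finset.univ)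
    (hyp : ∀ x, x ∉ H1 → M.cl (insert x H1) = Finset.univ) (hsp : M.cl H1ᶜ = Finset.univ) :
    ∃ (k : ℕ) (L : Finset ℕ), L.Nonempty ∧ L ⊆ Finset.range k ∧
      (∀ (n : ℕ) (F : Finset (E → Fin n)), (∀ x ∈ F, ∀ y ∈ F, x ≠ y →
        M.IsFlat (Finset.univ.filter (fun e => x e = y e))) → F.card ≤ mm (k * n) k L) ∧
      (∃ C : ℝ, ∀ n : ℕ, 1 ≤ n → (mm n k L : ℝ) ≤ C * (n : ℝ) ^ (M.rk Finset.univ)) ∧
      (∀ l : Filter ℕ, l ≤ atTop →
        (∃ c : ℝ, 0 < c ∧ ∃ᶠ n : ℕ in l, c * (n : ℝ) ^ (M.rk Finset.univ) ≤ (mm n k L : ℝ)) →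
        ∃ c : ℝ, 0 < c ∧ ∃ᶠ n : ℕ in l, ∃ F : Finset (E → Fin n),
          c * (n : ℝ) ^ (M.rk Finset.univ) ≤ (F.card : ℝ) ∧
          ∀ (S : Finset E) (s : E), s ∈ M.cl S → ∀ x ∈ F, ∀ y ∈ F, (∀ i ∈ S, x i = y i) →
            x s = y s) := by
  refine domination_of (fun hs hg => ?_) E M hM H1 hH1 hne hyp hsp
  obtain ⟨Y, Z, hb⟩ := exists_blocks hs hg
  exact exists_columns' hs hg hb

end Pool.Agent.helper36.MFD
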